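import Pool.Agent.Q56.HP.Words

/-!
# Positivity on words of degree one
-/

set_option autoImplicit false
set_option linter.unusedSectionVars false

open CategoryTheory AlgebraicGeometry

universe u v w

namespace Pool.Agent.Q56.HP

open Pool.Agent.H914 Pool.Agent.H914.VarClass Pool.Agent.H914.VarClass.Obj
  Pool.Agent.H914.WeilCohomology Pool.Agent.H281R3.HT Pool.Agent.W552
  Pool.Agent.W458.MF Pool.Agent.Q56.CT Pool.Agent.Q56.CTS Pool.Agent.Q56.FE Pool.Agent.Q56.FH
open Pool.Agent.Q56.FR (fr)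

section Alg

variable {K : Type*} [Field K] {q : ℕ}

/-- letters of degree one -/
def LA (S : Multiset K) : Multiset (K ⊕ ℕ × K) := S.map Sum.inl

/-- the conjugate letters of degree one -/
def LB (q : ℕ) (S : Multiset K) : Multiset (K ⊕ ℕ × K) := S.map fun z => Sum.inl ((q : K) / z)

lemma LA_add (S T : Multiset K) : LA (S + T) = LA S + LA T := Multiset.map_add _ _ _

lemma LB_add (S T : Multiset K) : LB q (S + T) = LB q S + LB q T := Multiset.map_add _ _ _

lemma LB_eq (S : Multiset K) : LB q S = LA (S.map fun z => (q : K) / z) := by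
  rw [LA, Multiset.map_map]
  rfl

lemma dg_LA (S : Multiset K) : CT.dg (LA S) = Multiset.card S := by
  rw [CT.dg, LA, Multiset.map_map]
  have h10 : (S.map (dgL ∘ (Sum.inl : K → K ⊕ ℕ × K))) = S.map fun _ => 1 := rfl
  rw [h10, Multiset.map_const', Multiset.sum_replicate, smul_eq_mul, mul_one]

lemma eg_LA (S : Multiset K) : CT.eg (LA S) = S.prod := by
  rw [CT.eg, LA, Multiset.map_map]
  have h10 : (S.map (egL ∘ (Sum.inl : K → K ⊕ ℕ × K))) = S.map id := rfl
  rw [h10, Multiset.map_id]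

lemma sum_sing {α β : Type*} (g : α → β) (S : Multiset α) :
    (S.map fun z => ({g z} : Multiset β)).sum = S.map g := by
  induction S using Multiset.induction with
  | empty => rfl
  | cons z S ih => rw [Multiset.map_cons, Multiset.sum_cons, ih, Multiset.map_cons]; rfl

/-- The choice of the square roots. -/
lemma exists_roots [IsAlgClosed K] {e : K} {j : ℕ} {S : Multiset K} (he : e * e = (q : K))
    (hc : Multiset.card S = 2 * j) (hp : S.prod = (q : K) ^ j) :
    ∃ Z : Multiset (K × K), Z.map Prod.fst = S ∧ (∀ z ∈ Z, z.2 * z.2 = e * z.1) ∧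
      (Z.map Prod.snd).prod = e ^ (2 * j) := by
  have hsq : ∀ x : K, ∃ y, y * y = e * x := fun x => by
    obtain ⟨y, hy⟩ := IsAlgClosed.exists_eq_mul_self (e * x)
    exact ⟨y, hy.symm⟩
  choose s hs using hsq
  have h1 : (S.map s).prod * (S.map s).prod = e ^ (2 * j) * e ^ (2 * j) := by
    rw [← Multiset.prod_map_mul, Multiset.map_congr rfl fun x _ => hs x, Multiset.prod_map_mul,
      Multiset.map_const', Multiset.prod_replicate, hc, Multiset.map_id', hp, ← he]
    ring
  have h2 : (S.map s).prod = e ^ (2 * j) ∨ (S.map s).prod = -e ^ (2 * j) := by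
    rcases mul_self_eq_mul_self_iff.1 h1 with h | h
    · exact Or.inl h
    · exact Or.inr h
  rcases h2 with h2 | h2
  · refine ⟨S.map fun x => (x, s x), ?_, ?_, ?_⟩
    · rw [Multiset.map_map]
      exact Multiset.map_id _
    · intro z hz
      obtain ⟨x, -, rfl⟩ := Multiset.mem_map.1 hz
      exact hs x
    · rw [Multiset.map_map]
      exact h2
  · rcases Nat.eq_zero_or_pos j with rfl | hj
    · have h3 : S = 0 := Multiset.card_eq_zero.1 hc
      subst h3
      exact ⟨0, rfl, fun z hz => absurd hz (Multiset.notMem_zero z), by simp⟩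
    · obtain ⟨x, hx⟩ := Multiset.exists_mem_of_ne_zero (s := S) (by
        rintro rfl
        rw [Multiset.card_zero] at hc
        omega)
      obtain ⟨S', rfl⟩ := Multiset.exists_cons_of_mem hx
      refine ⟨(x, -s x) ::ₘ S'.map fun x => (x, s x), ?_, ?_, ?_⟩
      · rw [Multiset.map_cons, Multiset.map_map]
        congr 1
        exact Multiset.map_id _
      · intro z hz
        rcases Multiset.mem_cons.1 hz with rfl | hz
        · change -s x * -s x = e * x
          rw [neg_mul_neg, hs]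
        · obtain ⟨x, -, rfl⟩ := Multiset.mem_map.1 hz
          exact hs x
      · rw [Multiset.map_cons, Multiset.map_map, Multiset.prod_cons]
        rw [Multiset.map_cons, Multiset.prod_cons] at h2
        change -s x * (S'.map s).prod = _
        rw [neg_mul, h2, neg_neg]

end Alg

variable {k : Type u} [Field k] {𝒱 : VarClass k} {ops : CycleOps 𝒱}
  {W : WeilCohomology.{u, v} ops} [IsAlgClosed W.K] {σ : An W.K →ₐ[ℚ] ℂ}
  {p : ℕ} [Fact p.Prime] {a : ℕ} {F : FrobeniusOver W (p ^ a)}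
  {ι : Type w} {Pf : ι → Polarized 𝒱} {f Φ : ∀ i, Module.End W.K (W.H (Pf i).X)}
  {isA : ι → Prop}

namespace Dat

variable (D : Dat F σ Pf f Φ)

section Pair

variable (hocc : ∀ z : W.K, IsWeilNumber (p ^ a) 1 z → Occ F Pf isA (Sum.inl z))
  (hpair : ∀ z : W.K, IsWeilNumber (p ^ a) 1 z →
    D.Pos isA ({Sum.inl z} + {Sum.inl (((p ^ a : ℕ) : W.K) / z)}))

lemma tm_pair {z : W.K} (hz : IsWeilNumber (p ^ a) 1 z) :
    TM (p ^ a) ({Sum.inl z} + {Sum.inl (((p ^ a : ℕ) : W.K) / z)} : Multiset (W.K ⊕ ℕ × W.K)) := by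
  have hq : 0 < p ^ a := pow_pos (Fact.out : p.Prime).pos a
  have h0 := weil_ne hq hz
  refine ⟨1, rfl, ?_⟩
  rw [eg_add]
  change (({Sum.inl z} : Multiset (W.K ⊕ ℕ × W.K)).map egL).prod *
    (({Sum.inl (((p ^ a : ℕ) : W.K) / z)} : Multiset (W.K ⊕ ℕ × W.K)).map egL).prod = _
  rw [Multiset.map_singleton, Multiset.map_singleton, Multiset.prod_singleton,
    Multiset.prod_singleton]
  change z * (((p ^ a : ℕ) : W.K) / z) = _
  rw [pow_one, mul_div_cancel₀ _ h0]

include hpair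

/-- sums of pairs -/
lemma pos_pairs {S : Multiset W.K} (hS : ∀ z ∈ S, IsWeilNumber (p ^ a) 1 z) :
    TM (p ^ a) (LA S + LB (p ^ a) S) ∧ D.Pos isA (LA S + LB (p ^ a) S) := by
  have h1 := D.pos_sum (isA := isA) (fun z => {Sum.inl z} + {Sum.inl (((p ^ a : ℕ) : W.K) / z)}) S
    (fun z hz => tm_pair (hS z hz)) fun z hz => hpair z (hS z hz)
  rw [Multiset.sum_map_add, sum_sing, sum_sing] at h1
  exact h1

include hocc

/-- squares -/
lemma ex_sq {S : Multiset W.K} (hS0 : S ≠ 0) (hS : ∀ z ∈ S, IsWeilNumber (p ^ a) 1 z)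
    (hT : TM (p ^ a) (LA S)) : D.Ex isA (LA S + LA S) := by
  have hne : LA S ≠ 0 := by
    intro h
    apply hS0
    exact Multiset.map_eq_zero.1 h
  obtain ⟨n, c, lab, harr, hlab, x, x', hx, hx0, hx0'⟩ := D.exists_word (isA := isA) hne hT (by
    intro l hl
    obtain ⟨z, hz, rfl⟩ := Multiset.mem_map.1 hl
    exact hocc z (hS z hz))
  have hok : OkW Pf (p ^ a) c lab := fun i => ⟨(harr i).1, (harr i).2.1⟩
  have hcb : lw (fun i => cb (p ^ a) (lab i)) = LB (p ^ a) S := by
    have h1 : lw (fun i => cb (p ^ a) (lab i)) = (lw lab).map (cb (p ^ a)) := by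
      rw [lw, lw, Multiset.map_map]
      rfl
    rw [h1, hlab, LA, Multiset.map_map]
    rfl
  have hs := spl_append n n
  have hpos : PosK σ (D.B c x x' * D.B c x' x) := by
    have hx2 := mr_symm hok hx
    have hnn : ∀ (C : Fin (n + 1 + n + 1) → ι) (L : Fin (n + 1 + n + 1) → W.K ⊕ ℕ × W.K),
        (fun i => C (Fin.castAdd (n + 1) i)) = c → (fun i => C (Fin.natAdd (n + 1) i)) = c →
        (fun i => L (Fin.castAdd (n + 1) i)) = lab →
        (fun i => L (Fin.natAdd (n + 1) i)) = (fun i => cb (p ^ a) (lab i)) → D.NN C L := by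
      intro C L h1 h2 h3 h4
      refine (D.pos_pairs hpair hS).2 _ C L ?_ ?_
      · intro i
        rcases hs.cover i with ⟨j, rfl⟩ | ⟨j, rfl⟩
        · have := harr j
          rw [← h1, ← h3] at this
          exact this
        · have e1 : C (Fin.natAdd (n + 1) j) = c j := congrFun h2 j
          have e2 : L (Fin.natAdd (n + 1) j) = cb (p ^ a) (lab j) := congrFun h4 j
          rw [e1, e2]
          refine ⟨by rw [dg_cb]; exact (harr j).1, wl_cb (pow_pos (Fact.out : p.Prime).pos a)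
            (harr j).2.1, fun z hz => ?_⟩
          rcases hl : lab j with y | y
          · exact (harr j).2.2 y hl
          · rw [hl] at hz
            cases hz
      · rw [lw_spl hs, h3, h4, hlab, hcb]
    have key : ∀ (c₁ c₂ : Fin (n + 1) → ι) (l₁ l₂ : Fin (n + 1) → W.K ⊕ ℕ × W.K)
        (x₁ x₁' : W.H (nest ops n fun i => Pf (c₁ i)).X)
        (x₂ x₂' : W.H (nest ops n fun i => Pf (c₂ i)).X),
        (∀ (C : Fin (n + 1 + n + 1) → ι) (L : Fin (n + 1 + n + 1) → W.K ⊕ ℕ × W.K),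
        (fun i => C (Fin.castAdd (n + 1) i)) = c₁ → (fun i => C (Fin.natAdd (n + 1) i)) = c₂ →
        (fun i => L (Fin.castAdd (n + 1) i)) = l₁ →
        (fun i => L (Fin.natAdd (n + 1) i)) = l₂ → D.NN C L) →
        MR (F := F) (σ := σ) c₁ l₁ x₁ x₁' → MR (F := F) (σ := σ) c₂ l₂ x₂ x₂' → x₁ ≠ 0 →
        x₂ ≠ 0 → PosK σ (D.B c₁ x₁ x₁' * D.B c₂ x₂ x₂') := by
      intro c₁ c₂ l₁ l₂ x₁ x₁' x₂ x₂' hnn h1 h2 h3 h4
      obtain ⟨C, rfl, rfl⟩ := exists_append c₁ c₂
      obtain ⟨L, rfl, rfl⟩ := exists_append l₁ l₂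
      have h5 := hnn C L rfl rfl rfl rfl _ _ (mx_MR hs h1 h2) (Or.inl (D.mx_ne hs h3 h4))
      rwa [D.B_mx hs] at h5
    exact key c c lab _ x x' x' x hnn hx hx2 hx0 hx0'
  have hsym : D.B c x x' = D.B c x' x := (D.herm lab).symm hx hx
  rw [← hsym] at hpos
  have key : ∀ (c₁ c₂ : Fin (n + 1) → ι) (l₁ l₂ : Fin (n + 1) → W.K ⊕ ℕ × W.K)
      (x₁ x₁' : W.H (nest ops n fun i => Pf (c₁ i)).X)
      (x₂ x₂' : W.H (nest ops n fun i => Pf (c₂ i)).X), Arr Pf isA (p ^ a) c₁ l₁ →
      Arr Pf isA (p ^ a) c₂ l₂ → lw l₁ = LA S → lw l₂ = LA S →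
      MR (F := F) (σ := σ) c₁ l₁ x₁ x₁' → MR (F := F) (σ := σ) c₂ l₂ x₂ x₂' →
      PosK σ (D.B c₁ x₁ x₁' * D.B c₂ x₂ x₂') → D.Ex isA (LA S + LA S) := by
    intro c₁ c₂ l₁ l₂ x₁ x₁' x₂ x₂' g1 g2 g3 g4 h1 h2 h3
    obtain ⟨C, rfl, rfl⟩ := exists_append c₁ c₂
    obtain ⟨L, rfl, rfl⟩ := exists_append l₁ l₂
    refine ⟨n + 1 + n, C, L, fun i => ?_, ?_, _, _, mx_MR hs h1 h2, ?_⟩
    · rcases hs.cover i with ⟨j, rfl⟩ | ⟨j, rfl⟩
      · exact g1 j
      · exact g2 j
    · rw [lw_spl hs, g3, g4]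
    · rwa [D.B_mx hs]
  exact key c c lab lab x x' x x' harr harr hlab hlab hx hx hpos

lemma tm_LB {S : Multiset W.K} (hS : ∀ z ∈ S, IsWeilNumber (p ^ a) 1 z)
    (hT : TM (p ^ a) (LA S)) : TM (p ^ a) (LB (p ^ a) S) := by
  have hq : 0 < p ^ a := pow_pos (Fact.out : p.Prime).pos a
  have hq0 : ((p ^ a : ℕ) : W.K) ≠ 0 := by exact_mod_cast hq.ne'
  obtain ⟨j, h1, h2⟩ := hT
  obtain ⟨⟨i, h3, h4⟩, -⟩ := D.pos_pairs hpair hS
  rw [dg_add, h1] at h3
  rw [eg_add, h2] at h4
  have h5 : CT.dg (LB (p ^ a) S) = 2 * j := by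
    rw [LB_eq, dg_LA, Multiset.card_map, ← dg_LA, h1]
  rw [h5] at h3
  refine ⟨j, h5, ?_⟩
  apply mul_left_cancel₀ (pow_ne_zero j hq0)
  rw [h4, ← pow_add]
  congr 1
  omega

lemma pos_sq {S : Multiset W.K} (hS : ∀ z ∈ S, IsWeilNumber (p ^ a) 1 z)
    (hT : TM (p ^ a) (LA S)) : D.Pos isA (LA S + LA S) := by
  have hq : 0 < p ^ a := pow_pos (Fact.out : p.Prime).pos a
  by_cases hS0 : S = 0
  · rw [hS0]
    exact D.pos_zero
  have h1 := (D.pos_pairs hpair (S := S + S) fun z hz =>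
    (Multiset.mem_add.1 hz).elim (hS z) (hS z)).2
  rw [LA_add, LB_add] at h1
  refine D.pos_cancel h1 ?_
  have h2 := D.tm_LB hocc hpair hS hT
  rw [LB_eq] at h2 ⊢
  refine D.ex_sq hocc hpair ?_ ?_ h2
  · intro h
    exact hS0 (Multiset.map_eq_zero.1 h)
  · intro z hz
    obtain ⟨y, hy, rfl⟩ := Multiset.mem_map.1 hz
    exact weil_conj hq (hS y hy)

variable {e : W.K} (he : e * e = ((p ^ a : ℕ) : W.K))
  (hE : ∀ z y : W.K, IsWeilNumber (p ^ a) 1 z → IsWeilNumber (p ^ a) 1 y → y * y = e * z →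
    D.Ex isA ({Sum.inl e} + {Sum.inl (((p ^ a : ℕ) : W.K) / z)} + {Sum.inl y} + {Sum.inl y}))

include he hE

/-- even number of pairs -/
lemma pos_even {i : ℕ} {S : Multiset W.K} (hS : ∀ z ∈ S, IsWeilNumber (p ^ a) 1 z)
    (hc : Multiset.card S = 2 * (2 * i)) (hp : S.prod = ((p ^ a : ℕ) : W.K) ^ (2 * i)) :
    D.Pos isA (LA S) := by
  have hq : 0 < p ^ a := pow_pos (Fact.out : p.Prime).pos a
  obtain ⟨Z, rfl, hZ, hZp⟩ := exists_roots he hc hp
  have heW : IsWeilNumber (p ^ a) 1 e := by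
    apply weil_root (n := 2) two_pos
    rw [pow_two, he]
    exact weil_q (p ^ a)
  have hy : ∀ z ∈ Z, IsWeilNumber (p ^ a) 1 z.2 := by
    intro z hz
    apply weil_root (n := 2) (i := 1) two_pos
    rw [pow_two, hZ z hz]
    have h5 := weil_mul heW (hS z.1 (Multiset.mem_map_of_mem _ hz))
    exact h5
  rw [Multiset.card_map] at hc
  set Y : Multiset W.K := Z.map Prod.snd with hY
  set R : Multiset W.K := Multiset.replicate (2 * i) e + Y with hR
  have hRW : ∀ z ∈ R, IsWeilNumber (p ^ a) 1 z := by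
    intro z hz
    rcases Multiset.mem_add.1 hz with hz | hz
    · rw [Multiset.eq_of_mem_replicate hz]
      exact heW
    · obtain ⟨y, hy', rfl⟩ := Multiset.mem_map.1 hz
      exact hy y hy'
  have hRT : TM (p ^ a) (LA R) := by
    refine ⟨3 * i, ?_, ?_⟩
    · rw [dg_LA, hR, Multiset.card_add, Multiset.card_replicate, hY, Multiset.card_map, hc]
      ring
    · rw [eg_LA, hR, Multiset.prod_add, Multiset.prod_replicate, hZp, ← he]
      ring
  have h1 := D.pos_sq hocc hpair hRW hRT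
  obtain ⟨h2, h3⟩ := D.pos_pairs hpair hS
  have h4 := D.pos_add h2 (hRT.add hRT) h3 h1
  refine D.pos_cancel_sum (fun z : W.K × W.K =>
    {Sum.inl e} + {Sum.inl (((p ^ a : ℕ) : W.K) / z.1)} + {Sum.inl z.2} + {Sum.inl z.2}) Z ?_
    fun z hz => hE z.1 z.2 (hS z.1 (Multiset.mem_map_of_mem _ hz)) (hy z hz) (hZ z hz)
  have h5 : LA (Z.map Prod.fst) + (Z.map fun z : W.K × W.K =>
      ({Sum.inl e} + {Sum.inl (((p ^ a : ℕ) : W.K) / z.1)} + {Sum.inl z.2} +
        {Sum.inl z.2} : Multiset (W.K ⊕ ℕ × W.K))).sum =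
      LA (Z.map Prod.fst) + LB (p ^ a) (Z.map Prod.fst) + (LA R + LA R) := by
    rw [Multiset.sum_map_add, Multiset.sum_map_add, Multiset.sum_map_add, sum_sing, sum_sing,
      sum_sing, hR, LA_add]
    have e1 : Z.map (fun z : W.K × W.K => (Sum.inl z.2 : W.K ⊕ ℕ × W.K)) = LA Y := by
      rw [LA, hY, Multiset.map_map]
      rfl
    have e2 : Z.map (fun z : W.K × W.K => (Sum.inl (((p ^ a : ℕ) : W.K) / z.1) :
        W.K ⊕ ℕ × W.K)) = LB (p ^ a) (Z.map Prod.fst) := by
      rw [LB, Multiset.map_map]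
      rfl
    have e3 : Z.map (fun _ : W.K × W.K => (Sum.inl e : W.K ⊕ ℕ × W.K)) =
        LA (Multiset.replicate (2 * i) e) + LA (Multiset.replicate (2 * i) e) := by
      rw [Multiset.map_const', hc, ← LA_add, ← Multiset.replicate_add, LA,
        Multiset.map_replicate]
      congr 1
      ring
    rw [e1, e2, e3]
    abel
  rw [h5]
  exact h4

/-- **All words of degree one.** -/
theorem pos_abel {S : Multiset W.K} (hS : ∀ z ∈ S, IsWeilNumber (p ^ a) 1 z)
    (hT : TM (p ^ a) (LA S)) : D.Pos isA (LA S) := by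
  have hq : 0 < p ^ a := pow_pos (Fact.out : p.Prime).pos a
  have heW : IsWeilNumber (p ^ a) 1 e := by
    apply weil_root (n := 2) two_pos
    rw [pow_two, he]
    exact weil_q (p ^ a)
  obtain ⟨j, h1, h2⟩ := hT
  rw [dg_LA] at h1
  rw [eg_LA] at h2
  rcases Nat.even_or_odd' j with ⟨i, rfl | rfl⟩
  · exact D.pos_even hocc hpair he hE hS h1 h2
  · have he' : ((p ^ a : ℕ) : W.K) / e = e := by
      rw [div_eq_iff (weil_ne hq heW), he]
    have h3 : D.Pos isA (LA (S + {e, e})) := by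
      refine D.pos_even hocc hpair he hE (i := i + 1) ?_ ?_ ?_
      · intro z hz
        rcases Multiset.mem_add.1 hz with hz | hz
        · exact hS z hz
        · simp only [Multiset.insert_eq_cons, Multiset.mem_cons, Multiset.mem_singleton,
            or_self] at hz
          rw [hz]
          exact heW
      · rw [Multiset.card_add, h1]
        simp
        ring
      · rw [Multiset.prod_add, h2]
        simp only [Multiset.insert_eq_cons, Multiset.prod_cons, Multiset.prod_singleton]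
        rw [he]
        ring
    rw [LA_add] at h3
    refine D.pos_cancel h3 ?_
    have h4 := hpair e heW
    have h5 : LA ({e, e} : Multiset W.K) =
        {Sum.inl e} + {Sum.inl (((p ^ a : ℕ) : W.K) / e)} := by
      rw [he']
      rfl
    rw [h5]
    refine D.ex_of_pos ?_ (tm_pair heW) ?_ h4
    · intro h0
      have := congrArg Multiset.card h0
      simp at this
    · intro l hl
      rw [he'] at hl
      have : l = Sum.inl e := by
        rcases Multiset.mem_add.1 hl with hl | hl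
        · exact Multiset.mem_singleton.1 hl
        · exact Multiset.mem_singleton.1 hl
      rw [this]
      exact hocc e heW

end Pair

end Dat

end Pool.Agent.Q56.HP
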