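import Pool.Agent.Q56.HP.Mixed

/-!
# Positivity on all algebraic classes
-/

set_option autoImplicit false
set_option linter.unusedSectionVars false

open CategoryTheory AlgebraicGeometry

universe u v w

namespace Pool.Agent.Q56.HP

open Pool.Agent.H914 Pool.Agent.H914.VarClass Pool.Agent.H914.VarClass.Obj
  Pool.Agent.H914.WeilCohomology Pool.Agent.H281R3.HT Pool.Agent.W552
  Pool.Agent.W458.MF Pool.Agent.Q56.CT Pool.Agent.Q56.CTS Pool.Agent.Q56.FE Pool.Agent.Q56.FH
open Pool.Agent.Q56.FR (fr)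
open Pool.Agent.Q56.HPS (IsComb)

section Alg

variable {K : Type*} [Field K] {q : ℕ}

/-- the letters of degree one in the place of the letters of higher degree -/
def UU (ν : K ⊕ ℕ × K → K) (T : Multiset (K ⊕ ℕ × K)) : Multiset K :=
  (T.map fun l => Multiset.replicate (dgL l) (ν l)).sum

lemma UU_facts {ν : K ⊕ ℕ × K → K} {T : Multiset (K ⊕ ℕ × K)}
    (h : ∀ l ∈ T, ν l ^ dgL l = egL l) : Multiset.card (UU ν T) = CT.dg T ∧
      (UU ν T).prod = CT.eg T := by
  induction T using Multiset.induction with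
  | empty => exact ⟨rfl, rfl⟩
  | cons l T ih =>
    obtain ⟨h1, h2⟩ := ih fun l' hl' => h l' (Multiset.mem_cons_of_mem hl')
    have h3 := h l (Multiset.mem_cons_self l T)
    rw [UU] at h1 h2
    rw [UU, Multiset.map_cons, Multiset.sum_cons, Multiset.card_add, Multiset.prod_add, h1, h2,
      Multiset.card_replicate, Multiset.prod_replicate, h3, CT.dg, CT.dg, CT.eg, CT.eg,
      Multiset.map_cons, Multiset.map_cons, Multiset.sum_cons, Multiset.prod_cons]
    exact ⟨rfl, rfl⟩

lemma UU_mem {ν : K ⊕ ℕ × K → K} {T : Multiset (K ⊕ ℕ × K)} {z : K} (hz : z ∈ UU ν T) :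
    ∃ l ∈ T, z = ν l := by
  induction T using Multiset.induction with
  | empty => exact absurd hz (Multiset.notMem_zero z)
  | cons l T ih =>
    rw [UU, Multiset.map_cons, Multiset.sum_cons] at hz
    rcases Multiset.mem_add.1 hz with hz | hz
    · exact ⟨l, Multiset.mem_cons_self l T, Multiset.eq_of_mem_replicate hz⟩
    · obtain ⟨l', hl', h⟩ := ih hz
      exact ⟨l', Multiset.mem_cons_of_mem hl', h⟩

lemma LA_UU (ν : K ⊕ ℕ × K → K) (T : Multiset (K ⊕ ℕ × K)) :
    LA (UU ν T) = (T.map fun l => LA (Multiset.replicate (dgL l) (ν l))).sum := by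
  induction T using Multiset.induction with
  | empty => rfl
  | cons l T ih =>
    rw [UU] at ih
    rw [UU, Multiset.map_cons, Multiset.sum_cons, LA_add, ih, Multiset.map_cons,
      Multiset.sum_cons]

end Alg

variable {k : Type u} [Field k] {𝒱 : VarClass k} {ops : CycleOps 𝒱}
  {W : WeilCohomology.{u, v} ops} {ι : Type w} {Pf : ι → Polarized 𝒱}
  [IsAlgClosed W.K] {σ : An W.K →ₐ[ℚ] ℂ}
  {p : ℕ} [Fact p.Prime] {a : ℕ} {F : FrobeniusOver W (p ^ a)}
  {f Φ : ∀ i, Module.End W.K (W.H (Pf i).X)} {isA : ι → Prop}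

namespace Dat

variable (D : Dat F σ Pf f Φ)

/-- cancelling many words -/
lemma pos_cancel_sum' {α : Type*} {S : Multiset (W.K ⊕ ℕ × W.K)}
    (g : α → Multiset (W.K ⊕ ℕ × W.K)) (Z : Multiset α)
    (h : D.Pos isA (S + (Z.map g).sum)) (hZ : ∀ z ∈ Z, g z = 0 ∨ D.Ex isA (g z)) :
    D.Pos isA S := by
  induction Z using Multiset.induction generalizing S with
  | empty => rwa [Multiset.map_zero, Multiset.sum_zero, add_zero] at h
  | cons z Z ih =>
    rw [Multiset.map_cons, Multiset.sum_cons, add_comm (g z), ← add_assoc] at h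
    refine ih ?_ fun z' hz' => hZ z' (Multiset.mem_cons_of_mem hz')
    rcases hZ z (Multiset.mem_cons_self z Z) with h1 | h1
    · rwa [h1, add_zero] at h
    · exact D.pos_cancel h h1

variable (hκ : ∀ i, ∃ r : ℚ, 0 < r ∧ bf W (Pf i).X (Pf i).D (f i) 1 1 = r)

include hκ in
/-- the letter of degree zero -/
lemma pos_zeroLab {z : W.K} : D.Pos isA {Sum.inr (0, z)} := by
  intro n c lab harr hlab
  have hn : n = 0 := by
    have h3 := congrArg Multiset.card hlab
    rw [lw, Multiset.card_map, Finset.card_val, Finset.card_univ, Fintype.card_fin,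
      Multiset.card_singleton] at h3
    omega
  subst hn
  have h0 : lab 0 = Sum.inr (0, z) := by
    have h1 : lab 0 ∈ lw lab :=
      Multiset.mem_map_of_mem lab (Finset.mem_univ_val (0 : Fin (0 + 1)))
    rw [hlab] at h1
    exact Multiset.mem_singleton.1 h1
  have h0' : dgL (lab 0) = 0 := by rw [h0]; rfl
  refine D.nn_of_rat (fun j => ⟨(harr j).1, (harr j).2.1⟩) fun x hx hxV hx0 => ?_
  have hgr := DG_gr (VD_le_DG hxV)
  rw [Fin.sum_univ_one, h0', W.gr_zero] at hgr
  obtain ⟨s, rfl⟩ := Submodule.mem_span_singleton.1 hgr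
  obtain ⟨κ, hκ0, hκ⟩ := hκ (c 0)
  have h1 : D.B c (1 : W.H (nest ops 0 fun i => Pf (c i)).X) 1 = κ := by
    have h2 := D.B_nw c (fun _ => 1) fun _ => 1
    rw [nw_zero, Fin.prod_univ_one, hκ] at h2
    exact h2
  obtain ⟨r, hr⟩ := (D.Fr c).bf_rat hx (AS.one)
  have h2 : D.B c (s • (1 : W.H (nest ops 0 fun i => Pf (c i)).X)) 1 = r := hr
  rw [map_smul, LinearMap.smul_apply, h1, smul_eq_mul] at h2
  have hκK : (κ : W.K) ≠ 0 := by exact_mod_cast hκ0.ne'
  have hs : s = ((r / κ : ℚ) : W.K) := by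
    push_cast
    rw [eq_div_iff hκK, h2]
  have hs0 : r / κ ≠ 0 := by
    intro h3
    apply hx0
    rw [hs, h3, Rat.cast_zero, zero_smul]
  refine ⟨(r / κ) ^ 2 * κ, mul_pos (by positivity) hκ0, ?_⟩
  rw [map_smul, map_smul, LinearMap.smul_apply, h1, hs, smul_eq_mul, smul_eq_mul]
  push_cast
  ring

variable {e : W.K} (he : e * e = ((p ^ a : ℕ) : W.K))
  (hAV : ∀ S : Multiset W.K, (∀ z ∈ S, IsWeilNumber (p ^ a) 1 z) →
    TM (p ^ a) (LA S) → D.Pos isA (LA S))
  (hocc : ∀ z : W.K, IsWeilNumber (p ^ a) 1 z → Occ F Pf isA (Sum.inl z))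
  (hpair : ∀ z : W.K, IsWeilNumber (p ^ a) 1 z →
    D.Pos isA ({Sum.inl z} + {Sum.inl (((p ^ a : ℕ) : W.K) / z)}))
  (hgen : ∀ i, isA i → Generates (W.gr (Pf i).X 1))
  (hμ : ∀ i, isA i → ∀ a b : ℤ, ∃ μ, IsComb W (Pf i).X a b μ)
  (hmix : ∀ j, ¬ isA j → ∀ (n : ℕ) (c : Fin (n + 1) → ι), (∀ i, isA (c i)) →
      n + 1 ≤ (Pf j).X.dim → HodgeTypeOn W ((Pf j).prod ops (nest ops n fun i => Pf (c i))).X
        ((Pf j).prod ops (nest ops n fun i => Pf (c i))).D
        (mixed W (Pf j).X (nest ops n fun i => Pf (c i)).X (n + 1)))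

include he hAV hocc hpair hgen hμ hmix hκ

/-- **Positivity on all words.** -/
theorem nn_all {n : ℕ} {c : Fin (n + 1) → ι} {lab : Fin (n + 1) → W.K ⊕ ℕ × W.K}
    (hok : OkW Pf (p ^ a) c lab) (hinr : ∀ i z, lab i ≠ Sum.inl z) (hT : TL (p ^ a) lab) :
    D.NN c lab := by
  have hq : 0 < p ^ a := pow_pos (Fact.out : p.Prime).pos a
  by_cases hne : ∀ i, ∃ x ∈ LS F (Pf (c i)) (lab i), x ≠ 0
  swap
  · -- there are no words
    push Not at hne
    obtain ⟨i, hi⟩ := hne
    have hV : ∀ x ∈ VV F (fun i => Pf (c i)) lab, x = 0 := by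
      intro x hx
      apply D.nondeg
      intro y
      have h1 := nest_span (W := W) (ops := ops) (P := fun i => Pf (c i)) (S := fun _ => Set.univ)
        (fun i y => Submodule.subset_span (Set.mem_univ y)) y
      unfold VV at hx
      induction hx using Submodule.span_induction with
      | zero => simp
      | add u v _ _ hu hv => rw [map_add, LinearMap.add_apply, hu, hv, add_zero]
      | smul r u _ hu => rw [map_smul, LinearMap.smul_apply, hu, smul_zero]
      | mem x hx =>
      induction h1 using Submodule.span_induction with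
      | zero => simp
      | add u v _ _ hu hv => rw [map_add, hu, hv, add_zero]
      | smul r u _ hu => rw [map_smul, hu, smul_zero]
      | mem y hy =>
      obtain ⟨x, hx, rfl⟩ := hx
      obtain ⟨y, -, rfl⟩ := hy
      rw [D.B_nw]
      refine Finset.prod_eq_zero (Finset.mem_univ i) ?_
      rw [hi _ (hx i), map_zero, LinearMap.zero_apply]
    intro x x' hx h0
    exact absurd (hV x hx.2.1) (D.ne_both hok hT hx h0).1
  have heW : IsWeilNumber (p ^ a) 1 e := by
    apply weil_root (n := 2) two_pos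
    rw [pow_two, he]
    exact weil_q (p ^ a)
  -- the roots
  have hroot : ∀ i, ∃ ν, IsWeilNumber (p ^ a) 1 ν ∧ ν ^ dgL (lab i) = egL (lab i) := by
    intro i
    rcases Nat.eq_zero_or_pos (dgL (lab i)) with h0 | h0
    · refine ⟨e, heW, ?_⟩
      obtain ⟨x, hx, hx0⟩ := hne i
      have h1 := hx.1
      have h2 := hx.2.1
      rw [h0, W.gr_zero] at h1
      obtain ⟨s, rfl⟩ := Submodule.mem_span_singleton.1 h1
      have h3 : fr F (Pf (c i)).X (s • (1 : W.H (Pf (c i)).X)) = s • 1 := by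
        rw [map_smul]
        congr 1
        exact map_one (W.map (F.Fr (Pf (c i)).X))
      rw [h3] at h2
      have h4 : (1 - egL (lab i)) • (s • (1 : W.H (Pf (c i)).X)) = 0 := by
        rw [sub_smul, one_smul, ← h2, sub_self]
      rw [h0, pow_zero]
      exact sub_eq_zero.1 ((smul_eq_zero.1 h4).resolve_right hx0)
    · obtain ⟨ν, hν⟩ := IsAlgClosed.exists_pow_nat_eq (egL (lab i)) h0
      refine ⟨ν, weil_root (n := dgL (lab i)) h0 ?_, hν⟩
      rw [hν, mul_one]
      exact (hok i).2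
  set T := lw lab with hTdef
  have hroot' : ∀ l, ∃ ν, l ∈ T → IsWeilNumber (p ^ a) 1 ν ∧ ν ^ dgL l = egL l := by
    intro l
    by_cases hl : l ∈ T
    · obtain ⟨i, -, rfl⟩ := Multiset.mem_map.1 hl
      obtain ⟨ν, h⟩ := hroot i
      exact ⟨ν, fun _ => h⟩
    · exact ⟨0, fun h => absurd h hl⟩
  choose ν hν using hroot'
  have hlT : ∀ l ∈ T, (∀ z, l ≠ Sum.inl z) ∧ WL (p ^ a) l := by
    intro l hl
    obtain ⟨i, -, rfl⟩ := Multiset.mem_map.1 hl
    exact ⟨hinr i, (hok i).2⟩
  -- the word of degree one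
  have hTM : TM (p ^ a) T := (tl_iff lab).1 hT
  obtain ⟨hU1, hU2⟩ := UU_facts (T := T) fun l hl => (hν l hl).2
  have hUT : TM (p ^ a) (LA (UU ν T)) := by
    obtain ⟨j, h1, h2⟩ := hTM
    exact ⟨j, by rw [dg_LA, hU1, h1], by rw [eg_LA, hU2, h2]⟩
  have hUP := hAV (UU ν T) (fun z hz => by
    obtain ⟨l, hl, rfl⟩ := UU_mem hz
    exact (hν l hl).1) hUT
  -- the mixed words
  obtain ⟨hM1, hM2⟩ := D.pos_sum (isA := isA) (fun l : W.K ⊕ ℕ × W.K =>
      {l} + LB (p ^ a) (Multiset.replicate (dgL l) (ν l))) T (fun l hl => by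
    have h1 := weil_ne hq (hν l hl).1
    refine ⟨dgL l, ?_, ?_⟩
    · rw [dg_add, LB_eq, dg_LA, Multiset.card_map, Multiset.card_replicate, two_mul]
      congr 1
    · rw [eg_add, LB_eq, eg_LA, Multiset.map_replicate, Multiset.prod_replicate, div_pow,
        (hν l hl).2, CT.eg, Multiset.map_singleton, Multiset.prod_singleton]
      exact mul_div_cancel₀ _ (weil_ne hq (hlT l hl).2)) (fun l hl => by
    rcases hl' : l with z | ⟨i, z⟩
    · exact absurd hl' ((hlT l hl).1 z)
    · rcases i with _ | i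
      · exact D.pos_zeroLab hκ
      · have h1 := D.pos_mixed hAV hgen hμ hκ hmix (i := i) (z := z)
          (y := ((p ^ a : ℕ) : W.K) / ν (Sum.inr (i + 1, z)))
        have h2 : LB (p ^ a) (Multiset.replicate (dgL (Sum.inr (i + 1, z) : W.K ⊕ ℕ × W.K))
            (ν (Sum.inr (i + 1, z)))) = Multiset.replicate (i + 1)
              (Sum.inl (((p ^ a : ℕ) : W.K) / ν (Sum.inr (i + 1, z)))) := by
          rw [LB, Multiset.map_replicate]
          rfl
        rw [h2]
        exact h1)
  have hsum := D.pos_add hM1 hUT hM2 hUP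
  have hPos : D.Pos isA T := by
    refine D.pos_cancel_sum' (fun l : W.K ⊕ ℕ × W.K => LA (Multiset.replicate (dgL l) (ν l)) +
      LB (p ^ a) (Multiset.replicate (dgL l) (ν l))) T ?_ fun l hl => ?_
    · rw [LA_UU, Multiset.sum_map_add] at hsum
      rw [Multiset.sum_map_add]
      have h1 : (T.map fun l => ({l} : Multiset (W.K ⊕ ℕ × W.K))).sum = T := by
        rw [sum_sing (fun l : W.K ⊕ ℕ × W.K => l), Multiset.map_id']
      rw [h1] at hsum
      convert hsum using 1
      abel
    · by_cases h0 : dgL l = 0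
      · left
        rw [h0]
        rfl
      · right
        have hW : ∀ z ∈ Multiset.replicate (dgL l) (ν l), IsWeilNumber (p ^ a) 1 z := by
          intro z hz
          rw [Multiset.eq_of_mem_replicate hz]
          exact (hν l hl).1
        obtain ⟨h1, h2⟩ := D.pos_pairs hpair hW
        refine D.ex_of_pos ?_ h1 ?_ h2
        · intro h3
          have h4 := congrArg Multiset.card h3
          rw [Multiset.card_add, LA, Multiset.card_map, Multiset.card_replicate,
            Multiset.card_zero] at h4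
          omega
        · intro l' hl'
          rcases Multiset.mem_add.1 hl' with h3 | h3
          · obtain ⟨z, hz, rfl⟩ := Multiset.mem_map.1 h3
            exact hocc z (hW z hz)
          · obtain ⟨z, hz, rfl⟩ := Multiset.mem_map.1 h3
            exact hocc _ (weil_conj hq (hW z hz))
  exact hPos n c lab (fun i => ⟨(hok i).1, (hok i).2, fun z hz => absurd hz (hinr i z)⟩) rfl

/-- **Positivity on all algebraic classes.** -/
theorem pos_all (n : ℕ) (c : Fin (n + 1) → ι) :
    PosOn W (nest ops n fun i => Pf (c i)).X (nest ops n fun i => Pf (c i)).D (D.g c) :=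
  D.posOn fun _ hok hinr hT => D.nn_all hκ he hAV hocc hpair hgen hμ hmix hok hinr hT

end Dat

end Pool.Agent.Q56.HP
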