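import Pool.Agent.Q56.HP.Abel

/-!
# Positivity from the conjecture of Hodge type
-/

set_option autoImplicit false
set_option linter.unusedSectionVars false

open CategoryTheory AlgebraicGeometry

universe u v w

namespace Pool.Agent.Q56.HP

open Pool.Agent.H914 Pool.Agent.H914.VarClass Pool.Agent.H914.VarClass.Obj
  Pool.Agent.H914.WeilCohomology Pool.Agent.H281R3.HT Pool.Agent.W552
  Pool.Agent.W458.MF Pool.Agent.Q56.CT Pool.Agent.Q56.CTS Pool.Agent.Q56.FE Pool.Agent.Q56.FH
open Pool.Agent.Q56.FR (fr)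

variable {k : Type u} [Field k] {𝒱 : VarClass k} {ops : CycleOps 𝒱}
  {W : WeilCohomology.{u, v} ops}

section VD

variable {n : ℕ} {P : Fin (n + 1) → Polarized 𝒱} {δ : Fin (n + 1) → ℕ}

/-- The span of the products of classes of the given degrees. -/
noncomputable def DG (W : WeilCohomology.{u, v} ops) {n : ℕ} (P : Fin (n + 1) → Polarized 𝒱)
    (δ : Fin (n + 1) → ℕ) : Submodule W.K (W.H (nest ops n P).X) :=
  Submodule.span W.K {z | ∃ x : ∀ i, W.H (P i).X, (∀ i, x i ∈ W.gr (P i).X (δ i)) ∧ z = nw W P x}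

/-- The span of the products of primitive classes of the given degrees. -/
noncomputable def VD (W : WeilCohomology.{u, v} ops) {n : ℕ} (P : Fin (n + 1) → Polarized 𝒱)
    (δ : Fin (n + 1) → ℕ) : Submodule W.K (W.H (nest ops n P).X) :=
  Submodule.span W.K {z | ∃ x : ∀ i, W.H (P i).X, (∀ i, x i ∈ W.gr (P i).X (δ i) ∧
    ((LinearMap.mulLeft W.K (W.cl (P i).X (P i).D)) ^ ((P i).X.dim - δ i + 1)) (x i) = 0) ∧
      z = nw W P x}

lemma VD_le_DG : VD W P δ ≤ DG W P δ := by
  refine Submodule.span_mono ?_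
  rintro z ⟨x, hx, rfl⟩
  exact ⟨x, fun i => (hx i).1, rfl⟩

lemma DG_gr {z : W.H (nest ops n P).X} (hz : z ∈ DG W P δ) :
    z ∈ W.gr (nest ops n P).X (∑ i, δ i) := by
  refine (Submodule.span_le (p := W.gr (nest ops n P).X (∑ i, δ i))).2 ?_ hz
  rintro z ⟨x, hx, rfl⟩
  have h1 := wd_mem (W := W) (prj ops n P) (δ := δ) hx (List.finRange (n + 1))
  rwa [← Fin.sum_univ_def] at h1

lemma opN_aop {T : ∀ i, Module.End W.K (W.H (P i).X)} (h : ∀ i, AOp W (P i).X (P i).X (T i)) :
    AOp W (nest ops n P).X (nest ops n P).X (opN W P T) := by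
  induction n with
  | zero => exact h 0
  | succ n ih => exact (h 0).ext (ih (P := fun i => P i.succ) fun i => h i.succ)

end VD

section Prm

variable {P : Polarized 𝒱} {f Φ : Module.End W.K (W.H P.X)}

lemma prm_mem (l : Loc W P f Φ) (i : ℕ) (x : W.H P.X) :
    prm (W.isInternal P.X) (LinearMap.mulLeft W.K (W.cl P.X P.D)) Φ i x ∈ W.gr P.X i ∧
      ((LinearMap.mulLeft W.K (W.cl P.X P.D)) ^ (P.X.dim - i + 1))
        (prm (W.isInternal P.X) (LinearMap.mulLeft W.K (W.cl P.X P.D)) Φ i x) = 0 := by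
  set L : Module.End W.K (W.H P.X) := LinearMap.mulLeft W.K (W.cl P.X P.D) with hL
  set R := prm (W.isInternal P.X) L Φ i with hR
  refine lef_induction' (W.isInternal P.X) l.t.hL l.t.hbd l.t.hHL
    (p := fun x => R x ∈ W.gr P.X i ∧ (L ^ (P.X.dim - i + 1)) (R x) = 0) ?_ ?_ x
  · rintro x y ⟨h1, h2⟩ ⟨h1', h2'⟩
    rw [map_add]
    exact ⟨Submodule.add_mem _ h1 h1', by rw [map_add, h2, h2', add_zero]⟩
  · intro i' hi y hy hp j
    by_cases hj : P.X.dim - i' < j
    · rw [L_pow_gt hp hj, map_zero, map_zero]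
      exact ⟨Submodule.zero_mem _, rfl⟩
    · rw [hR, prm_apply l.t l.hΦ hi hy hp (by omega)]
      split_ifs with h1
      · rw [h1.1]; exact ⟨hy, hp⟩
      · rw [map_zero]; exact ⟨Submodule.zero_mem _, rfl⟩

lemma prm_self (l : Loc W P f Φ) {i : ℕ} (hi : i ≤ P.X.dim) {x : W.H P.X} (hx : x ∈ W.gr P.X i)
    (hp : ((LinearMap.mulLeft W.K (W.cl P.X P.D)) ^ (P.X.dim - i + 1)) x = 0) :
    prm (W.isInternal P.X) (LinearMap.mulLeft W.K (W.cl P.X P.D)) Φ i x = x := by
  have h1 := prm_apply l.t l.hΦ hi hx hp (Nat.zero_le _) i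
  rw [pow_zero, Module.End.one_apply, if_pos ⟨rfl, rfl⟩] at h1
  exact h1

end Prm

variable [IsAlgClosed W.K] {σ : An W.K →ₐ[ℚ] ℂ}
  {p : ℕ} [Fact p.Prime] {a : ℕ} {F : FrobeniusOver W (p ^ a)}
  {ι : Type w} {Pf : ι → Polarized 𝒱} {f Φ : ∀ i, Module.End W.K (W.H (Pf i).X)}
  {isA : ι → Prop}

lemma VV_le_VD {n : ℕ} {P : Fin (n + 1) → Polarized 𝒱} {lab : Fin (n + 1) → W.K ⊕ ℕ × W.K} :
    VV F P lab ≤ VD W P fun i => dgL (lab i) := by
  refine Submodule.span_mono ?_
  rintro z ⟨x, hx, rfl⟩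
  exact ⟨x, fun i => ⟨(hx i).1, (hx i).2.2⟩, rfl⟩

namespace Dat

variable (D : Dat F σ Pf f Φ) {n : ℕ} {c : Fin (n + 1) → ι} {lab : Fin (n + 1) → W.K ⊕ ℕ × W.K}

/-- **Positivity on a word from positivity on the algebraic classes.** -/
theorem nn_of_rat (hok : OkW Pf (p ^ a) c lab)
    (H : ∀ x, AS W _ x → x ∈ VD W (fun i => Pf (c i)) (fun i => dgL (lab i)) → x ≠ 0 →
      ∃ r : ℚ, 0 < r ∧ D.B c x x = r) : D.NN c lab := by
  let P : Fin (n + 1) → Polarized 𝒱 := fun i => Pf (c i)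
  set δ : Fin (n + 1) → ℕ := fun i => dgL (lab i) with hδ
  set R : ∀ i, Module.End W.K (W.H (P i).X) := fun i =>
    prm (W.isInternal (P i).X) (LinearMap.mulLeft W.K (W.cl (P i).X (P i).D)) (Φ (c i)) (δ i)
    with hR
  have hRa : AOp W (nest ops n P).X (nest ops n P).X (opN W P R) :=
    opN_aop fun i => (D.loc (c i)).aprm _
  have hRV : ∀ x, opN W P R x ∈ VD W P δ := by
    intro x
    have h := nest_span (W := W) (ops := ops) (P := P) (S := fun _ => Set.univ)
      (fun i y => Submodule.subset_span (Set.mem_univ y)) x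
    induction h using Submodule.span_induction with
    | mem z hz =>
      obtain ⟨x, -, rfl⟩ := hz
      rw [opN_nw]
      exact Submodule.subset_span ⟨_, fun i => prm_mem (D.loc (c i)) (δ i) (x i), rfl⟩
    | zero => rw [map_zero]; exact Submodule.zero_mem _
    | add x y _ _ hx hy => rw [map_add]; exact Submodule.add_mem _ hx hy
    | smul c x _ hx => rw [map_smul]; exact Submodule.smul_mem _ _ hx
  have hRs : ∀ x ∈ VD W P δ, opN W P R x = x := by
    intro x hx
    unfold VD at hx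
    induction hx using Submodule.span_induction with
    | mem z hz =>
      obtain ⟨x, hx, rfl⟩ := hz
      rw [opN_nw]
      congr 1
      funext i
      exact prm_self (D.loc (c i)) (hok i).1 (hx i).1 (hx i).2
    | zero => rw [map_zero]
    | add x y _ _ hx hy => rw [map_add, hx, hy]
    | smul c x _ hx => rw [map_smul, hx]
  let M : W.H (nest ops n P).X → Prop := fun x => AS W _ x ∧ x ∈ VD W P δ
  have hM : RatSub W.K M :=
    ⟨⟨AS.zero, Submodule.zero_mem _⟩, fun h h' => ⟨h.1.add h'.1, Submodule.add_mem _ h.2 h'.2⟩,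
      fun r _ h => ⟨h.1.smul r, Submodule.smul_mem _ _ h.2⟩⟩
  obtain ⟨N, e, w, he, hw, horth, hspan⟩ := exists_ratBasis hM (D.B c)
    (fun x y hx hy => (D.Fr c).bf_rat hx.1 hy.1)
    (fun x y hx hy => bf_symm_AS (D.Sy c) hy.1) (fun x hx hx0 => H x hx.1 hx.2 hx0)
  have hsp : ∀ x, x ∈ VD W P δ → x ∈ algSpan W (nest ops n P).X →
      x ∈ Submodule.span W.K (Set.range e) := by
    intro x hxV hx
    rw [← hRs x hxV]
    have h1 := algSpan_le_AS hx
    clear hxV hx
    induction h1 using Submodule.span_induction with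
    | mem z hz =>
      have h2 : M (opN W P R z) := ⟨hRa.apply hz, hRV z⟩
      obtain ⟨r, hr⟩ := hspan _ (Submodule.subset_span h2) fun i =>
        (D.Fr c).bf_rat h2.1 (he i).1
      rw [hr]
      exact Submodule.sum_mem _ fun i _ => Submodule.smul_mem _ _
        (Submodule.subset_span ⟨i, rfl⟩)
    | zero => rw [map_zero]; exact Submodule.zero_mem _
    | add x y _ _ hx hy => rw [map_add]; exact Submodule.add_mem _ hx hy
    | smul c x _ hx => rw [map_smul]; exact Submodule.smul_mem _ _ hx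
  have hδ' : (fun i => dgL (cb (p ^ a) (lab i))) = δ := funext fun i => dg_cb _
  intro z z' hz hne
  refine pos_of_orth (M := fun _ _ => True) (ε := e) (ε' := e)
    ⟨fun _ => trivial, fun i j hij => by rw [horth, if_neg hij], fun i => ?_, fun i j => ?_⟩
    (hsp z (VV_le_VD hz.2.1) hz.1.mem_span) (hsp z' ?_ hz.1.symm.mem_span) (fun i => ?_) hne
  · rw [horth, if_pos rfl]
    exact PosK.rat (hw i)
  · rw [horth, horth]
    by_cases hij : i = j
    · rw [if_pos hij, if_pos hij.symm, hij]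
    · rw [if_neg hij, if_neg (Ne.symm hij)]
  · have h1 := VV_le_VD hz.2.2
    rwa [hδ'] at h1
  · exact hz.1.val (fun _ _ hz hw => (D.Fr c).bf_rat hz hw) (Cj.of (he i).1)

/-- **The conjecture of Hodge type gives positivity on the products of primitive classes.** -/
theorem rat_of_hodge {δ : Fin (n + 1) → ℕ} (hδ : ∀ i, δ i ≤ (Pf (c i)).X.dim)
    {M : Submodule W.K (W.H (nest ops n fun i => Pf (c i)).X)}
    (hH : HodgeTypeOn W (nest ops n fun i => Pf (c i)).X (nest ops n fun i => Pf (c i)).D M)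
    (hM : VD W (fun i => Pf (c i)) δ ≤ M) {x : W.H (nest ops n fun i => Pf (c i)).X}
    (hx : AS W _ x) (hxV : x ∈ VD W (fun i => Pf (c i)) δ) (hx0 : x ≠ 0) :
    ∃ r : ℚ, 0 < r ∧ D.B c x x = r := by
  have hgr := DG_gr (VD_le_DG hxV)
  have heven : Even (∑ i, δ i) := by
    by_contra hodd
    rw [Nat.not_even_iff_odd] at hodd
    have h1 := par_AS hx
    rw [H914.par, scal_apply _ _ hgr, hodd.neg_one_pow, neg_one_smul] at h1
    have h2 : (2 : W.K) • x = 0 := by
      rw [two_smul]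
      nth_rewrite 1 [← h1]
      exact neg_add_cancel x
    exact hx0 ((smul_eq_zero.1 h2).resolve_left two_ne_zero)
  obtain ⟨j, hj⟩ := heven
  rw [← two_mul] at hj
  rw [hj] at hgr
  obtain ⟨z, hz, rfl⟩ := hx.alg hgr
  have hg : D.g c (W.cl _ z) = 0 := by
    have h1 := hxV
    generalize W.cl (nest ops n fun i => Pf (c i)).X z = y at h1
    unfold VD at h1
    induction h1 using Submodule.span_induction with
    | mem z hz =>
      obtain ⟨x, hx, rfl⟩ := hz
      exact D.g_nw c fun i => ((D.loc (c i)).t.low (hδ i) (hx i).1 (hx i).2).1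
    | zero => rw [map_zero]
    | add x y _ _ hx hy => rw [map_add, hx, hy, add_zero]
    | smul c x _ hx => rw [map_smul, hx, smul_zero]
  have hwt : wt (W.isInternal (nest ops n fun i => Pf (c i)).X)
      (nest ops n fun i => Pf (c i)).X.dim (W.cl _ z) =
      -(((nest ops n fun i => Pf (c i)).X.dim : W.K) - (2 * j : ℕ)) • W.cl _ z := by
    rw [Fr.wt_gr hgr, neg_sub]
  have hdim : 2 * j ≤ (nest ops n fun i => Pf (c i)).X.dim := by
    obtain ⟨m, hm, -, -⟩ := Sl2.exists_nat (D.Fr c).sl2 hg hwt hx0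
    have h1 : ((nest ops n fun i => Pf (c i)).X.dim : W.K) = ((m + 2 * j : ℕ) : W.K) := by
      rw [Nat.cast_add, ← hm]
      ring
    have h2 : (nest ops n fun i => Pf (c i)).X.dim = m + 2 * j := by exact_mod_cast h1
    omega
  have hprim : W.cl _ (divPow ops (nest ops n fun i => Pf (c i)).D
      ((nest ops n fun i => Pf (c i)).X.dim - 2 * j + 1) z) = 0 := by
    rw [cl_divPow]
    refine Sl2.e_pow_zero (D.Fr c).sl2 (m := (nest ops n fun i => Pf (c i)).X.dim - 2 * j) hg ?_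
      (Nat.lt_succ_self _)
    rw [hwt]
    congr 2
    rw [Nat.cast_sub hdim]
  have h1 := hH j hdim z hz (hM hxV) hprim hx0
  refine ⟨_, ?_, (D.Fr c).form_prim hdim hz hprim⟩
  have h2 : (0 : ℚ) < (((nest ops n fun i => Pf (c i)).X.dim - 2 * j).factorial : ℚ)⁻¹ :=
    inv_pos.2 (by exact_mod_cast Nat.factorial_pos _)
  have h3 := mul_pos h2 h1
  calc (0 : ℚ) < _ := h3
    _ = _ := by ring

end Dat

end Pool.Agent.Q56.HP
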