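import Pool.Agent.Q56.HP.Herm
import Pool.Agent.Q56.FH.Frob
import Pool.Agent.W552.TautFr
import Pool.Agent.W552.TautOps
import Pool.Agent.H914R2.GFrob

/-!
# Complex conjugation on the algebraic classes
-/

set_option autoImplicit false
set_option linter.unusedSectionVars false

open CategoryTheory AlgebraicGeometry

universe u v w

namespace Pool.Agent.Q56.HP

open Pool.Agent.H914 Pool.Agent.H914.VarClass Pool.Agent.H914.VarClass.Obj
  Pool.Agent.H914.WeilCohomology Pool.Agent.H281R3.HT Pool.Agent.W552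
  Pool.Agent.Q56.CT

variable {k : Type u} [Field k] {𝒱 : VarClass k} {ops : CycleOps 𝒱}
  {W : WeilCohomology.{u, v} ops} [IsAlgClosed W.K] (σ : An W.K →ₐ[ℚ] ℂ) {X Y Z : 𝒱.Obj}

/-- The pairs `(∑ a z, ∑ a' z)`, with algebraic numbers `a`, their conjugates `a'` and sums `z` of
algebraic classes. -/
def Cj (X : 𝒱.Obj) (x x' : W.H X) : Prop :=
  (x, x') ∈ AddSubmonoid.closure {p : W.H X × W.H X | ∃ (a : An W.K) (z : W.H X), AS W X z ∧
    p = ((a : W.K) • z, ((cj σ a : An W.K) : W.K) • z)}

namespace Cj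

variable {σ} {x x' y y' : W.H X}

lemma ind {p : W.H X → W.H X → Prop}
    (h1 : ∀ (a : An W.K) (z : W.H X), AS W X z →
      p ((a : W.K) • z) (((cj σ a : An W.K) : W.K) • z))
    (h2 : ∀ x x' y y', p x x' → p y y' → p (x + y) (x' + y')) (h : Cj σ X x x') : p x x' := by
  have key : ∀ q : W.H X × W.H X, q ∈ AddSubmonoid.closure {p : W.H X × W.H X |
      ∃ (a : An W.K) (z : W.H X), AS W X z ∧
        p = ((a : W.K) • z, ((cj σ a : An W.K) : W.K) • z)} → p q.1 q.2 := by
    intro q hq
    induction hq using AddSubmonoid.closure_induction with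
    | mem q hq =>
      obtain ⟨a, z, hz, rfl⟩ := hq
      exact h1 a z hz
    | zero =>
      have := h1 0 0 AS.zero
      rw [smul_zero, smul_zero] at this
      exact this
    | add q r _ _ hq hr => exact h2 _ _ _ _ hq hr
  exact key _ h

lemma mk (a : An W.K) {z : W.H X} (hz : AS W X z) :
    Cj σ X ((a : W.K) • z) (((cj σ a : An W.K) : W.K) • z) :=
  AddSubmonoid.subset_closure ⟨a, z, hz, rfl⟩

lemma of {z : W.H X} (hz : AS W X z) : Cj σ X z z := by
  have := mk (σ := σ) 1 hz
  rw [map_one] at this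
  have h1 : ((1 : An W.K) : W.K) = 1 := rfl
  rwa [h1, one_smul] at this

lemma zero : Cj σ X (0 : W.H X) 0 := of AS.zero

lemma add (h : Cj σ X x x') (h' : Cj σ X y y') : Cj σ X (x + y) (x' + y') :=
  AddSubmonoid.add_mem _ h h'

lemma smul (a : An W.K) (h : Cj σ X x x') :
    Cj σ X ((a : W.K) • x) (((cj σ a : An W.K) : W.K) • x') := by
  refine ind (p := fun x x' => Cj σ X ((a : W.K) • x) (((cj σ a : An W.K) : W.K) • x')) ?_ ?_ h
  · intro b z hz
    rw [smul_smul, smul_smul]
    have h1 : ((a : An W.K) : W.K) * ((b : An W.K) : W.K) = ((a * b : An W.K) : W.K) := rfl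
    have h2 : ((cj σ a : An W.K) : W.K) * ((cj σ b : An W.K) : W.K) =
        ((cj σ (a * b) : An W.K) : W.K) := by rw [map_mul]; rfl
    rw [h1, h2]
    exact mk _ hz
  · intro x x' y y' hx hy
    rw [smul_add, smul_add]
    exact hx.add hy

lemma symm (h : Cj σ X x x') : Cj σ X x' x := by
  refine ind (p := fun x x' => Cj σ X x' x) ?_ (fun x x' y y' hx hy => hx.add hy) h
  intro a z hz
  have h1 := mk (σ := σ) (cj σ a) hz
  rwa [cj_cj] at h1

lemma lin {T : W.H X →ₗ[W.K] W.H Y} (hT : ∀ z, AS W X z → AS W Y (T z)) (h : Cj σ X x x') :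
    Cj σ Y (T x) (T x') := by
  refine ind (p := fun x x' => Cj σ Y (T x) (T x')) ?_ ?_ h
  · intro a z hz
    rw [map_smul, map_smul]
    exact mk _ (hT z hz)
  · intro x x' y y' hx hy
    rw [map_add, map_add]
    exact hx.add hy

lemma map (g : Y ⟶ X) (h : Cj σ X x x') : Cj σ Y (W.map g x) (W.map g x') :=
  h.lin (T := (W.map g).toLinearMap) fun _ hz => hz.map g

lemma bilin {μ : W.H X →ₗ[W.K] W.H Y →ₗ[W.K] W.H Z}
    (hμ : ∀ z w, AS W X z → AS W Y w → AS W Z (μ z w)) (h : Cj σ X x x') {y y' : W.H Y}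
    (h' : Cj σ Y y y') : Cj σ Z (μ x y) (μ x' y') := by
  refine ind (p := fun x x' => Cj σ Z (μ x y) (μ x' y')) ?_ ?_ h
  · intro a z hz
    rw [map_smul, map_smul, LinearMap.smul_apply, LinearMap.smul_apply]
    exact (h'.lin (T := μ z) fun w hw => hμ z w hz hw).smul a
  · intro x x' u u' hx hu
    rw [map_add, map_add, LinearMap.add_apply, LinearMap.add_apply]
    exact hx.add hu

/-- The values of a rational form. -/
lemma val {β : W.H X →ₗ[W.K] W.H X →ₗ[W.K] W.K}
    (hβ : ∀ z w, AS W X z → AS W X w → ∃ r : ℚ, β z w = r) (h : Cj σ X x x')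
    (h' : Cj σ X y y') : ∃ t : An W.K, β x y = t ∧ β x' y' = (cj σ t : An W.K) := by
  refine ind (p := fun x x' => ∃ t : An W.K, β x y = t ∧ β x' y' = (cj σ t : An W.K)) ?_ ?_ h
  · intro a z hz
    refine ind (p := fun y y' => ∃ t : An W.K, β ((a : W.K) • z) y = t ∧
      β (((cj σ a : An W.K) : W.K) • z) y' = (cj σ t : An W.K)) ?_ ?_ h'
    · intro b w hw
      obtain ⟨r, hr⟩ := hβ z w hz hw
      refine ⟨a * b * (r : An W.K), ?_, ?_⟩
      · rw [map_smul, map_smul, LinearMap.smul_apply, hr, smul_eq_mul, smul_eq_mul]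
        push_cast
        ring
      · rw [map_smul, map_smul, LinearMap.smul_apply, hr, smul_eq_mul, smul_eq_mul, map_mul,
          map_mul, cj_rat]
        push_cast
        ring
    · rintro u u' v v' ⟨t, ht, ht'⟩ ⟨s, hs, hs'⟩
      refine ⟨t + s, ?_, ?_⟩
      · rw [map_add, ht, hs]; push_cast; rfl
      · rw [map_add, map_add, ht', hs']; push_cast; rfl
  · rintro u u' v v' ⟨t, ht, ht'⟩ ⟨s, hs, hs'⟩
    refine ⟨t + s, ?_, ?_⟩
    · rw [map_add, LinearMap.add_apply, ht, hs]; push_cast; rfl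
    · rw [map_add, map_add, LinearMap.add_apply, ht', hs']; push_cast; rfl

/-- The algebraic classes span. -/
lemma mem_span (h : Cj σ X x x') : x ∈ algSpan W X := by
  refine ind (p := fun x _ => x ∈ algSpan W X) ?_ (fun x x' y y' hx hy =>
    Submodule.add_mem _ hx hy) h
  intro a z hz
  refine Submodule.smul_mem _ _ ?_
  exact AS.ind (p := fun z => z ∈ algSpan W X)
    (fun j z hz => Submodule.subset_span (Set.mem_iUnion.2 ⟨j, hz⟩))
    (fun x y hx hy => Submodule.add_mem _ hx hy) hz

end Cj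

/-- algebraic operators with algebraic coefficients, and their conjugates -/
def OpP (X : 𝒱.Obj) (T T' : Module.End W.K (W.H X)) : Prop :=
  (T, T') ∈ AddSubmonoid.closure {p : Module.End W.K (W.H X) × Module.End W.K (W.H X) |
    ∃ (a : An W.K) (A : Module.End W.K (W.H X)), AOp W X X A ∧
      p = ((a : W.K) • A, ((cj σ a : An W.K) : W.K) • A)}

namespace OpP

variable {σ} {T T' S S' : Module.End W.K (W.H X)}

lemma ind {p : Module.End W.K (W.H X) → Module.End W.K (W.H X) → Prop}
    (h1 : ∀ (a : An W.K) (A : Module.End W.K (W.H X)), AOp W X X A →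
      p ((a : W.K) • A) (((cj σ a : An W.K) : W.K) • A))
    (h2 : ∀ T T' S S', p T T' → p S S' → p (T + S) (T' + S')) (h : OpP σ X T T') : p T T' := by
  have key : ∀ q : Module.End W.K (W.H X) × Module.End W.K (W.H X), q ∈ AddSubmonoid.closure
      {p : Module.End W.K (W.H X) × Module.End W.K (W.H X) |
      ∃ (a : An W.K) (A : Module.End W.K (W.H X)), AOp W X X A ∧
        p = ((a : W.K) • A, ((cj σ a : An W.K) : W.K) • A)} → p q.1 q.2 := by
    intro q hq
    induction hq using AddSubmonoid.closure_induction with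
    | mem q hq =>
      obtain ⟨a, z, hz, rfl⟩ := hq
      exact h1 a z hz
    | zero =>
      have := h1 0 0 AOp.zero
      rw [smul_zero, smul_zero] at this
      exact this
    | add q r _ _ hq hr => exact h2 _ _ _ _ hq hr
  exact key _ h

lemma mk (a : An W.K) {A : Module.End W.K (W.H X)} (hA : AOp W X X A) :
    OpP σ X ((a : W.K) • A) (((cj σ a : An W.K) : W.K) • A) :=
  AddSubmonoid.subset_closure ⟨a, A, hA, rfl⟩

lemma of {A : Module.End W.K (W.H X)} (hA : AOp W X X A) : OpP σ X A A := by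
  have := mk (σ := σ) 1 hA
  rw [map_one] at this
  have h1 : ((1 : An W.K) : W.K) = 1 := rfl
  rwa [h1, one_smul] at this

lemma zero : OpP σ X (0 : Module.End W.K (W.H X)) 0 := of AOp.zero

lemma one : OpP σ X (1 : Module.End W.K (W.H X)) 1 := of AOp.one

lemma add (h : OpP σ X T T') (h' : OpP σ X S S') : OpP σ X (T + S) (T' + S') :=
  AddSubmonoid.add_mem _ h h'

lemma smul (a : An W.K) (h : OpP σ X T T') :
    OpP σ X ((a : W.K) • T) (((cj σ a : An W.K) : W.K) • T') := by
  refine ind (p := fun x x' => OpP σ X ((a : W.K) • x) (((cj σ a : An W.K) : W.K) • x')) ?_ ?_ h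
  · intro b z hz
    rw [smul_smul, smul_smul]
    have h1 : ((a : An W.K) : W.K) * ((b : An W.K) : W.K) = ((a * b : An W.K) : W.K) := rfl
    have h2 : ((cj σ a : An W.K) : W.K) * ((cj σ b : An W.K) : W.K) =
        ((cj σ (a * b) : An W.K) : W.K) := by rw [map_mul]; rfl
    rw [h1, h2]
    exact mk _ hz
  · intro x x' y y' hx hy
    rw [smul_add, smul_add]
    exact hx.add hy

lemma mul (h : OpP σ X T T') (h' : OpP σ X S S') : OpP σ X (T * S) (T' * S') := by
  refine ind (p := fun T T' => OpP σ X (T * S) (T' * S')) ?_ ?_ h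
  · intro a A hA
    refine ind (p := fun S S' => OpP σ X ((a : W.K) • A * S)
      (((cj σ a : An W.K) : W.K) • A * S')) ?_ ?_ h'
    · intro b B hB
      rw [smul_mul_smul_comm, smul_mul_smul_comm]
      have h1 : ((a : An W.K) : W.K) * ((b : An W.K) : W.K) = ((a * b : An W.K) : W.K) := rfl
      have h2 : ((cj σ a : An W.K) : W.K) * ((cj σ b : An W.K) : W.K) =
          ((cj σ (a * b) : An W.K) : W.K) := by rw [map_mul]; rfl
      rw [h1, h2]
      exact mk _ (hA.mul hB)
    · intro x x' y y' hx hy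
      rw [mul_add, mul_add]
      exact hx.add hy
  · intro x x' y y' hx hy
    rw [add_mul, add_mul]
    exact hx.add hy

lemma apply (h : OpP σ X T T') {x x' : W.H X} (hx : Cj σ X x x') : Cj σ X (T x) (T' x') := by
  refine ind (p := fun T T' => Cj σ X (T x) (T' x')) ?_ ?_ h
  · intro a A hA
    exact (hx.lin (T := A) fun z hz => hA.apply hz).smul a
  · intro T T' S S' hT hS
    exact hT.add hS

lemma sum {ι : Type*} (s : Finset ι) {T T' : ι → Module.End W.K (W.H X)}
    (h : ∀ i ∈ s, OpP σ X (T i) (T' i)) : OpP σ X (∑ i ∈ s, T i) (∑ i ∈ s, T' i) := by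
  classical
  induction s using Finset.induction_on with
  | empty => rw [Finset.sum_empty, Finset.sum_empty]; exact zero
  | insert a s ha ih =>
    rw [Finset.sum_insert ha, Finset.sum_insert ha]
    exact (h a (Finset.mem_insert_self _ _)).add (ih fun i hi => h i (Finset.mem_insert_of_mem hi))

lemma listProd {T T' : An W.K → Module.End W.K (W.H X)} (h : ∀ a, OpP σ X (T a) (T' a)) :
    ∀ l : List (An W.K), OpP σ X (l.map T).prod (l.map T').prod
  | [] => one
  | a :: l => by
    rw [List.map_cons, List.map_cons, List.prod_cons, List.prod_cons]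
    exact (h a).mul (listProd h l)

lemma ext {U U' : Module.End W.K (W.H Y)} (h : OpP σ X T T') (h' : OpP σ Y U U') :
    OpP σ (X.prod Y) (extOp W T U) (extOp W T' U') := by
  have hsm : ∀ (a b : W.K) (A : Module.End W.K (W.H X)) (B : Module.End W.K (W.H Y)),
      extOp W (a • A) (b • B) = (a * b) • extOp W A B := by
    intro a b A B
    apply ext_kunneth_lin
    intro x y
    rw [extOp_tmul, LinearMap.smul_apply, LinearMap.smul_apply, LinearMap.smul_apply, extOp_tmul,
      map_smul, map_smul, smul_mul_smul_comm]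
  refine ind (p := fun T T' => OpP σ (X.prod Y) (extOp W T U) (extOp W T' U')) ?_ ?_ h
  · intro a A hA
    refine ind (p := fun U U' => OpP σ (X.prod Y) (extOp W ((a : W.K) • A) U)
      (extOp W (((cj σ a : An W.K) : W.K) • A) U')) ?_ ?_ h'
    · intro b B hB
      rw [hsm, hsm]
      have h1 : ((a : An W.K) : W.K) * ((b : An W.K) : W.K) = ((a * b : An W.K) : W.K) := rfl
      have h2 : ((cj σ a : An W.K) : W.K) * ((cj σ b : An W.K) : W.K) =
          ((cj σ (a * b) : An W.K) : W.K) := by rw [map_mul]; rfl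
      rw [h1, h2]
      exact mk _ (hA.ext hB)
    · intro x x' y y' hx hy
      rw [extOp_add_right, extOp_add_right]
      exact hx.add hy
  · intro x x' y y' hx hy
    rw [extOp_add_left, extOp_add_left]
    exact hx.add hy

end OpP

end Pool.Agent.Q56.HP
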