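import Pool.Agent.Q56.HP.All
import Pool.Agent.Q56.CT.SDefs

/-!
# The class of polarized abelian varieties
-/

set_option autoImplicit false
set_option linter.unusedSectionVars false

open CategoryTheory AlgebraicGeometry

universe u v w

namespace Pool.Agent.Q56.HP

open Pool.Agent.H914 Pool.Agent.H914.VarClass Pool.Agent.H914.VarClass.Obj
  Pool.Agent.H914.WeilCohomology Pool.Agent.H281R3.HT Pool.Agent.W552 Pool.Agent.W536.RR
  Pool.Agent.W458.MF Pool.Agent.Q56.CT Pool.Agent.Q56.CTS Pool.Agent.Q56.FE Pool.Agent.Q56.FH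
  Pool.Agent.Q56.HPS
open Pool.Agent.Q56.FR (fr gen_pull)

variable {k : Type u} [Field k] {𝒱 : VarClass k} {ops : CycleOps 𝒱}
  {W : WeilCohomology.{u, v} ops} [IsAlgClosed W.K]
  {p : ℕ} [Fact p.Prime] {a : ℕ} {F : FrobeniusOver W (p ^ a)} {X : 𝒱.Obj}

/-- **The strong Tate conjecture for `X × X` implies that Frobenius is semisimple on `X`.** -/
theorem semi_of_strong (hT : StrongTateAll F (X.prod X)) : SemiX F X := by
  intro i μ x hx hxg
  by_cases hx0 : x = 0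
  · rw [hx0, map_zero, smul_zero]
  have hq0 : ((p ^ a : ℕ) : W.K) ≠ 0 := by
    exact_mod_cast (pow_pos (Fact.out : p.Prime).pos a).ne'
  have hy : ∃ (i' : ℕ) (ν : W.K) (y : W.H X), y ∈ W.gr X i' ∧
      y ∈ (fr F X).maxGenEigenspace ν ∧ W.tr X (x * y) ≠ 0 := by
    by_contra hcon
    push Not at hcon
    apply hx0
    apply W.nondeg
    intro b
    refine gr_induction (W.isInternal X) (p := fun b => W.tr X (x * b) = 0) ?_ ?_ b
    · intro l b hb
      have hb' := gr_gen (F := F) hb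
      clear hb
      induction hb' using Submodule.span_induction with
      | mem y hy =>
        obtain ⟨h1, ν, h2⟩ := hy
        exact hcon l ν y h1 h2
      | zero => rw [mul_zero, map_zero]
      | add y z _ _ hy hz => rw [mul_add, map_add, hy, hz, add_zero]
      | smul c y _ hy => rw [mul_smul_comm, map_smul, hy, smul_zero]
    · intro b b' hb hb'
      rw [mul_add, map_add, hb, hb', add_zero]
  obtain ⟨i', ν, y, hy1, hy2, hy3⟩ := hy
  have hdeg : i + i' = 2 * X.dim := by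
    by_contra hne
    exact hy3 (W.tr_eq_zero (W.mul_mem hx hy1) hne)
  have htop : x * y ∈ W.gr X (2 * X.dim) := by
    rw [← hdeg]
    exact W.mul_mem hx hy1
  have hxy0 : x * y ≠ 0 := by
    intro h0
    rw [h0, map_zero] at hy3
    exact hy3 rfl
  have h1 : x * y ∈ (fr F X).maxGenEigenspace (μ * ν) := CT.gen_mul hxg hy2
  have h2 : x * y ∈ (fr F X).maxGenEigenspace (((p ^ a : ℕ) : W.K) ^ X.dim) :=
    eig_mem_gen (F.deg htop)
  have hμν := eq_of_mem_gen h1 h2 hxy0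
  have h3 : H281R3.HT.ext W x y ∈ (fr F (X.prod X)).maxGenEigenspace (μ * ν) :=
    CT.gen_mul (gen_pull (fst X X) hxg) (gen_pull (snd X X) hy2)
  have h4 : H281R3.HT.ext W x y ∈ W.gr (X.prod X) (2 * X.dim) := by
    rw [← hdeg]
    exact W.mul_mem (W.map_mem _ hx) (W.map_mem _ hy1)
  rw [hμν] at h3
  have h5 := (isTateClass_of_span (F := F) (hT X.dim ⟨h3, h4⟩)).2
  have h6 : H281R3.HT.ext W (W.map (F.Fr X) x) (W.map (F.Fr X) y) =
      H281R3.HT.ext W ((((p ^ a : ℕ) : W.K) ^ X.dim) • x) y := by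
    have e1 : H281R3.HT.ext W ((((p ^ a : ℕ) : W.K) ^ X.dim) • x) y =
        (((p ^ a : ℕ) : W.K) ^ X.dim) • H281R3.HT.ext W x y := by
      rw [H281R3.HT.ext, map_smul, smul_mul_assoc, H281R3.HT.ext]
    rw [e1, ← h5, H281R3.HT.ext, H281R3.HT.ext, map_mul, ← W.map_comp, ← W.map_comp,
      ← W.map_comp, ← W.map_comp, F.nat, F.nat]
  have hφ : ∃ φ : W.H X →ₗ[W.K] W.K, φ (W.map (F.Fr X) y) ≠ 0 := by
    by_contra hcon
    push Not at hcon
    have h7 := ext_eq h6 (W.tr X ∘ₗ LinearMap.mulLeft W.K x)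
    have h8 := hcon (W.tr X ∘ₗ LinearMap.mulLeft W.K x)
    rw [h8, zero_smul] at h7
    have h9 : (W.tr X ∘ₗ LinearMap.mulLeft W.K x) y ≠ 0 := hy3
    rcases smul_eq_zero.1 h7.symm with h10 | h10
    · exact h9 h10
    · rcases smul_eq_zero.1 h10 with h11 | h11
      · exact pow_ne_zero _ hq0 h11
      · exact hx0 h11
  obtain ⟨φ, hφ⟩ := hφ
  have h7 := ext_eq h6 φ
  have h8 : W.map (F.Fr X) x = ((φ (W.map (F.Fr X) y))⁻¹ * (φ y * ((p ^ a : ℕ) : W.K) ^ X.dim)) •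
      x := by
    rw [mul_smul, mul_smul, ← h7, smul_smul, inv_mul_cancel₀ hφ, one_smul]
  have h9 := eq_of_mem_gen (eig_mem_gen (T := fr F X) h8) hxg hx0
  rw [h9] at h8
  exact h8

/-- **The Riemann hypothesis in all degrees for abelian varieties.** -/
theorem riemann_all {A : 𝒱.Obj} (hg : Generates (W.gr A 1)) (hR : RiemannIn F A 1) (i : ℕ) :
    RiemannIn F A i := by
  intro α hα
  obtain ⟨x, hx, hx0, hxα⟩ := hα
  let S : ℕ → Set (W.H A) := fun i =>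
    {v | ∃ α : W.K, IsWeilNumber (p ^ a) i α ∧ v ∈ (fr F A).maxGenEigenspace α}
  have key : ∀ l : List (W.H A), (∀ b ∈ l, b ∈ W.gr A 1) →
      l.prod ∈ Submodule.span W.K (S l.length) := by
    intro l
    induction l with
    | nil =>
      intro _
      refine Submodule.subset_span ⟨1, ?_, eig_mem_gen (T := fr F A) ?_⟩
      · have h1 := weil_pow (weil_q (K := W.K) (p ^ a)) 0
        rwa [zero_mul, pow_zero] at h1
      · rw [List.prod_nil, one_smul]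
        exact map_one (W.map (F.Fr A))
    | cons b l ih =>
      intro h
      have h1 := ih fun b' hb' => h b' (List.mem_cons_of_mem _ hb')
      have h2 := gr_gen (F := F) (h b List.mem_cons_self)
      rw [List.prod_cons, List.length_cons]
      generalize l.prod = y at h1
      clear h ih
      induction h2 using Submodule.span_induction with
      | zero => rw [zero_mul]; exact Submodule.zero_mem _
      | add u v _ _ hu hv => rw [add_mul]; exact Submodule.add_mem _ hu hv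
      | smul c u _ hu => rw [smul_mul_assoc]; exact Submodule.smul_mem _ _ hu
      | mem u hu =>
        obtain ⟨hu1, μ, hu2⟩ := hu
        by_cases hu0 : u = 0
        · rw [hu0, zero_mul]
          exact Submodule.zero_mem _
        have hμ := hR μ (eigenvalue_of_gen hu1 hu2 hu0)
        induction h1 using Submodule.span_induction with
        | zero => rw [mul_zero]; exact Submodule.zero_mem _
        | add x y _ _ hx hy => rw [mul_add]; exact Submodule.add_mem _ hx hy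
        | smul c x _ hx => rw [mul_smul_comm]; exact Submodule.smul_mem _ _ hx
        | mem v hv =>
          obtain ⟨ν, hν, hv⟩ := hv
          refine Submodule.subset_span ⟨μ * ν, ?_, CT.gen_mul hu2 hv⟩
          rw [add_comm]
          exact weil_mul hμ hν
  have h1 : x ∈ Submodule.span W.K (S i) := by
    refine (Submodule.span_le (p := Submodule.span W.K (S i))).2 ?_ (gr_words hg hx)
    rintro y ⟨l, rfl, hl, rfl⟩
    exact key l hl
  have h2 := mem_span_gen (T := fr F A) (fun v hv => by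
    obtain ⟨α, -, h⟩ := hv
    exact ⟨α, h⟩) h1 (eig_mem_gen (T := fr F A) hxα)
  have h3 : ∃ v ∈ S i, v ∈ (fr F A).maxGenEigenspace α ∧ v ≠ 0 := by
    by_contra hcon
    push Not at hcon
    have h4 : {v | v ∈ S i ∧ v ∈ (fr F A).maxGenEigenspace α} ⊆ {0} := fun v hv =>
      hcon v hv.1 hv.2
    have h5 := Submodule.span_mono (R := W.K) h4 h2
    rw [Submodule.span_zero_singleton] at h5
    exact hx0 ((Submodule.mem_bot _).1 h5)
  obtain ⟨v, ⟨α', hα', hv'⟩, hv, hv0⟩ := h3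
  rwa [eq_of_mem_gen hv hv' hv0]

variable {𝒜 : Set 𝒱.Obj} {𝒮 𝒬 : Set (Polarized 𝒱)}

lemma nest_mem (hP : IsPolarizedClass W 𝒜 𝒮) {n : ℕ} {P : Fin (n + 1) → Polarized 𝒱}
    (h : ∀ i, P i ∈ 𝒮) : nest ops n P ∈ 𝒮 := by
  induction n with
  | zero => exact h 0
  | succ n ih => exact hP.prod _ (h 0) _ (ih fun i => h i.succ)

/-- the underlying varieties -/
def und (𝒬 : Set (Polarized 𝒱)) : Set 𝒱.Obj := {X | ∃ P ∈ 𝒬, P.X = X}

lemma SW_nest (hA : IsAbelianClass F 𝒜) (hP : IsPolarizedClass W 𝒜 𝒮)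
    (hQ : ∀ Y ∈ 𝒬, IsGoodPolarized W Y) {n : ℕ} {P : Fin (n + 1) → Polarized 𝒱}
    (h : ∀ i, P i ∈ 𝒮 ∪ 𝒬) : ∀ y : W.H (nest ops n P).X, y ∈ SW F 𝒜 (und 𝒬) (nest ops n P).X := by
  have h0 : ∀ P ∈ 𝒮 ∪ 𝒬, ∀ y : W.H P.X, y ∈ SW F 𝒜 (und 𝒬) P.X := by
    rintro P (h | h) y
    · exact SW_abelian hA (hP.mem P h) y
    · exact SW_member (show P.X ∈ und 𝒬 from ⟨P, h, rfl⟩) (hQ P h).1 (hQ P h).2.1 y
  induction n with
  | zero => exact h0 _ (h 0)
  | succ n ih => exact SW_prod (h0 _ (h 0)) (ih fun i => h i.succ)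

/-- **The strong Tate conjecture for all products.** -/
theorem tate_nest (ha : 0 < a) (hA : IsAbelianClass F 𝒜) (hP : IsPolarizedClass W 𝒜 𝒮)
    (hQ : ∀ Y ∈ 𝒬, IsGoodPolarized W Y ∧ ∀ i ≤ Y.X.dim, RiemannIn F Y.X i)
    (h1 : TateTwo F 𝒜) (h2 : ∀ Y ∈ 𝒬, ∀ P ∈ 𝒮, ∀ i, 1 ≤ i → i ≤ Y.X.dim → MixedTate F Y.X P.X i)
    {n : ℕ} {P : Fin (n + 1) → Polarized 𝒱} (h : ∀ i, P i ∈ 𝒮 ∪ 𝒬) :
    TC1 F ha (nest ops n P).X ≤ algSpan W (nest ops n P).X := by
  have R : Rules (p ^ a) (Alg F 𝒜 (und 𝒬)) := by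
    refine CT.rules hA (fun A hA' => (strong_iff_onto (hA.semi A hA') 2).2 (h1 A hA')) ?_
    rintro _ ⟨Y, hY, rfl⟩ A hA' i hi hi'
    obtain ⟨P, hP', rfl⟩ := hP.polarization A hA'
    exact h2 Y hY P hP' i hi hi'
  refine TC1_le ha hA ?_ R (SW_nest hA hP (fun Y hY => (hQ Y hY).1) h)
  rintro _ ⟨Y, hY, rfl⟩ i - hi
  exact (hQ Y hY).2 i hi

lemma good_of (hP : IsPolarizedClass W 𝒜 𝒮)
    (hQ : ∀ Y ∈ 𝒬, IsGoodPolarized W Y ∧ ∀ i ≤ Y.X.dim, RiemannIn F Y.X i) {P : Polarized 𝒱}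
    (h : P ∈ 𝒮 ∪ 𝒬) : IsGoodPolarized W P := by
  rcases h with h | h
  · exact hP.good P h
  · exact (hQ P h).1

lemma riemann_of (hA : IsAbelianClass F 𝒜) (hP : IsPolarizedClass W 𝒜 𝒮)
    (hQ : ∀ Y ∈ 𝒬, IsGoodPolarized W Y ∧ ∀ i ≤ Y.X.dim, RiemannIn F Y.X i) {P : Polarized 𝒱}
    (h : P ∈ 𝒮 ∪ 𝒬) : ∀ i ≤ P.X.dim, RiemannIn F P.X i := by
  rcases h with h | h
  · exact fun i _ => riemann_all (hA.gen _ (hP.mem P h)) (hA.riemann _ (hP.mem P h)) i
  · exact (hQ P h).2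

omit [IsAlgClosed W.K] in
lemma top_of {P : Polarized 𝒱} (h : IsGoodPolarized W P) : ∃ b : W.H P.X, W.tr P.X b ≠ 0 := by
  have hn := divPow_mem (ops := ops) h.1 P.X.dim P.X.V.fundCycle_mem
  rw [zero_add] at hn
  refine ⟨W.cl P.X (divPow ops P.D P.X.dim P.X.V.fundCycle), ?_⟩
  rw [W.tr_cl hn]
  exact_mod_cast h.2.2.ne'

/-- **The data.** -/
theorem exists_dat (σ : An W.K →ₐ[ℚ] ℂ) (ha : 0 < a) (hA : IsAbelianClass F 𝒜)
    (hP : IsPolarizedClass W 𝒜 𝒮)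
    (hQ : ∀ Y ∈ 𝒬, IsGoodPolarized W Y ∧ ∀ i ≤ Y.X.dim, RiemannIn F Y.X i)
    (h1 : TateTwo F 𝒜)
    (h2 : ∀ Y ∈ 𝒬, ∀ P ∈ 𝒮, ∀ i, 1 ≤ i → i ≤ Y.X.dim → MixedTate F Y.X P.X i) :
    ∃ f Φ : ∀ i : (𝒮 ∪ 𝒬 : Set (Polarized 𝒱)), Module.End W.K (W.H i.1.X),
      Dat F σ (fun i : (𝒮 ∪ 𝒬 : Set (Polarized 𝒱)) => i.1) f Φ := by
  have hq : p ^ a ≠ 0 := (pow_pos (Fact.out : p.Prime).pos a).ne'
  have hT : ∀ {n : ℕ} {P : Fin (n + 1) → Polarized 𝒱}, (∀ i, P i ∈ 𝒮 ∪ 𝒬) →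
      TC1 F ha (nest ops n P).X ≤ algSpan W (nest ops n P).X := fun h =>
    tate_nest ha hA hP hQ h1 h2 h
  have hTT : ∀ P ∈ 𝒮 ∪ 𝒬, StrongTateAll F (P.X.prod P.X) := fun P h =>
    (strong_iff1 (ha := ha) _).2 (hT (n := 1) (P := fun _ => P) fun _ => h)
  choose f Φ hl using fun i : (𝒮 ∪ 𝒬 : Set (Polarized 𝒱)) =>
    exists_loc (W := W) (P := i.1) (good_of (F := F) hP hQ i.2).1 (good_of (F := F) hP hQ i.2).2.1
      (lefschetzB_of_strong F hq (good_of (F := F) hP hQ i.2).1 (good_of (F := F) hP hQ i.2).2.1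
        (hTT i.1 i.2)) (top_of (good_of (F := F) hP hQ i.2))
  exact ⟨f, Φ, ha, hl, fun i => semi_of_strong (hTT i.1 i.2),
    fun i => exists_eigSet (riemann_of hA hP hQ i.2), fun n c => hT fun i => (c i).2⟩

end Pool.Agent.Q56.HP
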