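import Pool.Agent.Q56.HP.Span

/-!
# Positivity on the algebraic classes from positivity on the words
-/

set_option autoImplicit false
set_option linter.unusedSectionVars false

open CategoryTheory AlgebraicGeometry

universe u v w

namespace Pool.Agent.Q56.HP

open Pool.Agent.H914 Pool.Agent.H914.VarClass Pool.Agent.H914.VarClass.Obj
  Pool.Agent.H914.WeilCohomology Pool.Agent.H281R3.HT Pool.Agent.W552
  Pool.Agent.W458.MF Pool.Agent.Q56.CT Pool.Agent.Q56.CTS Pool.Agent.Q56.FE Pool.Agent.Q56.FH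
open Pool.Agent.Q56.FR (fr)

lemma PosK.rat_pos {K : Type*} [Field K] [CharZero K] {σ : An K →ₐ[ℚ] ℂ} {r : ℚ}
    (h : PosK σ (r : K)) : 0 < r := by
  obtain ⟨t, ht, s, hs, h'⟩ := h
  have h1 : t = (r : An K) := by
    apply Subtype.ext
    rw [← ht]
    push_cast
    rfl
  rw [h1, map_ratCast] at h'
  have h2 : ((r : ℝ) : ℂ) = (s : ℂ) := by rw [← h']; push_cast; rfl
  have h3 : (r : ℝ) = s := by exact_mod_cast h2
  have h4 : (0 : ℝ) < r := by rw [h3]; exact hs
  exact_mod_cast h4

variable {k : Type u} [Field k] {𝒱 : VarClass k} {ops : CycleOps 𝒱}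
  {W : WeilCohomology.{u, v} ops} [IsAlgClosed W.K] {σ : An W.K →ₐ[ℚ] ℂ}
  {p : ℕ} [Fact p.Prime] {a : ℕ} {F : FrobeniusOver W (p ^ a)}
  {ι : Type w} {Pf : ι → Polarized 𝒱} {f Φ : ∀ i, Module.End W.K (W.H (Pf i).X)}

namespace Dat

variable (D : Dat F σ Pf f Φ) {n : ℕ}

/-- **The decomposition of the form on a product.** -/
theorem dec (c : Fin (n + 1) → ι) : ∃ (κ : Type) (_ : Fintype κ)
    (T T' : κ → Module.End W.K (W.H (nest ops n fun i => Pf (c i)).X))
    (lab : κ → Fin (n + 1) → W.K ⊕ ℕ × W.K) (w : κ → ℚ), (∀ s, 0 < w s) ∧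
    (∀ s, OpP σ _ (T s) (T' s)) ∧
    (∀ s, OkW Pf (p ^ a) c (lab s) ∧ ∀ i z, lab s i ≠ Sum.inl z) ∧
    (∀ s, (∃ i, dgL (lab s i) ≠ 1) → ∀ x : ∀ i, W.H (Pf (c i)).X,
      (∀ i, x i ∈ W.gr (Pf (c i)).X 1) → T s (nw W (fun i => Pf (c i)) x) = 0) ∧
    (∀ s x, T s x ∈ VV F (fun i => Pf (c i)) (lab s)) ∧
    (∀ s x, T' s x ∈ VV F (fun i => Pf (c i)) fun i => cb (p ^ a) (lab s i)) ∧
    ∀ x y, D.B c x y = ∑ s, (w s : W.K) * D.B c (T s x) (T' s y) := by
  classical
  choose Ψ hΨ using D.eig
  choose N T T' cc w h1 h2 h3 h3' h4 h5 h6 using fun i => exists_dec (D.loc i) (D.semi i) (hΨ i)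
  refine ⟨∀ i, Fin (N (c i)), inferInstance, fun s => opN W (fun i => Pf (c i))
      fun i => T (c i) (s i), fun s => opN W (fun i => Pf (c i)) fun i => T' (c i) (s i),
    fun s i => cc (c i) (s i), fun s => ∏ i, w (c i) (s i), fun s => ?_, fun s => ?_, fun s => ?_,
    fun s hs x hx => ?_, fun s x => ?_, fun s x => ?_, fun x y => ?_⟩
  · exact Finset.prod_pos fun i _ => h1 _ _
  · exact opN_opP _ fun i => h2 _ _
  · exact ⟨fun i => ⟨(h3 _ _).1, (h3 _ _).2.1⟩, fun i => (h3 _ _).2.2⟩
  · obtain ⟨i, hi⟩ := hs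
    rw [opN_nw]
    by_contra h0
    have h7 := D.B_nw c (fun i => T (c i) (s i) (x i))
    apply h0
    apply D.nondeg
    intro y
    have hy := nest_span (W := W) (ops := ops) (P := fun i => Pf (c i)) (S := fun _ => Set.univ)
      (fun i y => Submodule.subset_span (Set.mem_univ y)) y
    induction hy using Submodule.span_induction with
    | zero => rw [map_zero]
    | add x z _ _ hx hz => rw [map_add, hx, hz, add_zero]
    | smul b x _ hx => rw [map_smul, hx, smul_zero]
    | mem y hy =>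
      obtain ⟨y, -, rfl⟩ := hy
      rw [h7]
      refine Finset.prod_eq_zero (Finset.mem_univ i) ?_
      rw [h3' (c i) (s i) hi (x i) (hx i), map_zero, LinearMap.zero_apply]
  · exact opN_mem (fun i => h4 _ _) x
  · exact opN_mem (fun i => h5 _ _) x
  · have hx := nest_span (W := W) (ops := ops) (P := fun i => Pf (c i)) (S := fun _ => Set.univ)
      (fun i y => Submodule.subset_span (Set.mem_univ y)) x
    have hy := nest_span (W := W) (ops := ops) (P := fun i => Pf (c i)) (S := fun _ => Set.univ)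
      (fun i y => Submodule.subset_span (Set.mem_univ y)) y
    induction hx using Submodule.span_induction with
    | zero => simp
    | add x z _ _ hx hz =>
      rw [map_add, LinearMap.add_apply, hx, hz, ← Finset.sum_add_distrib]
      refine Finset.sum_congr rfl fun s _ => ?_
      rw [map_add, map_add, LinearMap.add_apply, mul_add]
    | smul b x _ hx =>
      rw [map_smul, LinearMap.smul_apply, hx, smul_eq_mul, Finset.mul_sum]
      refine Finset.sum_congr rfl fun s _ => ?_
      rw [map_smul, map_smul, LinearMap.smul_apply, smul_eq_mul]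
      ring
    | mem x hx =>
      obtain ⟨x, -, rfl⟩ := hx
      induction hy using Submodule.span_induction with
      | zero => simp
      | add x z _ _ hx hz =>
        rw [map_add, hx, hz, ← Finset.sum_add_distrib]
        refine Finset.sum_congr rfl fun s _ => ?_
        rw [map_add, map_add, mul_add]
      | smul b x _ hx =>
        rw [map_smul, hx, smul_eq_mul, Finset.mul_sum]
        refine Finset.sum_congr rfl fun s _ => ?_
        rw [map_smul, map_smul, smul_eq_mul]
        ring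
      | mem y hy =>
        obtain ⟨y, -, rfl⟩ := hy
        rw [D.B_nw]
        have e1 : ∀ s : ∀ i, Fin (N (c i)), ((∏ i, w (c i) (s i) : ℚ) : W.K) *
            D.B c (opN W (fun i => Pf (c i)) (fun i => T (c i) (s i)) (nw W _ x))
              (opN W (fun i => Pf (c i)) (fun i => T' (c i) (s i)) (nw W _ y)) =
            ∏ i, ((w (c i) (s i) : W.K) * bf W (Pf (c i)).X (Pf (c i)).D (f (c i))
              (T (c i) (s i) (x i)) (T' (c i) (s i) (y i))) := by
          intro s
          rw [opN_nw, opN_nw, D.B_nw, Rat.cast_prod, Finset.prod_mul_distrib]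
        rw [Finset.sum_congr rfl fun s _ => e1 s]
        have e2 : ∀ i, bf W (Pf (c i)).X (Pf (c i)).D (f (c i)) (x i) (y i) =
            ∑ s, (w (c i) s : W.K) * bf W (Pf (c i)).X (Pf (c i)).D (f (c i))
              (T (c i) s (x i)) (T' (c i) s (y i)) := fun i => h6 (c i) (x i) (y i)
        rw [Finset.prod_congr rfl fun i _ => e2 i, Finset.prod_univ_sum, Fintype.piFinset_univ]

/-- **Positivity on the algebraic classes.** -/
theorem posOn {c : Fin (n + 1) → ι} (H : ∀ lab : Fin (n + 1) → W.K ⊕ ℕ × W.K,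
    OkW Pf (p ^ a) c lab → (∀ i z, lab i ≠ Sum.inl z) → TL (p ^ a) lab → D.NN c lab) :
    PosOn W (nest ops n fun i => Pf (c i)).X (nest ops n fun i => Pf (c i)).D (D.g c) := by
  intro x hx hx0
  obtain ⟨κ, _, T, T', lab, w, h1, h2, h3, -, h4, h5, h6⟩ := D.dec c
  have hMR : ∀ s, MR (F := F) (σ := σ) c (lab s) (T s x) (T' s x) := fun s =>
    ⟨(h2 s).apply (Cj.of hx), h4 s x, h5 s x⟩
  have hpos : ∀ s, T s x ≠ 0 → PosK σ ((w s : W.K) * D.B c (T s x) (T' s x)) := by
    intro s hs
    have h7 : TL (p ^ a) (lab s) := TL_of ⟨_, h4 s x, (hMR s).1.mem_span, hs⟩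
    exact (PosK.rat (h1 s)).mul (H (lab s) (h3 s).1 (h3 s).2 h7 _ _ (hMR s) (Or.inl hs))
  obtain ⟨r, hr⟩ := (D.Fr c).bf_rat hx hx
  refine ⟨r, ?_, hr⟩
  have h7 : PosK σ (D.B c x x) := by
    rw [h6]
    refine PosK.sum _ (fun s _ => ?_) ?_
    · by_cases hs : T s x = 0
      · left
        rw [hs, map_zero, LinearMap.zero_apply, mul_zero]
      · exact Or.inr (hpos s hs)
    · by_contra hcon
      push Not at hcon
      apply hx0
      apply D.nondeg
      intro y
      rw [h6]
      refine Finset.sum_eq_zero fun s _ => ?_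
      have h8 : T s x = 0 := by
        by_contra h9
        exact hcon s (Finset.mem_univ _) (hpos s h9)
      rw [h8, map_zero, LinearMap.zero_apply, mul_zero]
  have h8 : D.B c x x = (r : W.K) := hr
  rw [h8] at h7
  exact h7.rat_pos

/-- **Positivity on the algebraic classes in the product of the spaces of degree one.** -/
theorem posOne {c : Fin (n + 1) → ι} (H : ∀ lab : Fin (n + 1) → W.K ⊕ ℕ × W.K,
    OkW Pf (p ^ a) c lab → (∀ i, dgL (lab i) = 1) → (∀ i z, lab i ≠ Sum.inl z) →
      TL (p ^ a) lab → D.NN c lab)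
    {x : W.H (nest ops n fun i => Pf (c i)).X} (hx : AS W _ x)
    (hx1 : x ∈ Submodule.span W.K {z | ∃ y : ∀ i, W.H (Pf (c i)).X,
      (∀ i, y i ∈ W.gr (Pf (c i)).X 1) ∧ z = nw W (fun i => Pf (c i)) y}) (hx0 : x ≠ 0) :
    ∃ r : ℚ, 0 < r ∧ D.B c x x = r := by
  obtain ⟨κ, _, T, T', lab, w, h1, h2, h3, h3', h4, h5, h6⟩ := D.dec c
  have hMR : ∀ s, MR (F := F) (σ := σ) c (lab s) (T s x) (T' s x) := fun s =>
    ⟨(h2 s).apply (Cj.of hx), h4 s x, h5 s x⟩
  have hone : ∀ s, T s x ≠ 0 → ∀ i, dgL (lab s i) = 1 := by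
    intro s hs i
    by_contra hi
    apply hs
    clear hs hx hx0 hMR
    induction hx1 using Submodule.span_induction with
    | zero => rw [map_zero]
    | add x z _ _ hx hz => rw [map_add, hx, hz, add_zero]
    | smul b x _ hx => rw [map_smul, hx, smul_zero]
    | mem y hy =>
      obtain ⟨y, hy, rfl⟩ := hy
      exact h3' s ⟨i, hi⟩ y hy
  have hpos : ∀ s, T s x ≠ 0 → PosK σ ((w s : W.K) * D.B c (T s x) (T' s x)) := by
    intro s hs
    have h7 : TL (p ^ a) (lab s) := TL_of ⟨_, h4 s x, (hMR s).1.mem_span, hs⟩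
    exact (PosK.rat (h1 s)).mul (H (lab s) (h3 s).1 (hone s hs) (h3 s).2 h7 _ _ (hMR s)
      (Or.inl hs))
  obtain ⟨r, hr⟩ := (D.Fr c).bf_rat hx hx
  refine ⟨r, ?_, hr⟩
  have h7 : PosK σ (D.B c x x) := by
    rw [h6]
    refine PosK.sum _ (fun s _ => ?_) ?_
    · by_cases hs : T s x = 0
      · left
        rw [hs, map_zero, LinearMap.zero_apply, mul_zero]
      · exact Or.inr (hpos s hs)
    · by_contra hcon
      push Not at hcon
      apply hx0
      apply D.nondeg
      intro y
      rw [h6]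
      refine Finset.sum_eq_zero fun s _ => ?_
      have h8 : T s x = 0 := by
        by_contra h9
        exact hcon s (Finset.mem_univ _) (hpos s h9)
      rw [h8, map_zero, LinearMap.zero_apply, mul_zero]
  have h8 : D.B c x x = (r : W.K) := hr
  rw [h8] at h7
  exact h7.rat_pos

end Dat

end Pool.Agent.Q56.HP
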