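import Pool.Agent.Q56.HP.Op

/-!
# The decomposition of the form of one factor
-/

set_option autoImplicit false
set_option linter.unusedSectionVars false

open CategoryTheory AlgebraicGeometry

universe u v w

namespace Pool.Agent.Q56.HP

open Pool.Agent.H914 Pool.Agent.H914.VarClass Pool.Agent.H914.VarClass.Obj
  Pool.Agent.H914.WeilCohomology Pool.Agent.H281R3.HT Pool.Agent.W552
  Pool.Agent.Q56.CT Pool.Agent.Q56.CTS Pool.Agent.Q56.FE
open Pool.Agent.Q56.FR (fr)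

variable {k : Type u} [Field k] {𝒱 : VarClass k} {ops : CycleOps 𝒱}
  {W : WeilCohomology.{u, v} ops} [IsAlgClosed W.K] {σ : An W.K →ₐ[ℚ] ℂ}
  {p : ℕ} [Fact p.Prime] {a : ℕ} {F : FrobeniusOver W (p ^ a)}
  {P : Polarized 𝒱} {f Φ : Module.End W.K (W.H P.X)}

lemma gam_zero (n i : ℕ) : gam n i 0 = 1 := by
  unfold gam
  have h2 : ((n - i).factorial : ℚ) ≠ 0 := by exact_mod_cast Nat.factorial_ne_zero _
  rw [Nat.sub_zero, Nat.factorial_zero, Nat.cast_one, one_mul, div_self h2]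

lemma bf_LL (l : Loc W P f Φ) {i i' : ℕ} (hi : i ≤ P.X.dim) (hi' : i' ≤ P.X.dim) {x y : W.H P.X}
    (hx : x ∈ W.gr P.X i)
    (hp : ((LinearMap.mulLeft W.K (W.cl P.X P.D)) ^ (P.X.dim - i + 1)) x = 0)
    (hy : y ∈ W.gr P.X i')
    (hp' : ((LinearMap.mulLeft W.K (W.cl P.X P.D)) ^ (P.X.dim - i' + 1)) y = 0) :
    ∀ j j', j ≤ P.X.dim - i → j' ≤ P.X.dim - i' →
      bf W P.X P.D f (((LinearMap.mulLeft W.K (W.cl P.X P.D)) ^ j) x)
        (((LinearMap.mulLeft W.K (W.cl P.X P.D)) ^ j') y) =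
      if i = i' ∧ j = j' then (gam P.X.dim i j : W.K) * bf W P.X P.D f x y else 0 := by
  set L : Module.End W.K (W.H P.X) := LinearMap.mulLeft W.K (W.cl P.X P.D) with hL
  intro j
  induction j with
  | zero =>
    intro j' _ hj'
    rcases Nat.eq_zero_or_pos j' with rfl | h0
    · rw [pow_zero, Module.End.one_apply, Module.End.one_apply]
      split_ifs with h1
      · rw [gam_zero, Rat.cast_one, one_mul]
      · exact l.F.bf_deg hx hy fun h => h1 ⟨h, rfl⟩
    · obtain ⟨j', rfl⟩ : ∃ m, j' = m + 1 := ⟨j' - 1, by omega⟩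
      rw [if_neg (by omega), pow_zero, Module.End.one_apply, pow_succ', Module.End.mul_apply, hL,
        ← bf_f l.F l.t, (l.t.low hi hx hp).1, map_zero, LinearMap.zero_apply]
  | succ j ih =>
    intro j' hj hj'
    rw [pow_succ', Module.End.mul_apply, hL, bf_L l.F l.t, ← hL, f_L_pow l.t hi' hy hp' hj',
      map_smul]
    rcases Nat.eq_zero_or_pos j' with rfl | h0
    · rw [if_neg (by omega)]
      simp
    · obtain ⟨j', rfl⟩ : ∃ m, j' = m + 1 := ⟨j' - 1, by omega⟩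
      rw [Nat.add_sub_cancel, ih j' (by omega) (by omega)]
      by_cases h1 : i = i' ∧ j = j'
      · obtain ⟨rfl, rfl⟩ := h1
        rw [if_pos ⟨rfl, rfl⟩, if_pos ⟨rfl, rfl⟩, gam_succ hj, smul_eq_mul]
        rw [show P.X.dim - i + 1 - (j + 1) = P.X.dim - i - j by omega]
        push_cast
        ring
      · rw [if_neg h1, if_neg (by omega), smul_zero]

/-- **The form and the Lefschetz decomposition.** -/
theorem bf_rib (l : Loc W P f Φ) (x y : W.H P.X) :
    bf W P.X P.D f x y = ∑ i ∈ Finset.range (P.X.dim + 1), ∑ b ∈ Finset.range (P.X.dim + 1),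
      (gam P.X.dim i b : W.K) * bf W P.X P.D f
        (rib (W.isInternal P.X) (LinearMap.mulLeft W.K (W.cl P.X P.D)) Φ i b x)
        (rib (W.isInternal P.X) (LinearMap.mulLeft W.K (W.cl P.X P.D)) Φ i b y) := by
  set L : Module.End W.K (W.H P.X) := LinearMap.mulLeft W.K (W.cl P.X P.D) with hL
  refine lef_induction' (W.isInternal P.X) l.t.hL l.t.hbd l.t.hHL (p := fun x =>
    bf W P.X P.D f x y = ∑ i ∈ Finset.range (P.X.dim + 1), ∑ b ∈ Finset.range (P.X.dim + 1),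
      (gam P.X.dim i b : W.K) * bf W P.X P.D f (rib (W.isInternal P.X) L Φ i b x)
        (rib (W.isInternal P.X) L Φ i b y)) ?_ ?_ x
  · intro x x' hx hx'
    rw [map_add, LinearMap.add_apply, hx, hx', ← Finset.sum_add_distrib]
    refine Finset.sum_congr rfl fun i _ => ?_
    rw [← Finset.sum_add_distrib]
    refine Finset.sum_congr rfl fun b _ => ?_
    rw [map_add, map_add, LinearMap.add_apply, mul_add]
  intro i hi x hx hp j
  refine lef_induction' (W.isInternal P.X) l.t.hL l.t.hbd l.t.hHL (p := fun y =>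
    bf W P.X P.D f ((L ^ j) x) y = ∑ i ∈ Finset.range (P.X.dim + 1),
      ∑ b ∈ Finset.range (P.X.dim + 1), (gam P.X.dim i b : W.K) *
        bf W P.X P.D f (rib (W.isInternal P.X) L Φ i b ((L ^ j) x))
        (rib (W.isInternal P.X) L Φ i b y)) ?_ ?_ y
  · intro y y' hy hy'
    rw [map_add, hy, hy', ← Finset.sum_add_distrib]
    refine Finset.sum_congr rfl fun i _ => ?_
    rw [← Finset.sum_add_distrib]
    refine Finset.sum_congr rfl fun b _ => ?_
    rw [map_add, map_add, mul_add]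
  intro i' hi' y hy hp' j'
  by_cases hj : P.X.dim - i < j
  · rw [L_pow_gt hp hj]; simp
  by_cases hj' : P.X.dim - i' < j'
  · rw [L_pow_gt hp' hj']; simp
  rw [bf_LL l hi hi' hx hp hy hp' j j' (by omega) (by omega)]
  have hr : ∀ i₁ b, rib (W.isInternal P.X) L Φ i₁ b ((L ^ j) x) = if i₁ = i ∧ j = b then x else 0 :=
    fun i₁ b => rib_apply l.t l.hΦ hi hx hp (by omega) i₁ b
  have hr' : ∀ i₁ b, rib (W.isInternal P.X) L Φ i₁ b ((L ^ j') y) =
      if i₁ = i' ∧ j' = b then y else 0 :=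
    fun i₁ b => rib_apply l.t l.hΦ hi' hy hp' (by omega) i₁ b
  rw [Finset.sum_eq_single i]
  · rw [Finset.sum_eq_single j]
    · have hr1 := hr i j
      rw [if_pos ⟨rfl, rfl⟩] at hr1
      rw [hr1, hr' i j]
      by_cases h1 : i = i' ∧ j = j'
      · rw [if_pos h1, if_pos ⟨h1.1, h1.2.symm⟩]
      · rw [if_neg h1, if_neg fun h => h1 ⟨h.1, h.2.symm⟩, map_zero, mul_zero]
    · intro b _ hb
      rw [hr, if_neg fun h => hb h.2.symm, map_zero, LinearMap.zero_apply, mul_zero]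
    · intro h; exact absurd (Finset.mem_range.2 (by omega)) h
  · intro i₁ _ h1
    refine Finset.sum_eq_zero fun b _ => ?_
    rw [hr, if_neg fun h => h1 h.1, map_zero, LinearMap.zero_apply, mul_zero]
  · intro h; exact absurd (Finset.mem_range.2 (by omega)) h

/-- The image of the ribs. -/
lemma rib_mem (l : Loc W P f Φ) (i b : ℕ) (x : W.H P.X) :
    rib (W.isInternal P.X) (LinearMap.mulLeft W.K (W.cl P.X P.D)) Φ i b x ∈ W.gr P.X i ∧
      ((LinearMap.mulLeft W.K (W.cl P.X P.D)) ^ (P.X.dim - i + 1))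
        (rib (W.isInternal P.X) (LinearMap.mulLeft W.K (W.cl P.X P.D)) Φ i b x) = 0 := by
  set L : Module.End W.K (W.H P.X) := LinearMap.mulLeft W.K (W.cl P.X P.D) with hL
  refine lef_induction' (W.isInternal P.X) l.t.hL l.t.hbd l.t.hHL (p := fun x =>
    rib (W.isInternal P.X) L Φ i b x ∈ W.gr P.X i ∧
      (L ^ (P.X.dim - i + 1)) (rib (W.isInternal P.X) L Φ i b x) = 0) ?_ ?_ x
  · rintro x y ⟨h1, h2⟩ ⟨h1', h2'⟩
    rw [map_add]
    exact ⟨Submodule.add_mem _ h1 h1', by rw [map_add, h2, h2', add_zero]⟩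
  · intro i' hi y hy hp j
    by_cases hj : P.X.dim - i' < j
    · rw [L_pow_gt hp hj, map_zero, map_zero]
      exact ⟨Submodule.zero_mem _, rfl⟩
    · rw [rib_apply l.t l.hΦ hi hy hp (by omega)]
      split_ifs with h1
      · rw [h1.1]; exact ⟨hy, hp⟩
      · rw [map_zero]; exact ⟨Submodule.zero_mem _, rfl⟩

lemma rib_opP (l : Loc W P f Φ) (i b : ℕ) : OpP σ P.X
    (rib (W.isInternal P.X) (LinearMap.mulLeft W.K (W.cl P.X P.D)) Φ i b)
    (rib (W.isInternal P.X) (LinearMap.mulLeft W.K (W.cl P.X P.D)) Φ i b) :=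
  OpP.of ((l.aprm i).mul (l.aΦ.pow b))

lemma weil_one (q : ℕ) {K : Type*} [Field K] [CharZero K] : IsWeilNumber q 0 (1 : K) := by
  have h := weil_pow (weil_q (K := K) q) 0
  rwa [zero_mul, pow_zero] at h

/-- **The decomposition of the form into forms on letters.** -/
theorem exists_dec (l : Loc W P f Φ) (hs : SemiX F P.X) {Ψ : Finset (An W.K)}
    (hΨ : EigSet σ F P.X Ψ) :
    ∃ (N : ℕ) (T T' : Fin N → Module.End W.K (W.H P.X)) (c : Fin N → W.K ⊕ ℕ × W.K)
      (w : Fin N → ℚ), (∀ s, 0 < w s) ∧ (∀ s, OpP σ P.X (T s) (T' s)) ∧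
      (∀ s, dgL (c s) ≤ P.X.dim ∧ WL (p ^ a) (c s) ∧ ∀ z, c s ≠ Sum.inl z) ∧
      (∀ s, dgL (c s) ≠ 1 → ∀ x ∈ W.gr P.X 1, T s x = 0) ∧
      (∀ s x, T s x ∈ LS F P (c s)) ∧ (∀ s x, T' s x ∈ LS F P (cb (p ^ a) (c s))) ∧
      ∀ x y, bf W P.X P.D f x y = ∑ s, (w s : W.K) * bf W P.X P.D f (T s x) (T' s y) := by
  classical
  have hq : 0 < p ^ a := pow_pos (Fact.out : p.Prime).pos a
  set L : Module.End W.K (W.H P.X) := LinearMap.mulLeft W.K (W.cl P.X P.D) with hL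
  set n := P.X.dim with hn
  let ι := Fin (n + 1) × Fin (n + 1) × Ψ
  let R : ℕ → ℕ → Module.End W.K (W.H P.X) := fun i b => rib (W.isInternal P.X) L Φ i b
  let G : ι → Prop := fun s => IsWeilNumber (p ^ a) s.1 ((s.2.2 : An W.K) : W.K)
  let T : ι → Module.End W.K (W.H P.X) := fun s =>
    if G s then eo F P.X Ψ s.2.2 * R s.1 s.2.1 else 0
  let T' : ι → Module.End W.K (W.H P.X) := fun s =>
    if G s then eo F P.X Ψ (cj σ s.2.2) * R s.1 s.2.1 else 0
  let c : ι → W.K ⊕ ℕ × W.K := fun s =>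
    if G s then Sum.inr ((s.1 : ℕ), ((s.2.2 : An W.K) : W.K)) else Sum.inr (0, 1)
  let w : ι → ℚ := fun s => gam n s.1 s.2.1
  let e := Fintype.equivFin ι
  have hmem : ∀ (i b : ℕ) (hi : i ≤ n) (ν : An W.K) (c' : W.K ⊕ ℕ × W.K), dgL c' = i →
      (ν : W.K) = egL c' → ∀ x, (eo F P.X Ψ ν * R i b) x ∈ LS F P c' := by
    intro i b hi ν c' hd hν x
    obtain ⟨h1, h2⟩ := rib_mem l i b x
    refine ⟨?_, ?_, ?_⟩
    · rw [hd]; exact eo_mem h1 ν
    · rw [← hν]; exact eo_eig hΨ hs hi h1 ν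
    · rw [hd]
      exact LinearMap.mem_ker.1 (pop_mem (fun x hx => LinearMap.mem_ker.2
        (prim_stable (F := F) l.F.hD (LinearMap.mem_ker.1 hx))) _ (LinearMap.mem_ker.2 h2))
  have k1 : ∀ s : ι, OpP σ P.X (T s) (T' s) := by
    intro s
    change OpP σ P.X (if G s then eo F P.X Ψ s.2.2 * R s.1 s.2.1 else 0)
      (if G s then eo F P.X Ψ (cj σ s.2.2) * R s.1 s.2.1 else 0)
    split_ifs
    · exact (eo_opP hΨ _).mul (rib_opP l _ _)
    · exact OpP.zero
  have k2 : ∀ s : ι, dgL (c s) ≤ n ∧ WL (p ^ a) (c s) ∧ ∀ z, c s ≠ Sum.inl z := by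
    intro s
    by_cases h1 : G s
    · have h2 : c s = Sum.inr ((s.1 : ℕ), ((s.2.2 : An W.K) : W.K)) := if_pos h1
      rw [h2]
      exact ⟨by have := s.1.2; change (s.1 : ℕ) ≤ n; omega, h1, fun z h => by cases h⟩
    · have h2 : c s = Sum.inr (0, 1) := if_neg h1
      rw [h2]
      exact ⟨Nat.zero_le _, weil_one _, fun z h => by cases h⟩
  have k2' : ∀ s : ι, dgL (c s) ≠ 1 → ∀ x ∈ W.gr P.X 1, T s x = 0 := by
    intro s hs1 x hx
    by_cases h1 : G s
    · have h2 : c s = Sum.inr ((s.1 : ℕ), ((s.2.2 : An W.K) : W.K)) := if_pos h1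
      have h3 : T s = eo F P.X Ψ s.2.2 * R s.1 s.2.1 := if_pos h1
      rw [h2] at hs1
      change (s.1 : ℕ) ≠ 1 at hs1
      have h4 := congrArg (fun G => G x)
        (rib_proj (K := W.K) l.t l.hΦ (s.1 : ℕ) (s.2.1 : ℕ) 1)
      rw [if_neg (by omega)] at h4
      simp only [Module.End.mul_apply, LinearMap.zero_apply, proj_same _ hx] at h4
      rw [h3, Module.End.mul_apply]
      change eo F P.X Ψ s.2.2 (rib (W.isInternal P.X) L Φ s.1 s.2.1 x) = 0
      rw [h4, map_zero]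
    · have h3 : T s = 0 := if_neg h1
      rw [h3]
      rfl
  have k3 : ∀ (s : ι) (x : W.H P.X), T s x ∈ LS F P (c s) := by
    intro s x
    by_cases h1 : G s
    · have h2 : c s = Sum.inr ((s.1 : ℕ), ((s.2.2 : An W.K) : W.K)) := if_pos h1
      have h3 : T s = eo F P.X Ψ s.2.2 * R s.1 s.2.1 := if_pos h1
      rw [h2, h3]
      exact hmem s.1 s.2.1 (by have := s.1.2; omega) _ _ rfl rfl x
    · have h3 : T s = 0 := if_neg h1
      rw [h3]
      exact Submodule.zero_mem _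
  have k4 : ∀ (s : ι) (x : W.H P.X), T' s x ∈ LS F P (cb (p ^ a) (c s)) := by
    intro s x
    by_cases h1 : G s
    · have h2 : c s = Sum.inr ((s.1 : ℕ), ((s.2.2 : An W.K) : W.K)) := if_pos h1
      have h3 : T' s = eo F P.X Ψ (cj σ s.2.2) * R s.1 s.2.1 := if_pos h1
      rw [h2, h3]
      refine hmem s.1 s.2.1 (by have := s.1.2; omega) _ _ rfl ?_ x
      exact cj_lab (c := Sum.inr ((s.1 : ℕ), ((s.2.2 : An W.K) : W.K))) hq σ h1
    · have h3 : T' s = 0 := if_neg h1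
      rw [h3]
      exact Submodule.zero_mem _
  refine ⟨Fintype.card ι, fun s => T (e.symm s), fun s => T' (e.symm s), fun s => c (e.symm s),
    fun s => w (e.symm s), fun s => gam_pos _ _ _, fun s => k1 _, fun s => k2 _,
    fun s => k2' _, fun s x => k3 _ x, fun s x => k4 _ x, fun x y => ?_⟩
  · rw [bf_rib l x y, Finset.sum_range]
    have h1 : ∀ i b : Fin (n + 1), bf W P.X P.D f (R i b x) (R i b y) =
        ∑ μ : Ψ, bf W P.X P.D f (T (i, b, μ) x) (T' (i, b, μ) y) := by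
      intro i b
      have hin : (i : ℕ) ≤ n := by have := i.2; omega
      obtain ⟨h2, h3⟩ := rib_mem l i b x
      obtain ⟨h2', h3'⟩ := rib_mem l i b y
      have h4 : bf W P.X P.D f (R i b x) (R i b y) = ∑ μ ∈ Ψ, ∑ ν ∈ Ψ,
          bf W P.X P.D f (eo F P.X Ψ μ (R i b x)) (eo F P.X Ψ ν (R i b y)) := by
        conv_lhs => rw [eo_sum hΨ hs hin h2, eo_sum hΨ hs hin h2']
        rw [map_sum (bf W P.X P.D f), LinearMap.sum_apply]
        refine Finset.sum_congr rfl fun μ _ => ?_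
        rw [map_sum]
      rw [h4, ← Finset.sum_coe_sort]
      refine Finset.sum_congr rfl fun μ _ => ?_
      change _ = bf W P.X P.D f ((if G (i, b, μ) then eo F P.X Ψ μ * R i b else 0) x)
        ((if G (i, b, μ) then eo F P.X Ψ (cj σ μ) * R i b else 0) y)
      by_cases h5 : eo F P.X Ψ μ (R i b x) = 0
      · rw [Finset.sum_eq_zero fun ν _ => by rw [h5, map_zero, LinearMap.zero_apply]]
        split_ifs
        · rw [Module.End.mul_apply, h5, map_zero, LinearMap.zero_apply]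
        · rw [LinearMap.zero_apply, map_zero, LinearMap.zero_apply]
      obtain ⟨μ', hμ', h6, h7⟩ := hΨ.eig i hin _ _ (eo_mem h2 μ) (eo_eig hΨ hs hin h2 μ) h5
      have hG : G (i, b, μ) := h7
      rw [if_pos hG, if_pos hG, Module.End.mul_apply, Module.End.mul_apply]
      refine Finset.sum_eq_single_of_mem (cj σ μ) (hΨ.conj _ μ.2) ?_
      intro ν hν hne
      by_contra h8
      have h9 := (FH.eig_of_bf F hq.ne' l.F l.t (eo_mem h2 μ) (eo_mem h2' ν)
        (eo_eig hΨ hs hin h2 μ) (eo_eig hΨ hs hin h2' ν) h8).2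
      apply hne
      have h10 := cj_lab (c := Sum.inr ((i : ℕ), ((μ : An W.K) : W.K))) hq σ hG
      have h11 : (((μ : An W.K)) : W.K) ≠ 0 := weil_ne hq hG
      apply Subtype.ext
      have h12 : toAn (show IsIntegral ℤ (((μ : An W.K)) : W.K) from hG.1) = (μ : An W.K) := rfl
      have h13 : ((cj σ (μ : An W.K) : An W.K) : W.K) =
          ((p ^ a : ℕ) : W.K) ^ (i : ℕ) / ((μ : An W.K) : W.K) := h10
      rw [h13, eq_div_iff h11, ← h9]
      ring
    have h2 : ∀ i : Fin (n + 1), ∑ b ∈ Finset.range (n + 1), (gam n i b : W.K) *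
        bf W P.X P.D f (R i b x) (R i b y) = ∑ b : Fin (n + 1), ∑ μ : Ψ,
          (w (i, b, μ) : W.K) * bf W P.X P.D f (T (i, b, μ) x) (T' (i, b, μ) y) := by
      intro i
      rw [Finset.sum_range]
      refine Finset.sum_congr rfl fun b _ => ?_
      rw [h1, Finset.mul_sum]
    rw [Finset.sum_congr rfl fun i _ => h2 i]
    have h3 : ∑ s, (w (e.symm s) : W.K) * bf W P.X P.D f (T (e.symm s) x) (T' (e.symm s) y) =
        ∑ s : ι, (w s : W.K) * bf W P.X P.D f (T s x) (T' s y) :=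
      e.symm.sum_comp fun s : ι => (w s : W.K) * bf W P.X P.D f (T s x) (T' s y)
    rw [h3, Fintype.sum_prod_type]
    refine Finset.sum_congr rfl fun i _ => ?_
    rw [Fintype.sum_prod_type]

/-- The projector to the letters. -/
theorem exists_letterOp (l : Loc W P f Φ) (hs : SemiX F P.X) {Ψ : Finset (An W.K)}
    (hΨ : EigSet σ F P.X Ψ) {c : W.K ⊕ ℕ × W.K} (hc : WL (p ^ a) c) (hdim : dgL c ≤ P.X.dim) :
    ∃ E E' : Module.End W.K (W.H P.X), OpP σ P.X E E' ∧ (∀ x, E x ∈ LS F P c) ∧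
      (∀ x ∈ LS F P c, E x = x) ∧ (∀ x, E' x ∈ LS F P (cb (p ^ a) c)) ∧
      ∀ x ∈ LS F P c, ∀ y, bf W P.X P.D f x y = bf W P.X P.D f x (E' y) := by
  have hq : 0 < p ^ a := pow_pos (Fact.out : p.Prime).pos a
  set L : Module.End W.K (W.H P.X) := LinearMap.mulLeft W.K (W.cl P.X P.D) with hL
  set μ : An W.K := toAn hc.1 with hμ
  have hμ' : ((cj σ μ : An W.K) : W.K) = egL (cb (p ^ a) c) := cj_lab hq σ hc
  set R := prm (W.isInternal P.X) L Φ (dgL c) with hR
  have hRgr : ∀ x, R x ∈ W.gr P.X (dgL c) ∧ (L ^ (P.X.dim - dgL c + 1)) (R x) = 0 := by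
    intro x
    refine lef_induction' (W.isInternal P.X) l.t.hL l.t.hbd l.t.hHL
      (p := fun x => R x ∈ W.gr P.X (dgL c) ∧ (L ^ (P.X.dim - dgL c + 1)) (R x) = 0) ?_ ?_ x
    · rintro x y ⟨h1, h2⟩ ⟨h1', h2'⟩
      rw [map_add]
      exact ⟨Submodule.add_mem _ h1 h1', by rw [map_add, h2, h2', add_zero]⟩
    · intro i hi y hy hp j
      by_cases hj : P.X.dim - i < j
      · rw [L_pow_gt hp hj, map_zero, map_zero]
        exact ⟨Submodule.zero_mem _, rfl⟩
      · rw [hR, prm_apply l.t l.hΦ hi hy hp (by omega)]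
        split_ifs with h1
        · rw [h1.1]; exact ⟨hy, hp⟩
        · rw [map_zero]; exact ⟨Submodule.zero_mem _, rfl⟩
  have hRself : ∀ x ∈ W.gr P.X (dgL c), (L ^ (P.X.dim - dgL c + 1)) x = 0 → R x = x := by
    intro x hx hp
    have h1 := prm_apply l.t l.hΦ hdim hx hp (Nat.zero_le _) (dgL c)
    rw [pow_zero, Module.End.one_apply, if_pos ⟨rfl, rfl⟩] at h1
    exact h1
  have hst : ∀ x ∈ LinearMap.ker (L ^ (P.X.dim - dgL c + 1)),
      fr F P.X x ∈ LinearMap.ker (L ^ (P.X.dim - dgL c + 1)) := fun x hx =>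
    LinearMap.mem_ker.2 (prim_stable (F := F) l.F.hD (LinearMap.mem_ker.1 hx))
  have hmem : ∀ (ν : An W.K) (c' : W.K ⊕ ℕ × W.K), dgL c' = dgL c → (ν : W.K) = egL c' →
      ∀ x, (eo F P.X Ψ ν * R) x ∈ LS F P c' := by
    intro ν c' hd hν x
    obtain ⟨h1, h2⟩ := hRgr x
    refine ⟨?_, ?_, ?_⟩
    · rw [hd]; exact eo_mem h1 ν
    · rw [← hν]; exact eo_eig hΨ hs hdim h1 ν
    · rw [hd]
      exact LinearMap.mem_ker.1 (pop_mem hst _ (LinearMap.mem_ker.2 h2))
  have hself : ∀ (ν : An W.K) (c' : W.K ⊕ ℕ × W.K), dgL c' = dgL c → (ν : W.K) = egL c' →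
      ∀ x ∈ LS F P c', (eo F P.X Ψ ν * R) x = x := by
    rintro ν c' hd hν x ⟨h1, h2, h3⟩
    rw [hd] at h1 h3
    rw [Module.End.mul_apply, hRself x h1 h3]
    exact eo_self (by rw [h2, hν])
  refine ⟨eo F P.X Ψ μ * R, eo F P.X Ψ (cj σ μ) * R, (eo_opP hΨ μ).mul (OpP.of (l.aprm _)),
    hmem _ _ rfl rfl, hself _ _ rfl rfl, hmem _ _ (dg_cb c) hμ', fun x hx y => ?_⟩
  obtain ⟨h1, h2, h3⟩ := hx
  have h4 : bf W P.X P.D f x y = bf W P.X P.D f x (R y) := by
    have h5 := bf_prm l.F l.t l.hΦ (dgL c) x y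
    rw [← hL, ← hR, hRself x h1 h3] at h5
    exact h5
  have h5 : ∀ ν : An W.K, bf W P.X P.D f x (eo F P.X Ψ ν (R y)) ≠ 0 → ν = cj σ μ := by
    intro ν h6
    have h7 := (FH.eig_of_bf F hq.ne' l.F l.t h1 (eo_mem (hRgr y).1 ν) h2
      (eo_eig hΨ hs hdim (hRgr y).1 ν) h6).2
    apply Subtype.ext
    have h8 : egL c ≠ 0 := weil_ne hq hc
    rw [hμ', eg_cb, eq_div_iff h8, ← h7]
    ring
  rw [h4, Module.End.mul_apply]
  conv_lhs => rw [eo_sum hΨ hs hdim (hRgr y).1]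
  rw [map_sum]
  by_cases h6 : cj σ μ ∈ Ψ
  · refine Finset.sum_eq_single_of_mem _ h6 fun ν _ hν => ?_
    by_contra h7
    exact hν (h5 ν h7)
  · have h7 : eo F P.X Ψ (cj σ μ) (R y) = 0 := by
      by_contra h8
      obtain ⟨ν, hν, h9, -⟩ := hΨ.eig _ hdim _ _ (eo_mem (hRgr y).1 (cj σ μ))
        (eo_eig hΨ hs hdim (hRgr y).1 (cj σ μ)) h8
      apply h6
      have h10 : ν = cj σ μ := Subtype.ext h9
      rwa [← h10]
    rw [h7, map_zero]
    refine Finset.sum_eq_zero fun ν hν => ?_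
    by_contra h8
    apply h6
    rw [← h5 ν h8]
    exact hν


end Pool.Agent.Q56.HP
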