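import Pool.Agent.Q56.CT.Defs
import Pool.Agent.H914R2.DDefs
import Pool.Agent.H914R2.KDefs
import Pool.Agent.W552.Defs

/-!
# Polarized abelian varieties over a finite field: the statement
-/

set_option autoImplicit false

open CategoryTheory AlgebraicGeometry

universe u v

namespace Pool.Agent.Q56.HPS

open Pool.Agent.H914 Pool.Agent.H914.VarClass Pool.Agent.H914.VarClass.Obj
  Pool.Agent.H914.WeilCohomology Pool.Agent.H281R3.HT Pool.Agent.W552
  Pool.Agent.Q56.FE Pool.Agent.Q56.CTS

/-- On the subspace `p` the homomorphism `f` is the linear combination `a g + b h`. -/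
def IsCombOn {K A B : Type*} [Field K] [Ring A] [Algebra K A] [Ring B] [Algebra K B]
    (f g h : A →ₐ[K] B) (p : Submodule K A) (a b : ℤ) : Prop :=
  ∀ x ∈ p, f x = (a : K) • g x + (b : K) • h x

variable {k : Type u} [Field k] {𝒱 : VarClass k} {ops : CycleOps 𝒱}

/-- The morphism `μ : A × A → A` acts on the classes of degree one like `(x, y) ↦ a x + b y`, that is,
`μ^* x = a pr_1^* x + b pr_2^* x`. -/
def IsComb (W : WeilCohomology.{u, v} ops) (A : 𝒱.Obj) (a b : ℤ) (μ : A.prod A ⟶ A) : Prop :=
  IsCombOn (W.map μ) (W.map (fst A A)) (W.map (snd A A)) (W.gr A 1) a b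

/-- The divisor of `P` satisfies the hard Lefschetz theorem, and its top self-intersection number is
positive. -/
def IsGoodPolarized (W : WeilCohomology.{u, v} ops) (P : Polarized 𝒱) : Prop :=
  P.X.IsCyc 1 P.D ∧ HardLefschetz W P.X P.D ∧
    0 < P.X.V.degCycle (divPow ops P.D P.X.dim P.X.V.fundCycle)

/-- The class `𝒮` has the properties of the class of all polarized abelian varieties, where `𝒜` is the
class of the abelian varieties: every member of `𝒜` has a polarization in `𝒮`, and `𝒮` is closed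
under products, with the sum of the pull-backs of the divisors; the divisors satisfy the hard
Lefschetz theorem (Weil, Deligne), have positive degree and satisfy the Hodge index theorem; and
there are the morphisms `(x, y) ↦ a x + b y` given by the group law. -/
structure IsPolarizedClass (W : WeilCohomology.{u, v} ops) (𝒜 : Set 𝒱.Obj)
    (𝒮 : Set (Polarized 𝒱)) : Prop where
  mem : ∀ P ∈ 𝒮, P.X ∈ 𝒜
  polarization : ∀ A ∈ 𝒜, ∃ P ∈ 𝒮, P.X = A
  prod : ∀ P ∈ 𝒮, ∀ Q ∈ 𝒮, P.prod ops Q ∈ 𝒮
  good : ∀ P ∈ 𝒮, IsGoodPolarized W P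
  index : ∀ P ∈ 𝒮, HodgeTypeOn W P.X P.D (W.gr P.X 2)
  group : ∀ P ∈ 𝒮, ∀ a b : ℤ, ∃ μ, IsComb W P.X a b μ

variable {W : WeilCohomology.{u, v} ops} {q : ℕ}

/-- The strong Tate conjecture for the classes in `M` in codimension `j`: the generalised
eigenvectors of the Frobenius endomorphism in `M` for the eigenvalue `q ^ j` are linear combinations
of classes of cycles. -/
def TateIn (F : FrobeniusOver W q) (X : 𝒱.Obj) (j : ℕ) (M : Submodule W.K (W.H X)) : Prop :=
  GenEigIn (W.map (F.Fr X)) ((q : W.K) ^ j) M (spanCycles W X j)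

/-- The Tate conjecture in codimension two for the members of `𝒜`, and the standard conjecture of
Hodge type for the classes in `H^1(E) ⊗ H^3(A)`, of codimension two, on the products `E × A` with the
members `A` of `𝒮`. -/
def CodimensionTwo (F : FrobeniusOver W q) (𝒜 : Set 𝒱.Obj) (𝒮 : Set (Polarized 𝒱))
    (E : Polarized 𝒱) : Prop :=
  (∀ A ∈ 𝒜, TateIn F A 2 (W.gr A 4)) ∧
    ∀ P ∈ 𝒮, HodgeTypeOn W (E.prod ops P).X (E.prod ops P).D
      (tensorSpan (W.map (fst E.X P.X)) (W.map (snd E.X P.X)) (W.gr E.X 1) (W.gr P.X 3))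

/-- For `1 ≤ i ≤ dim Y` the strong Tate conjecture and the standard conjecture of Hodge type hold for
the classes in `H^i(Y) ⊗ H^i(A)`, of codimension `i`, on the products `Y × A` of one member `Y` of
`𝒬` with one member `A` of `𝒮`. -/
def MixedTateHodge (F : FrobeniusOver W q) (𝒬 𝒮 : Set (Polarized 𝒱)) : Prop :=
  ∀ Y ∈ 𝒬, ∀ P ∈ 𝒮, ∀ i, 1 ≤ i → i ≤ Y.X.dim →
    TateIn F (Y.prod ops P).X i (mixed W Y.X P.X i) ∧
      HodgeTypeOn W (Y.prod ops P).X (Y.prod ops P).D (mixed W Y.X P.X i)

/-- All products of arbitrarily many members of `𝒟` satisfy the strong Tate conjecture and the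
standard conjecture of Hodge type in all codimensions, and homological and numerical equivalence
coincide on them. -/
def TateHodgeForProducts (F : FrobeniusOver W q) (𝒟 : Set (Polarized 𝒱)) : Prop :=
  ∀ (n : ℕ) (P : Fin (n + 1) → Polarized 𝒱), (∀ i, P i ∈ 𝒟) →
    (∀ j, TateIn F (nest ops n P).X j (W.gr (nest ops n P).X (2 * j))) ∧
      HodgeTypeOn W (nest ops n P).X (nest ops n P).D ⊤ ∧ HomEqNum W (nest ops n P).X

end Pool.Agent.Q56.HPS
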