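import Pool.Agent.Q56.HP.Real

/-!
# Hermitian forms on algebraic structures of a vector space
-/

set_option autoImplicit false

namespace Pool.Agent.Q56.HP

open Pool.Agent.Q56.CT

variable {K : Type*} [Field K] [CharZero K] [IsAlgClosed K] {σ : An K →ₐ[ℚ] ℂ}
  {V V₁ V₂ V₃ : Type*} [AddCommGroup V] [Module K V] [AddCommGroup V₁] [Module K V₁]
  [AddCommGroup V₂] [Module K V₂] [AddCommGroup V₃] [Module K V₃]

/-- The relation `M` (`x'` is the complex conjugate of `x`) and the form `β`, which is hermitian. -/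
structure HermRel (σ : An K →ₐ[ℚ] ℂ) (M : V → V → Prop) (β : V →ₗ[K] V →ₗ[K] K) : Prop where
  zero : M 0 0
  add : ∀ {x x' y y'}, M x x' → M y y' → M (x + y) (x' + y')
  smul : ∀ (a : An K) {x x'}, M x x' → M ((a : K) • x) (((cj σ a : An K) : K) • x')
  val : ∀ {x x' y y'}, M x x' → M y y' → ∃ t : An K, β x y' = t ∧ β x' y = (cj σ t : An K)
  symm : ∀ {x x' y y'}, M x x' → M y y' → β x y' = β y' x

/-- strict positivity -/
def PosRel (σ : An K →ₐ[ℚ] ℂ) (M : V → V → Prop) (β : V →ₗ[K] V →ₗ[K] K) : Prop :=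
  ∀ x x', M x x' → (x ≠ 0 ∨ x' ≠ 0) → PosK σ (β x x')

/-- an orthogonal family -/
structure Orth (σ : An K →ₐ[ℚ] ℂ) (M : V → V → Prop) (β : V →ₗ[K] V →ₗ[K] K) {ι : Type*}
    (ε ε' : ι → V) : Prop where
  rel : ∀ i, M (ε i) (ε' i)
  orth : ∀ i j, i ≠ j → β (ε i) (ε' j) = 0
  pos : ∀ i, PosK σ (β (ε i) (ε' i))
  symm : ∀ i j, β (ε i) (ε' j) = β (ε' j) (ε i)

namespace HermRel

variable {M : V → V → Prop} {β : V →ₗ[K] V →ₗ[K] K}

lemma sum (H : HermRel σ M β) {ι : Type*} (s : Finset ι) {x x' : ι → V}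
    (h : ∀ i ∈ s, M (x i) (x' i)) : M (∑ i ∈ s, x i) (∑ i ∈ s, x' i) := by
  classical
  induction s using Finset.induction_on with
  | empty => rw [Finset.sum_empty, Finset.sum_empty]; exact H.zero
  | insert a s ha ih =>
    rw [Finset.sum_insert ha, Finset.sum_insert ha]
    exact H.add (h a (Finset.mem_insert_self _ _)) (ih fun i hi =>
      h i (Finset.mem_insert_of_mem hi))

end HermRel

/-- **Positivity from an orthogonal family.** -/
theorem pos_of_orth {M : V → V → Prop} {β : V →ₗ[K] V →ₗ[K] K} {ι : Type*} [Fintype ι]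
    {ε ε' : ι → V} (O : Orth σ M β ε ε') {z z' : V} (hz : z ∈ Submodule.span K (Set.range ε))
    (hz' : z' ∈ Submodule.span K (Set.range ε'))
    (hval : ∀ i, ∃ t : An K, β z (ε' i) = t ∧ β z' (ε i) = (cj σ t : An K))
    (hne : z ≠ 0 ∨ z' ≠ 0) : PosK σ (β z z') := by
  classical
  obtain ⟨k, rfl⟩ := (Submodule.mem_span_range_iff_exists_fun K).1 hz
  obtain ⟨k', rfl⟩ := (Submodule.mem_span_range_iff_exists_fun K).1 hz'
  choose t ht ht' using hval
  have h1 : ∀ j, k j * β (ε j) (ε' j) = t j := by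
    intro j
    rw [← ht, map_sum, LinearMap.sum_apply, Finset.sum_eq_single j]
    · rw [map_smul, LinearMap.smul_apply, smul_eq_mul]
    · intro i _ hi
      rw [map_smul, LinearMap.smul_apply, O.orth i j hi, smul_zero]
    · intro h0; exact absurd (Finset.mem_univ _) h0
  have h2 : ∀ j, k' j * β (ε j) (ε' j) = (cj σ (t j) : An K) := by
    intro j
    rw [← ht', map_sum, LinearMap.sum_apply, Finset.sum_eq_single j]
    · rw [map_smul, LinearMap.smul_apply, smul_eq_mul, O.symm]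
    · intro i _ hi
      rw [map_smul, LinearMap.smul_apply, ← O.symm, O.orth j i (Ne.symm hi), smul_zero]
    · intro h0; exact absurd (Finset.mem_univ _) h0
  have h3 : β (∑ i, k i • ε i) (∑ i, k' i • ε' i) = ∑ i, k i * k' i * β (ε i) (ε' i) := by
    rw [map_sum β, LinearMap.sum_apply]
    refine Finset.sum_congr rfl fun i _ => ?_
    rw [map_sum, Finset.sum_eq_single i]
    · rw [map_smul, map_smul, LinearMap.smul_apply, smul_eq_mul, smul_eq_mul]
      ring
    · intro j _ hj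
      rw [map_smul, map_smul, LinearMap.smul_apply, O.orth i j (Ne.symm hj), smul_zero, smul_zero]
    · intro h0; exact absurd (Finset.mem_univ _) h0
  have h4 : ∀ i, ∃ s : An K, k i = s ∧ k' i = (cj σ s : An K) := by
    intro i
    obtain ⟨w, hw, hwr⟩ := O.pos i
    have hp : PosK σ ((w : An K) : K) := ⟨w, rfl, hwr⟩
    have hw0 : ((w : An K) : K) ≠ 0 := hp.ne_zero
    have hcw := hp.cj_eq
    refine ⟨t i / w, ?_, ?_⟩
    · have := h1 i
      rw [hw] at this
      push_cast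
      rw [eq_div_iff hw0, this]
    · have := h2 i
      rw [hw] at this
      rw [map_div₀, hcw]
      push_cast
      rw [eq_div_iff hw0, this]
  choose s hs hs' using h4
  rw [h3]
  have h5 : ∀ i, NonnegK σ (k i * k' i * β (ε i) (ε' i)) := by
    intro i
    rw [hs, hs']
    exact (NonnegK.norm (s i)).mul (Or.inr (O.pos i))
  refine PosK.sum _ (fun i _ => h5 i) ?_
  have h6 : ∃ i, s i ≠ 0 := by
    by_contra hcon
    push Not at hcon
    rcases hne with h | h
    · apply h
      refine Finset.sum_eq_zero fun i _ => ?_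
      rw [hs, hcon]
      simp
    · apply h
      refine Finset.sum_eq_zero fun i _ => ?_
      rw [hs', hcon]
      simp
  obtain ⟨i, hi⟩ := h6
  refine ⟨i, Finset.mem_univ _, ?_⟩
  rw [hs, hs']
  exact (PosK.norm hi).mul (O.pos i)

/-- **Orthogonal bases.** -/
theorem exists_orth [Module.Finite K V] {M : V → V → Prop} {β : V →ₗ[K] V →ₗ[K] K}
    (H : HermRel σ M β) (hpos : PosRel σ M β) :
    ∃ (N : ℕ) (ε ε' : Fin N → V), Orth σ M β ε ε' ∧ ∀ x x', M x x' →
      x ∈ Submodule.span K (Set.range ε) ∧ x' ∈ Submodule.span K (Set.range ε') := by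
  classical
  have h0 : ∃ ε ε' : Fin 0 → V, Orth σ M β ε ε' :=
    ⟨fun i => i.elim0, fun i => i.elim0, fun i => i.elim0, fun i => i.elim0, fun i => i.elim0,
      fun i => i.elim0⟩
  have hbd : ∀ (N : ℕ) (ε ε' : Fin N → V), Orth σ M β ε ε' → N ≤ Module.finrank K V := by
    intro N ε ε' O
    have hli : LinearIndependent K ε := by
      rw [Fintype.linearIndependent_iff]
      intro g hg j
      have h1 := congrArg (fun v => β v (ε' j)) hg
      simp only [map_sum, LinearMap.sum_apply, map_zero, LinearMap.zero_apply] at h1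
      rw [Finset.sum_eq_single j] at h1
      · rw [map_smul, LinearMap.smul_apply, smul_eq_mul] at h1
        exact (mul_eq_zero.1 h1).resolve_right (O.pos j).ne_zero
      · intro i _ hi
        rw [map_smul, LinearMap.smul_apply, O.orth i j hi, smul_zero]
      · intro h0; exact absurd (Finset.mem_univ _) h0
    have := hli.fintype_card_le_finrank
    rwa [Fintype.card_fin] at this
  have hex : ∃ N : ℕ, ¬ ∃ ε ε' : Fin N → V, Orth σ M β ε ε' := by
    refine ⟨Module.finrank K V + 1, ?_⟩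
    rintro ⟨ε, ε', O⟩
    have := hbd _ ε ε' O
    omega
  obtain ⟨N, hN1, hN2⟩ : ∃ N : ℕ, (∃ ε ε' : Fin N → V, Orth σ M β ε ε') ∧
      ¬ ∃ ε ε' : Fin (N + 1) → V, Orth σ M β ε ε' := by
    have h1 := Nat.find_spec hex
    have h2 : Nat.find hex ≠ 0 := by
      intro h3
      rw [h3] at h1
      exact h1 h0
    obtain ⟨N, hN⟩ := Nat.exists_eq_succ_of_ne_zero h2
    refine ⟨N, ?_, by rw [hN] at h1; exact h1⟩
    by_contra hcon
    exact Nat.find_min hex (m := N) (by omega) hcon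
  obtain ⟨ε, ε', O⟩ := hN1
  refine ⟨N, ε, ε', O, fun x x' hx => ?_⟩
  choose t ht ht' using fun i => H.val hx (O.rel i)
  choose w hw hwr using O.pos
  have hw0 : ∀ i, ((w i : An K) : K) ≠ 0 := fun i => (show PosK σ ((w i : An K) : K) from
    ⟨w i, rfl, hwr i⟩).ne_zero
  have hcw : ∀ i, cj σ (w i) = w i := fun i => (show PosK σ ((w i : An K) : K) from
    ⟨w i, rfl, hwr i⟩).cj_eq
  set s : Fin N → An K := fun i => -(t i / w i) with hs
  set y : V := x + ∑ i, ((s i : An K) : K) • ε i with hy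
  set y' : V := x' + ∑ i, ((cj σ (s i) : An K) : K) • ε' i with hy'
  have hM : M y y' := H.add hx (H.sum _ fun i _ => H.smul (s i) (O.rel i))
  have h1 : ∀ j, β y (ε' j) = 0 := by
    intro j
    rw [hy, map_add, LinearMap.add_apply, map_sum, LinearMap.sum_apply, Finset.sum_eq_single j]
    · rw [map_smul, LinearMap.smul_apply, smul_eq_mul, ht, hw, hs]
      push_cast
      rw [neg_mul, div_mul_cancel₀ _ (hw0 j), add_neg_cancel]
    · intro i _ hi
      rw [map_smul, LinearMap.smul_apply, O.orth i j hi, smul_zero]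
    · intro h0; exact absurd (Finset.mem_univ _) h0
  have h2 : ∀ j, β (ε j) y' = 0 := by
    intro j
    obtain ⟨r, hr, hr'⟩ := H.val (O.rel j) hM
    rw [← H.symm hM (O.rel j), h1] at hr'
    have h3 : cj σ r = 0 := by exact_mod_cast hr'.symm
    have h4 : r = 0 := cj_inj σ (by rw [h3, map_zero])
    rw [hr, h4]
    rfl
  have hy0 : y = 0 ∧ y' = 0 := by
    by_contra hcon
    have hne : y ≠ 0 ∨ y' ≠ 0 := by
      by_contra h3
      push Not at h3
      exact hcon h3
    apply hN2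
    refine ⟨Fin.cons y ε, Fin.cons y' ε', ?_, ?_, ?_, ?_⟩
    · intro i
      refine Fin.cases ?_ (fun i => ?_) i
      · exact hM
      · exact O.rel i
    · intro i j
      refine Fin.cases ?_ (fun i => ?_) i
      · refine Fin.cases ?_ (fun j => ?_) j
        · intro h; exact absurd rfl h
        · intro _; exact h1 j
      · refine Fin.cases ?_ (fun j => ?_) j
        · intro _; exact h2 i
        · intro h
          exact O.orth i j fun h3 => h (by rw [h3])
    · intro i
      refine Fin.cases ?_ (fun i => ?_) i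
      · exact hpos _ _ hM hne
      · exact O.pos i
    · intro i j
      refine Fin.cases ?_ (fun i => ?_) i
      · refine Fin.cases ?_ (fun j => ?_) j
        · exact H.symm hM hM
        · exact H.symm hM (O.rel j)
      · refine Fin.cases ?_ (fun j => ?_) j
        · exact H.symm (O.rel i) hM
        · exact O.symm i j
  constructor
  · have h3 : x = -∑ i, ((s i : An K) : K) • ε i := eq_neg_of_add_eq_zero_left hy0.1
    rw [h3]
    exact Submodule.neg_mem _ (Submodule.sum_mem _ fun i _ => Submodule.smul_mem _ _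
      (Submodule.subset_span ⟨i, rfl⟩))
  · have h3 : x' = -∑ i, ((cj σ (s i) : An K) : K) • ε' i := eq_neg_of_add_eq_zero_left hy0.2
    rw [h3]
    exact Submodule.neg_mem _ (Submodule.sum_mem _ fun i _ => Submodule.smul_mem _ _
      (Submodule.subset_span ⟨i, rfl⟩))

/-- **Positivity on a tensor product.** -/
theorem pos_tensor [Module.Finite K V₁] [Module.Finite K V₂] {M₁ : V₁ → V₁ → Prop}
    {M₂ : V₂ → V₂ → Prop} {M₃ : V₃ → V₃ → Prop} {β₁ : V₁ →ₗ[K] V₁ →ₗ[K] K}
    {β₂ : V₂ →ₗ[K] V₂ →ₗ[K] K} {β₃ : V₃ →ₗ[K] V₃ →ₗ[K] K} (H₁ : HermRel σ M₁ β₁)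
    (P₁ : PosRel σ M₁ β₁) (H₂ : HermRel σ M₂ β₂) (P₂ : PosRel σ M₂ β₂) (H₃ : HermRel σ M₃ β₃)
    (μ : V₁ →ₗ[K] V₂ →ₗ[K] V₃)
    (hμ : ∀ x x' y y', M₁ x x' → M₂ y y' → M₃ (μ x y) (μ x' y'))
    (hβ : ∀ x u y v, β₃ (μ x y) (μ u v) = β₁ x u * β₂ y v)
    {z z' : V₃} (hM : M₃ z z')
    (hz : z ∈ Submodule.span K {t | ∃ x x' y y', M₁ x x' ∧ M₂ y y' ∧ t = μ x y})
    (hz' : z' ∈ Submodule.span K {t | ∃ x x' y y', M₁ x x' ∧ M₂ y y' ∧ t = μ x' y'})
    (hne : z ≠ 0 ∨ z' ≠ 0) : PosK σ (β₃ z z') := by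
  obtain ⟨N₁, ε, ε', O₁, hs₁⟩ := exists_orth H₁ P₁
  obtain ⟨N₂, η, η', O₂, hs₂⟩ := exists_orth H₂ P₂
  have hmul : ∀ {p₁ : Submodule K V₁} {p₂ : Submodule K V₂} {ι₁ ι₂ : Type} {a : ι₁ → V₁}
      {b : ι₂ → V₂} {x : V₁} {y : V₂}, x ∈ Submodule.span K (Set.range a) →
      y ∈ Submodule.span K (Set.range b) →
      μ x y ∈ Submodule.span K (Set.range fun i : ι₁ × ι₂ => μ (a i.1) (b i.2)) := by
    intro _ _ ι₁ ι₂ a b x y hx hy
    induction hx using Submodule.span_induction with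
    | zero => rw [map_zero, LinearMap.zero_apply]; exact Submodule.zero_mem _
    | add x x' _ _ hx hx' =>
      rw [map_add, LinearMap.add_apply]; exact Submodule.add_mem _ hx hx'
    | smul c x _ hx => rw [map_smul, LinearMap.smul_apply]; exact Submodule.smul_mem _ _ hx
    | mem x hx =>
      obtain ⟨i, rfl⟩ := hx
      induction hy using Submodule.span_induction with
      | zero => rw [map_zero]; exact Submodule.zero_mem _
      | add x x' _ _ hx hx' => rw [map_add]; exact Submodule.add_mem _ hx hx'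
      | smul c x _ hx => rw [map_smul]; exact Submodule.smul_mem _ _ hx
      | mem y hy =>
        obtain ⟨j, rfl⟩ := hy
        exact Submodule.subset_span ⟨(i, j), rfl⟩
  have O₃ : Orth σ M₃ β₃ (fun i : Fin N₁ × Fin N₂ => μ (ε i.1) (η i.2))
      (fun i => μ (ε' i.1) (η' i.2)) := by
    refine ⟨fun i => hμ _ _ _ _ (O₁.rel _) (O₂.rel _), fun i j hij => ?_, fun i => ?_,
      fun i j => ?_⟩
    · rw [hβ]
      by_cases h1 : i.1 = j.1
      · have h2 : i.2 ≠ j.2 := fun h2 => hij (Prod.ext h1 h2)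
        rw [O₂.orth _ _ h2, mul_zero]
      · rw [O₁.orth _ _ h1, zero_mul]
    · rw [hβ]; exact (O₁.pos _).mul (O₂.pos _)
    · rw [hβ, hβ, O₁.symm, O₂.symm]
  refine pos_of_orth O₃ ?_ ?_ (fun i => H₃.val hM (O₃.rel i)) hne
  · refine (Submodule.span_le.2 ?_) hz
    rintro t ⟨x, x', y, y', hx, hy, rfl⟩
    exact hmul (p₁ := ⊤) (p₂ := ⊤) (hs₁ x x' hx).1 (hs₂ y y' hy).1
  · refine (Submodule.span_le.2 ?_) hz'
    rintro t ⟨x, x', y, y', hx, hy, rfl⟩
    exact hmul (p₁ := ⊤) (p₂ := ⊤) (hs₁ x x' hx).2 (hs₂ y y' hy).2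

end Pool.Agent.Q56.HP
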