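import Pool.Agent.Q56.HP.Base
import Pool.Agent.Q56.HP.Defs

/-!
# The group law and the form
-/

set_option autoImplicit false
set_option linter.unusedSectionVars false

open CategoryTheory AlgebraicGeometry

universe u v w

namespace Pool.Agent.Q56.HP

open Pool.Agent.H914 Pool.Agent.H914.VarClass Pool.Agent.H914.VarClass.Obj
  Pool.Agent.H914.WeilCohomology Pool.Agent.H281R3.HT Pool.Agent.W552
  Pool.Agent.W458.MF Pool.Agent.Q56.CT Pool.Agent.Q56.CTS Pool.Agent.Q56.FE Pool.Agent.Q56.FH
open Pool.Agent.Q56.FR (fr)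
open Pool.Agent.Q56.HPS (IsComb)

/-- Rational numbers which select the second coefficient. -/
lemma exists_vand {m : ℕ} {v : Fin (m + 1) → ℚ} (hv : Function.Injective v) :
    ∃ r : Fin (m + 1) → ℚ, ∀ t ≤ m, ∑ b, r b * v b ^ t = if t = 1 then 1 else 0 := by
  classical
  have h1 : (Matrix.vandermonde v).det ≠ 0 := Matrix.det_vandermonde_ne_zero_iff.2 hv
  have h2 : IsUnit (Matrix.vandermonde v).det := isUnit_iff_ne_zero.2 h1
  let e : Fin (m + 1) → ℚ := fun t => if (t : ℕ) = 1 then 1 else 0
  refine ⟨Matrix.vecMul e (Matrix.vandermonde v)⁻¹, fun t ht => ?_⟩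
  have h3 : Matrix.vecMul (Matrix.vecMul e (Matrix.vandermonde v)⁻¹) (Matrix.vandermonde v) = e := by
    rw [Matrix.vecMul_vecMul, Matrix.nonsing_inv_mul _ h2, Matrix.vecMul_one]
  have h4 := congrFun h3 ⟨t, by omega⟩
  exact h4

variable {k : Type u} [Field k] {𝒱 : VarClass k} {ops : CycleOps 𝒱}
  {W : WeilCohomology.{u, v} ops} {A X : 𝒱.Obj}

/-- The classes of degree `m` are spanned by the products of `m` classes of degree one. -/
lemma gr_words (hg : Generates (W.gr A 1)) {m : ℕ} {x : W.H A} (hx : x ∈ W.gr A m) :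
    x ∈ Submodule.span W.K {y | ∃ l : List (W.H A), l.length = m ∧ (∀ b ∈ l, b ∈ W.gr A 1) ∧
      y = l.prod} := by
  have hl : ∀ l : List (W.H A), (∀ b ∈ l, b ∈ W.gr A 1) → l.prod ∈ W.gr A l.length := by
    intro l
    induction l with
    | nil => intro _; exact W.one_mem A
    | cons b l ih =>
      intro h
      rw [List.prod_cons, List.length_cons, add_comm]
      exact W.mul_mem (h b List.mem_cons_self) (ih fun b' hb' => h b' (List.mem_cons_of_mem _ hb'))
  have h1 := hg x
  rw [← proj_same (W.isInternal A) hx]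
  clear hx
  induction h1 using Submodule.span_induction with
  | mem y hy =>
    obtain ⟨l, hl1, rfl⟩ := hy
    by_cases h : l.length = m
    · subst h
      rw [proj_same _ (hl l hl1)]
      exact Submodule.subset_span ⟨l, rfl, hl1, rfl⟩
    · rw [proj_ne _ (hl l hl1) h]
      exact Submodule.zero_mem _
  | zero => rw [map_zero]; exact Submodule.zero_mem _
  | add x y _ _ hx hy => rw [map_add]; exact Submodule.add_mem _ hx hy
  | smul c x _ hx => rw [map_smul]; exact Submodule.smul_mem _ _ hx

lemma isComb_fst : IsComb W A 1 0 (fst A A) := by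
  intro x _
  simp

lemma isComb_snd : IsComb W A 0 1 (snd A A) := by
  intro x _
  simp

/-- **The binomial expansion.** -/
theorem exists_binom (hg : Generates (W.gr A 1)) {m : ℕ} {x : W.H A} (hx : x ∈ W.gr A m) :
    ∃ u : ℕ → W.H (A.prod A), (∀ t ≤ m, u t ∈ tensorSpan (W.map (fst A A)) (W.map (snd A A))
      (W.gr A (m - t)) (W.gr A t)) ∧ ∀ (a b : ℤ) (μ : A.prod A ⟶ A), IsComb W A a b μ →
        W.map μ x = ∑ t ∈ Finset.range (m + 1), ((a : W.K) ^ (m - t) * (b : W.K) ^ t) • u t := by
  have h1 := gr_words hg hx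
  clear hx
  induction h1 using Submodule.span_induction with
  | zero =>
    exact ⟨fun _ => 0, fun _ _ => Submodule.zero_mem _, fun _ _ _ _ => by simp⟩
  | add x y _ _ hx hy =>
    obtain ⟨u, h1, h2⟩ := hx
    obtain ⟨u', h1', h2'⟩ := hy
    refine ⟨fun t => u t + u' t, fun t ht => Submodule.add_mem _ (h1 t ht) (h1' t ht),
      fun a b μ hμ => ?_⟩
    rw [map_add, h2 a b μ hμ, h2' a b μ hμ, ← Finset.sum_add_distrib]
    exact Finset.sum_congr rfl fun t _ => (smul_add _ _ _).symm
  | smul c x _ hx =>
    obtain ⟨u, h1, h2⟩ := hx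
    refine ⟨fun t => c • u t, fun t ht => Submodule.smul_mem _ _ (h1 t ht), fun a b μ hμ => ?_⟩
    rw [map_smul, h2 a b μ hμ, Finset.smul_sum]
    exact Finset.sum_congr rfl fun t _ => smul_comm _ _ _
  | mem y hy =>
    obtain ⟨l, rfl, hl, rfl⟩ := hy
    induction l with
    | nil =>
      refine ⟨fun _ => 1, fun t ht => ?_, fun a b μ _ => ?_⟩
      · obtain rfl : t = 0 := by simpa using ht
        refine Submodule.subset_span ⟨1, W.one_mem A, 1, W.one_mem A, ?_⟩
        rw [map_one, map_one, mul_one]
      · simp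
    | cons y l ih =>
      obtain ⟨u, h1, h2⟩ := ih fun b hb => hl b (List.mem_cons_of_mem _ hb)
      have hy := hl y List.mem_cons_self
      set m := l.length with hm
      refine ⟨fun t => (if t ≤ m then W.map (fst A A) y * u t else 0) +
        (if 1 ≤ t then W.map (snd A A) y * u (t - 1) else 0), fun t ht => ?_,
        fun a b μ hμ => ?_⟩
      · rw [List.length_cons, ← hm] at ht ⊢
        refine Submodule.add_mem _ ?_ ?_
        · split_ifs with h
          · have h3 := h1 t h
            generalize u t = v at h3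
            unfold tensorSpan at h3
            induction h3 using Submodule.span_induction with
            | zero => rw [mul_zero]; exact Submodule.zero_mem _
            | add x z _ _ hx hz => rw [mul_add]; exact Submodule.add_mem _ hx hz
            | smul c x _ hx => rw [mul_smul_comm]; exact Submodule.smul_mem _ _ hx
            | mem z hz =>
              obtain ⟨p, hp, q, hq, rfl⟩ := hz
              refine Submodule.subset_span ⟨y * p, ?_, q, hq, ?_⟩
              · have := W.mul_mem hy hp
                rwa [show 1 + (m - t) = m + 1 - t by omega] at this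
              · rw [map_mul, mul_assoc]
          · exact Submodule.zero_mem _
        · split_ifs with h
          · have h3 := h1 (t - 1) (by omega)
            generalize u (t - 1) = v at h3
            unfold tensorSpan at h3
            induction h3 using Submodule.span_induction with
            | zero => rw [mul_zero]; exact Submodule.zero_mem _
            | add x z _ _ hx hz => rw [mul_add]; exact Submodule.add_mem _ hx hz
            | smul c x _ hx => rw [mul_smul_comm]; exact Submodule.smul_mem _ _ hx
            | mem z hz =>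
              obtain ⟨p, hp, q, hq, rfl⟩ := hz
              have h4 : W.map (snd A A) y * (W.map (fst A A) p * W.map (snd A A) q) =
                  (-1 : W.K) ^ (1 * (m - (t - 1))) •
                    (W.map (fst A A) p * W.map (snd A A) (y * q)) := by
                rw [← mul_assoc, W.comm (W.map_mem (snd A A) hy) (W.map_mem (fst A A) hp),
                  smul_mul_assoc, map_mul, mul_assoc]
              rw [h4]
              refine Submodule.smul_mem _ _ (Submodule.subset_span ⟨p, ?_, y * q, ?_, rfl⟩)
              · rwa [show m + 1 - t = m - (t - 1) by omega]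
              · have := W.mul_mem hy hq
                rwa [show 1 + (t - 1) = t by omega] at this
          · exact Submodule.zero_mem _
      · rw [List.prod_cons, map_mul, h2 a b μ hμ, hμ y hy, List.length_cons, ← hm, add_mul,
          smul_mul_assoc, smul_mul_assoc, Finset.mul_sum, Finset.mul_sum, Finset.smul_sum,
          Finset.smul_sum]
        have e1 : ∀ t : ℕ, ((a : W.K) ^ (m + 1 - t) * (b : W.K) ^ t) •
            ((if t ≤ m then W.map (fst A A) y * u t else 0) +
              (if 1 ≤ t then W.map (snd A A) y * u (t - 1) else 0)) =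
            ((a : W.K) ^ (m + 1 - t) * (b : W.K) ^ t) •
              (if t ≤ m then W.map (fst A A) y * u t else 0) +
            ((a : W.K) ^ (m + 1 - t) * (b : W.K) ^ t) •
              (if 1 ≤ t then W.map (snd A A) y * u (t - 1) else 0) := fun t => smul_add _ _ _
        rw [Finset.sum_congr rfl fun t _ => e1 t, Finset.sum_add_distrib]
        congr 1
        · rw [Finset.sum_range_succ _ (m + 1), if_neg (by omega), smul_zero, add_zero]
          refine Finset.sum_congr rfl fun t ht => ?_
          have ht' := Finset.mem_range.1 ht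
          rw [if_pos (by omega), mul_smul_comm, smul_smul,
            show m + 1 - t = (m - t) + 1 by omega]
          congr 1
          ring
        · rw [Finset.sum_range_succ' _ (m + 1), if_neg (by omega), smul_zero, add_zero]
          refine Finset.sum_congr rfl fun t ht => ?_
          rw [if_pos (by omega), mul_smul_comm, smul_smul, Nat.add_sub_cancel,
            show m + 1 - (t + 1) = m - t by omega]
          congr 1
          ring

/-- **Similitudes.** -/
theorem bf_map_sim {D : X.Cycles} {f : Module.End W.K (W.H X)} (G : Fr W X D f)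
    (t : LefStr (W.isInternal X) X.dim (LinearMap.mulLeft W.K (W.cl X D)) f)
    (htop : ∃ b, W.tr X b ≠ 0) {φ : X ⟶ X} {c : ℚ} (hc : c ≠ 0)
    (hD : W.map φ (W.cl X D) = (c : W.K) • W.cl X D) {m : ℕ} (x : W.H X) {y : W.H X}
    (hy : y ∈ W.gr X m) :
    bf W X D f (W.map φ x) (W.map φ y) = (c : W.K) ^ m * bf W X D f x y := by
  have hcK : (c : W.K) ≠ 0 := by exact_mod_cast hc
  set L : Module.End W.K (W.H X) := LinearMap.mulLeft W.K (W.cl X D) with hL
  -- the map is injective
  have h1 : (1 : W.H X) ≠ 0 := by
    intro h0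
    obtain ⟨b, hb⟩ := htop
    apply hb
    rw [← one_mul b, h0, zero_mul, map_zero]
  have hφL : ∀ (i : ℕ) (a : W.H X), W.map φ ((L ^ i) a) = (c : W.K) ^ i • (L ^ i) (W.map φ a) := by
    intro i a
    induction i with
    | zero => simp
    | succ i ih =>
      rw [pow_succ', Module.End.mul_apply, hL, LinearMap.mulLeft_apply, map_mul, hD, ← hL, ih,
        smul_mul_smul_comm, ← pow_succ']
      rfl
  set b : W.H X := (L ^ X.dim) 1 with hb
  have hbm : b ∈ W.gr X (2 * X.dim) := by
    have := pow_L_mem t.hL (W.one_mem X) X.dim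
    rwa [zero_add] at this
  have hb0 : W.tr X b ≠ 0 := by
    intro h0
    apply h1
    exact (t.hHL 0 (Nat.zero_le _)).1 1 (W.one_mem X) (by
      rw [Nat.sub_zero]; exact eq_zero_of_top hbm h0)
  have hφb : W.map φ b = (c : W.K) ^ X.dim • b := by rw [hb, hφL, map_one]
  have hδ := tr_map_of_top hbm hb0 hφb
  have hinj : Function.Injective (W.map φ) := by
    intro u v h
    rw [← sub_eq_zero]
    apply W.nondeg
    intro z
    have h2 := hδ ((u - v) * z)
    rw [map_mul, map_sub, h, sub_self, zero_mul, map_zero] at h2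
    exact (mul_eq_zero.1 h2.symm).resolve_left (pow_ne_zero _ hcK)
  have hsurj : Function.Surjective (W.map φ) :=
    (LinearMap.injective_iff_surjective (f := (W.map φ).toLinearMap)).1 hinj
  let e : W.H X ≃ₐ[W.K] W.H X := AlgEquiv.ofBijective (W.map φ) ⟨hinj, hsurj⟩
  have he : ∀ z, e z = W.map φ z := fun _ => rfl
  have hgr' : ∀ i, ∀ z ∈ W.gr X i, (e.symm : W.H X →ₐ[W.K] W.H X) z ∈ W.gr X i := by
    intro i z hz
    have h2 : ∀ j, j ≠ i → proj (W.isInternal X) j (e.symm z) = 0 := by
      intro j hj
      apply hinj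
      rw [map_zero]
      have h3 : ∀ y, W.map φ (proj (W.isInternal X) j y) =
          proj (W.isInternal X) j (W.map φ y) := by
        intro y
        refine gr_induction (W.isInternal X) (p := fun y => W.map φ (proj (W.isInternal X) j y) =
          proj (W.isInternal X) j (W.map φ y)) ?_ ?_ y
        · intro l y hy
          by_cases hl : l = j
          · subst hl
            rw [proj_same _ hy, proj_same _ (W.map_mem φ hy)]
          · rw [proj_ne _ hy hl, proj_ne _ (W.map_mem φ hy) hl, map_zero]
        · intro u v hu hv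
          rw [map_add, map_add, hu, hv, map_add, map_add]
      rw [h3, ← he, AlgEquiv.apply_symm_apply, proj_ne _ hz (Ne.symm hj)]
    have h4 : e.symm z = proj (W.isInternal X) i (e.symm z) := by
      have hsum := sum_proj (W.isInternal X) (N := max (2 * X.dim + 1) (i + 1))
        (fun j hj => W.gr_eq_bot X j (by omega))
      have h5 := congrArg (fun G => G (e.symm z)) hsum
      simp only [LinearMap.sum_apply, Module.End.one_apply] at h5
      have h6 : ∑ j ∈ Finset.range (max (2 * X.dim + 1) (i + 1)),
          proj (W.isInternal X) j (e.symm z) = proj (W.isInternal X) i (e.symm z) :=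
        Finset.sum_eq_single_of_mem i (Finset.mem_range.2 (by omega)) fun j _ hj => h2 j hj
      rw [h5] at h6
      exact h6
    have h6 : (e.symm : W.H X →ₐ[W.K] W.H X) z = e.symm z := rfl
    rw [h6, h4]
    exact proj_mem _ _ _
  have h2 := bf_sim G t htop (g := (e : W.H X →ₐ[W.K] W.H X))
    (g' := (e.symm : W.H X →ₐ[W.K] W.H X)) hc (fun z => e.apply_symm_apply z)
    (fun z => e.symm_apply_apply z) (fun i z hz => W.map_mem φ hz) hgr' hD x (W.map φ y)
  have h3 : (e.symm : W.H X →ₐ[W.K] W.H X) (W.map φ y) = y := e.symm_apply_apply y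
  have h4 : (e : W.H X →ₐ[W.K] W.H X) x = W.map φ x := rfl
  rw [h3, h4, scal_apply _ _ hy, map_smul, smul_eq_mul] at h2
  exact h2

/-- **The form and the group law.** -/
theorem bf_comb {D : X.Cycles} {f : Module.End W.K (W.H X)} (G : Fr W X D f)
    (htop : ∃ b, W.tr X b ≠ 0) (hg : Generates (W.gr X 1))
    (hμ : ∀ a b : ℤ, ∃ μ : X.prod X ⟶ X, IsComb W X a b μ) {b : ℤ} {μ : X.prod X ⟶ X}
    (hb : IsComb W X 1 b μ) {m : ℕ} {x y : W.H X} (hy : y ∈ W.gr X m) :
    bf W (X.prod X) (ops.pull (fst X X) D + ops.pull (snd X X) D) (extSum W f f)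
      (W.map μ x) (W.map μ y) = (1 + (b : W.K) ^ 2) ^ m * (bf W X D f x y * bf W X D f 1 1) := by
  obtain ⟨μ', hμ'⟩ := hμ (-b) 1
  have hDgr : W.cl X D ∈ W.gr X 2 := by
    have := W.cl_mem G.hD
    rwa [mul_one] at this
  obtain ⟨u, -, hu⟩ := exists_binom hg hDgr
  have e1 := hu 1 b μ hb
  have e2 := hu (-b) 1 μ' hμ'
  have e3 := hu 1 0 _ isComb_fst
  have e4 := hu 0 1 _ isComb_snd
  simp only [Finset.sum_range_succ, Finset.sum_range_zero, Int.cast_one, Int.cast_zero,
    Int.cast_neg, one_pow, one_mul, mul_one, pow_zero, pow_one, zero_add, Nat.sub_zero,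
    Nat.sub_self, zero_mul, zero_smul, add_zero, one_smul, mul_zero, ne_eq, OfNat.ofNat_ne_zero,
    not_false_eq_true, zero_pow, Nat.add_one_sub_one, even_two, Even.neg_pow] at e1 e2 e3 e4
  set M : X.prod X ⟶ X.prod X := lift μ μ' with hM
  have hM1 : ∀ z, W.map M (W.map (fst X X) z) = W.map μ z := by
    intro z
    rw [← W.map_comp, hM, lift_fst]
  have hM2 : ∀ z, W.map M (W.map (snd X X) z) = W.map μ' z := by
    intro z
    rw [← W.map_comp, hM, lift_snd]
  have hcl : W.cl (X.prod X) (ops.pull (fst X X) D + ops.pull (snd X X) D) =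
      W.map (fst X X) (W.cl X D) + W.map (snd X X) (W.cl X D) := by
    rw [map_add, W.cl_pull, W.cl_pull]
  have hD : W.map M (W.cl (X.prod X) (ops.pull (fst X X) D + ops.pull (snd X X) D)) =
      (((1 + b ^ 2 : ℤ) : ℚ) : W.K) •
        W.cl (X.prod X) (ops.pull (fst X X) D + ops.pull (snd X X) D) := by
    rw [hcl, map_add, hM1, hM2, e1, e2, e3, e4]
    push_cast
    module
  have hc : ((1 + b ^ 2 : ℤ) : ℚ) ≠ 0 := by
    have : (0 : ℤ) < 1 + b ^ 2 := by positivity
    exact_mod_cast this.ne'
  have GG := G.prod G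
  have htop' : ∃ c, W.tr (X.prod X) c ≠ 0 := by
    obtain ⟨c, hc⟩ := htop
    refine ⟨W.map (fst X X) c * W.map (snd X X) c, ?_⟩
    rw [W.tr_prod]
    exact mul_ne_zero hc hc
  have h1 := bf_map_sim GG (fr_ls GG) htop' hc hD (W.map (fst X X) x)
    (W.map_mem (fst X X) hy)
  rw [hM1, hM1] at h1
  have h2 := G.bf_ext G x y 1 1
  have h3 : ∀ z : W.H X, H281R3.HT.ext W z (1 : W.H X) = W.map (fst X X) z := by
    intro z
    rw [H281R3.HT.ext, map_one, mul_one]
  rw [h3, h3] at h2
  rw [h1, h2]
  push_cast
  ring

end Pool.Agent.Q56.HP
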