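import Pool.Agent.Q56.HP.Class

/-!
# Hodge type from codimension two: the main theorem
-/

set_option autoImplicit false
set_option linter.unusedSectionVars false

open CategoryTheory AlgebraicGeometry

universe u v w

namespace Pool.Agent.Q56.HP

open Pool.Agent.H914 Pool.Agent.H914.VarClass Pool.Agent.H914.VarClass.Obj
  Pool.Agent.H914.WeilCohomology Pool.Agent.H281R3.HT Pool.Agent.W552 Pool.Agent.W536.RR
  Pool.Agent.W458.MF Pool.Agent.Q56.CT Pool.Agent.Q56.CTS Pool.Agent.Q56.FE Pool.Agent.Q56.FH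
  Pool.Agent.Q56.HPS
open Pool.Agent.Q56.FR (fr gen_pull)

variable {k : Type u} [Field k] {𝒱 : VarClass k} {ops : CycleOps 𝒱}
  {W : WeilCohomology.{u, v} ops} [IsAlgClosed W.K] {σ : An W.K →ₐ[ℚ] ℂ}
  {p : ℕ} [Fact p.Prime] {a : ℕ} {F : FrobeniusOver W (p ^ a)}

section Occ

variable {ι : Type w} {Pf : ι → Polarized 𝒱} {f Φ : ∀ i, Module.End W.K (W.H (Pf i).X)}
  {isA : ι → Prop} (D : Dat F σ Pf f Φ)

include D in
/-- Eigenvalues occur. -/
lemma occ_at {i : ι} {z : W.K} (h : IsEigenvalue F (Pf i).X 1 z) :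
    1 ≤ (Pf i).X.dim ∧ ∃ x ∈ LS F (Pf i) (Sum.inl z), x ≠ 0 := by
  obtain ⟨x, hx, hx0, hxz⟩ := h
  have hdim : 1 ≤ (Pf i).X.dim := by
    by_contra hd
    rw [W.gr_eq_bot _ _ (by omega)] at hx
    exact hx0 ((Submodule.mem_bot _).1 hx)
  refine ⟨hdim, x, ⟨hx, hxz, ?_⟩, hx0⟩
  have h1 := pow_L_mem (mulLeft_isHom (W := W) (D.loc i).F.hD) hx ((Pf i).X.dim - 1 + 1)
  rw [W.gr_eq_bot _ _ (by omega)] at h1
  exact (Submodule.mem_bot _).1 h1

include D in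
/-- words of letters of the first kind -/
lemma arr_one {S : Multiset W.K} {n : ℕ} {c : Fin (n + 1) → ι}
    {lab : Fin (n + 1) → W.K ⊕ ℕ × W.K} (harr : Arr Pf isA (p ^ a) c lab) (h : lw lab = LA S) :
    ∀ i, isA (c i) ∧ dgL (lab i) = 1 := by
  intro i
  have h1 : lab i ∈ lw lab := Multiset.mem_map_of_mem lab (Finset.mem_univ_val i)
  rw [h] at h1
  obtain ⟨z, -, hz⟩ := Multiset.mem_map.1 h1
  exact ⟨(harr i).2.2 z hz.symm, by rw [← hz]; rfl⟩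

/-- **Pairs of conjugate letters.** -/
theorem pair_of (hH : ∀ c : Fin 2 → ι, (∀ i, isA (c i)) →
      HodgeTypeOn W (nest ops 1 fun i => Pf (c i)).X (nest ops 1 fun i => Pf (c i)).D
        (W.gr (nest ops 1 fun i => Pf (c i)).X 2)) (z z' : W.K) :
    D.Pos isA ({Sum.inl z} + {Sum.inl z'}) := by
  intro n c lab harr hlab
  have hn : n = 1 := by
    have h3 := congrArg Multiset.card hlab
    rw [lw, Multiset.card_map, Finset.card_val, Finset.card_univ, Fintype.card_fin,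
      Multiset.card_add, Multiset.card_singleton, Multiset.card_singleton] at h3
    omega
  subst hn
  have h1 := arr_one D (S := {z} + {z'}) harr (by rw [hlab, LA_add]; rfl)
  refine D.nn_of_rat (fun i => ⟨(harr i).1, (harr i).2.1⟩) fun x hx hxV hx0 => ?_
  refine D.rat_of_hodge (fun i => (harr i).1) (hH c fun i => (h1 i).1) ?_ hx hxV hx0
  intro y hy
  have h2 := DG_gr (VD_le_DG hy)
  rwa [Fin.sum_univ_two, (h1 0).2, (h1 1).2] at h2

/-- **The words of codimension two.** -/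
theorem four_of (hocc : ∀ z : W.K, IsWeilNumber (p ^ a) 1 z → Dat.Occ F Pf isA (Sum.inl z))
    {iE : ι} (hE : isA iE) {e : W.K} (he : e * e = ((p ^ a : ℕ) : W.K))
    (heE : IsEigenvalue F (Pf iE).X 1 e)
    (hH : ∀ c : Fin 3 → ι, (∀ i, isA (c i)) →
      HodgeTypeOn W ((Pf iE).prod ops (nest ops 2 fun i => Pf (c i))).X
        ((Pf iE).prod ops (nest ops 2 fun i => Pf (c i))).D
        (tensorSpan (W.map (fst (Pf iE).X (nest ops 2 fun i => Pf (c i)).X))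
          (W.map (snd (Pf iE).X (nest ops 2 fun i => Pf (c i)).X)) (W.gr (Pf iE).X 1)
          (W.gr (nest ops 2 fun i => Pf (c i)).X 3)))
    {z y : W.K} (hz : IsWeilNumber (p ^ a) 1 z) (hy : IsWeilNumber (p ^ a) 1 y)
    (hyz : y * y = e * z) :
    D.Ex isA ({Sum.inl e} + {Sum.inl (((p ^ a : ℕ) : W.K) / z)} + {Sum.inl y} + {Sum.inl y}) := by
  have hq : 0 < p ^ a := pow_pos (Fact.out : p.Prime).pos a
  have heW : IsWeilNumber (p ^ a) 1 e := by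
    apply weil_root (n := 2) two_pos
    rw [pow_two, he]
    exact weil_q (p ^ a)
  obtain ⟨dE, xE, hxE, hxE0⟩ := occ_at D heE
  obtain ⟨i1, d1, w1, a1, x1, hx1, hx10⟩ := hocc _ (weil_conj hq hz)
  obtain ⟨i2, d2, w2, a2, x2, hx2, hx20⟩ := hocc _ hy
  let c : Fin (3 + 1) → ι := Fin.cons iE ![i1, i2, i2]
  let lab : Fin (3 + 1) → W.K ⊕ ℕ × W.K :=
    Fin.cons (Sum.inl e) ![Sum.inl (((p ^ a : ℕ) : W.K) / z), Sum.inl y, Sum.inl y]
  have harr : Arr Pf isA (p ^ a) c lab := by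
    intro i
    refine Fin.cases ?_ (fun i => ?_) i
    · exact ⟨dE, heW, fun _ _ => hE⟩
    · fin_cases i
      · exact ⟨d1, w1, a1⟩
      · exact ⟨d2, w2, a2⟩
      · exact ⟨d2, w2, a2⟩
  have hok : Dat.OkW Pf (p ^ a) c lab := fun i => ⟨(harr i).1, (harr i).2.1⟩
  have hlab : lw lab = {Sum.inl e} + {Sum.inl (((p ^ a : ℕ) : W.K) / z)} + {Sum.inl y} +
    {Sum.inl y} := rfl
  have hT : TL (p ^ a) lab := by
    refine ⟨2, by rw [Fin.sum_univ_four]; rfl, ?_⟩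
    rw [Fin.prod_univ_four]
    change e * (((p ^ a : ℕ) : W.K) / z) * y * y = _
    have hz0 := weil_ne hq hz
    rw [mul_assoc _ y y, hyz, ← he]
    field_simp
  have hex : ∀ i, ∃ x ∈ LS F (Pf (c i)) (lab i), x ≠ 0 := by
    intro i
    refine Fin.cases ?_ (fun i => ?_) i
    · exact ⟨xE, hxE, hxE0⟩
    · fin_cases i
      · exact ⟨x1, hx1, hx10⟩
      · exact ⟨x2, hx2, hx20⟩
      · exact ⟨x2, hx2, hx20⟩
  choose x hx hx0 using hex
  obtain ⟨y1, y2, hy12, hy1, -⟩ := D.exists_mr hok hT ⟨_, VV_nw hx, D.nw_ne hx0⟩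
  have hc : ∀ i, isA ((![i1, i2, i2] : Fin 3 → ι) i) := by
    intro i
    fin_cases i
    · exact a1 _ rfl
    · exact a2 _ rfl
    · exact a2 _ rfl
  have hnn : D.NN c lab := by
    refine D.nn_of_rat hok fun x hx hxV hx0 => ?_
    refine D.rat_of_hodge (fun i => (harr i).1) (hH ![i1, i2, i2] hc) ?_ hx hxV hx0
    let c' : Fin 3 → ι := ![i1, i2, i2]
    intro v hv
    refine (Submodule.span_le (p := (tensorSpan (W.map (fst (Pf iE).X
      (nest ops 2 fun i => Pf (c' i)).X)) (W.map (snd (Pf iE).X (nest ops 2 fun i => Pf (c' i)).X))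
        (W.gr (Pf iE).X 1) (W.gr (nest ops 2 fun i => Pf (c' i)).X 3)))).2 ?_ hv
    rintro _ ⟨x, hx, rfl⟩
    refine Submodule.subset_span ⟨x 0, (hx 0).1, nw W (fun i : Fin 3 => Pf (c' i))
      fun i => x i.succ, ?_, ?_⟩
    · have h2 := DG_gr (W := W) (P := fun i : Fin 3 => Pf (c' i))
        (δ := fun i => dgL (lab i.succ)) (Submodule.subset_span
          ⟨fun i => x i.succ, fun i => (hx i.succ).1, rfl⟩)
      rw [Fin.sum_univ_three] at h2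
      exact h2
    · exact nw_succ (W := W) (P := fun i => Pf (c i)) x
  exact ⟨3, c, lab, harr, hlab, y1, y2, hy12, hnn y1 y2 hy12 (Or.inl hy1)⟩

end Occ

variable {𝒜 : Set 𝒱.Obj} {𝒮 𝒬 : Set (Polarized 𝒱)}

/-- **Codimension two decides.** -/
theorem forward (ha : 0 < a) (hA : IsAbelianClass F 𝒜) (hP : IsPolarizedClass W 𝒜 𝒮)
    {E : Polarized 𝒱} (hE : E ∈ 𝒮) {e : W.K} (he : e * e = ((p ^ a : ℕ) : W.K))
    (heE : IsEigenvalue F E.X 1 e)
    (hQ : ∀ Y ∈ 𝒬, IsGoodPolarized W Y ∧ ∀ i ≤ Y.X.dim, RiemannIn F Y.X i)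
    (h1 : CodimensionTwo F 𝒜 𝒮 E) (h2 : MixedTateHodge F 𝒬 𝒮) {n : ℕ}
    {P : Fin (n + 1) → Polarized 𝒱} (hPP : ∀ i, P i ∈ 𝒮 ∪ 𝒬) :
    StrongTateAll F (nest ops n P).X ∧ HodgeType W (nest ops n P).X (nest ops n P).D ∧
      HomEqNum W (nest ops n P).X := by
  classical
  obtain ⟨σ⟩ := exists_emb W.K
  obtain ⟨f, Φ, D⟩ := exists_dat σ ha hA hP hQ
    (fun A hA' => (strong_iff_onto (hA.semi A hA') 2).1 (h1.1 A hA'))
    (fun Y hY P hP' i hi hi' => (h2 Y hY P hP' i hi hi').1)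
  let isA : (𝒮 ∪ 𝒬 : Set (Polarized 𝒱)) → Prop := fun i => i.1 ∈ 𝒮
  have hocc : ∀ z : W.K, IsWeilNumber (p ^ a) 1 z →
      Dat.Occ F (fun i : (𝒮 ∪ 𝒬 : Set (Polarized 𝒱)) => i.1) isA (Sum.inl z) := by
    intro z hz
    obtain ⟨A, hA', hAz⟩ := hA.honda z hz
    obtain ⟨P, hP', rfl⟩ := hP.polarization A hA'
    obtain ⟨h3, h4⟩ := occ_at D (i := ⟨P, Or.inl hP'⟩) hAz
    exact ⟨⟨P, Or.inl hP'⟩, h3, hz, fun _ _ => hP', h4⟩
  have hpair : ∀ z : W.K, IsWeilNumber (p ^ a) 1 z →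
      D.Pos isA ({Sum.inl z} + {Sum.inl (((p ^ a : ℕ) : W.K) / z)}) := fun z _ =>
    pair_of D (fun c hc => hP.index _ (nest_mem (P := fun i => (c i).1) hP hc)) _ _
  have hfour : ∀ z y : W.K, IsWeilNumber (p ^ a) 1 z → IsWeilNumber (p ^ a) 1 y → y * y = e * z →
      D.Ex isA ({Sum.inl e} + {Sum.inl (((p ^ a : ℕ) : W.K) / z)} + {Sum.inl y} +
        {Sum.inl y}) := fun z y hz hy hyz =>
    four_of D hocc (iE := ⟨E, Or.inl hE⟩) hE he heE
      (fun c hc => h1.2 _ (nest_mem (P := fun i => (c i).1) hP hc)) hz hy hyz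
  have hAV : ∀ S : Multiset W.K, (∀ z ∈ S, IsWeilNumber (p ^ a) 1 z) →
      TM (p ^ a) (LA S) → D.Pos isA (LA S) := fun S hS hT =>
    D.pos_abel hocc hpair he hfour hS hT
  have hκ : ∀ i : (𝒮 ∪ 𝒬 : Set (Polarized 𝒱)), ∃ r : ℚ, 0 < r ∧
      bf W i.1.X i.1.D (f i) 1 1 = r := fun i =>
    ⟨_, mul_pos (inv_pos.2 (by exact_mod_cast Nat.factorial_pos _))
      (good_of (F := F) hP hQ i.2).2.2, (D.loc i).F.bf_one⟩
  have hpos := D.pos_all hκ he hAV hocc hpair (fun i hi => hA.gen _ (hP.mem _ hi))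
    (fun i hi => hP.group _ hi) (fun j hj m c hc hm => by
      have hj' : j.1 ∈ 𝒬 := by
        rcases j.2 with h | h
        · exact absurd h hj
        · exact h
      exact (h2 _ hj' _ (nest_mem (P := fun i => (c i).1) hP hc) (m + 1) (by omega) hm).2)
    n fun i => ⟨P i, hPP i⟩
  have hT : StrongTateAll F (nest ops n P).X :=
    (strong_iff1 (ha := ha) _).2 (D.tate n fun i => ⟨P i, hPP i⟩)
  have G := D.Fr fun i => (⟨P i, hPP i⟩ : (𝒮 ∪ 𝒬 : Set (Polarized 𝒱)))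
  refine ⟨hT, fun j hj z hz hprim hz0 => ?_, fun j hj z hz hnum => ?_⟩
  · exact (G.hodge hz fun h0 => hpos _ (AS.of ⟨z, hz, rfl⟩) h0).1 hj hprim hz0
  · exact (G.hodge hz fun h0 => hpos _ (AS.of ⟨z, hz, rfl⟩) h0).2 hj hnum

/-- **The main theorem.** -/
theorem main (ha : 0 < a) (hA : IsAbelianClass F 𝒜) (hP : IsPolarizedClass W 𝒜 𝒮)
    {E : Polarized 𝒱} (hE : E ∈ 𝒮) {e : W.K} (he : e * e = ((p ^ a : ℕ) : W.K))
    (heE : IsEigenvalue F E.X 1 e)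
    (hQ : ∀ Y ∈ 𝒬, IsGoodPolarized W Y ∧ ∀ i ≤ Y.X.dim, RiemannIn F Y.X i) :
    (CodimensionTwo F 𝒜 𝒮 E ∧ MixedTateHodge F 𝒬 𝒮) ↔ TateHodgeForProducts F (𝒮 ∪ 𝒬) := by
  constructor
  · rintro ⟨h1, h2⟩ n P hPP
    obtain ⟨h3, h4, h5⟩ := forward ha hA hP hE he heE hQ h1 h2 hPP
    exact ⟨h3, fun j hj z hz _ h6 h7 => h4 j hj z hz h6 h7, h5⟩
  · intro h
    have h2 : ∀ P ∈ 𝒮 ∪ 𝒬, ∀ Q ∈ 𝒮 ∪ 𝒬, StrongTateAll F (P.prod ops Q).X ∧
        HodgeTypeOn W (P.prod ops Q).X (P.prod ops Q).D ⊤ := fun P hP' Q hQ' => by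
      have h3 := h 1 (Fin.cons P fun _ => Q) (fun i => Fin.cases hP' (fun _ => hQ') i)
      exact ⟨h3.1, h3.2.1⟩
    refine ⟨⟨fun A hA' => ?_, fun P hP' => ?_⟩, fun Y hY P hP' i _ _ => ⟨?_, ?_⟩⟩
    · obtain ⟨P, hP', rfl⟩ := hP.polarization A hA'
      exact (h 0 (fun _ => P) fun _ => Or.inl hP').1 2
    · exact fun j hj z hz _ h3 h4 => (h2 E (Or.inl hE) P (Or.inl hP')).2 j hj z hz trivial h3 h4
    · exact mixed_of_strong ((h2 Y (Or.inr hY) P (Or.inl hP')).1 i)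
    · exact fun j hj z hz _ h3 h4 => (h2 Y (Or.inr hY) P (Or.inl hP')).2 j hj z hz trivial h3 h4

end Pool.Agent.Q56.HP
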