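import Pool.Agent.Q56.HP.Step

/-!
# Positivity on all words
-/

set_option autoImplicit false
set_option linter.unusedSectionVars false

open CategoryTheory AlgebraicGeometry

universe u v w

namespace Pool.Agent.Q56.HP

open Pool.Agent.H914 Pool.Agent.H914.VarClass Pool.Agent.H914.VarClass.Obj
  Pool.Agent.H914.WeilCohomology Pool.Agent.H281R3.HT Pool.Agent.W552
  Pool.Agent.W458.MF Pool.Agent.Q56.CT Pool.Agent.Q56.CTS Pool.Agent.Q56.FE Pool.Agent.Q56.FH
open Pool.Agent.Q56.FR (fr)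
open Pool.Agent.Q56.HPS (IsComb)

variable {k : Type u} [Field k] {𝒱 : VarClass k} {ops : CycleOps 𝒱}
  {W : WeilCohomology.{u, v} ops} {ι : Type w} {Pf : ι → Polarized 𝒱}
  [IsAlgClosed W.K] {σ : An W.K →ₐ[ℚ] ℂ}
  {p : ℕ} [Fact p.Prime] {a : ℕ} {F : FrobeniusOver W (p ^ a)}
  {f Φ : ∀ i, Module.End W.K (W.H (Pf i).X)} {isA : ι → Prop}

lemma lw_zero {α : Type*} {n : ℕ} (lab : Fin (n + 1) → α) :
    lab 0 ::ₘ (Finset.univ : Finset (Fin n)).val.map (fun j => lab j.succ) = lw lab := by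
  have h1 : List.finRange (n + 1) = 0 :: (List.finRange n).map Fin.succ := List.finRange_succ
  have h2 : lw lab = (((List.finRange (n + 1)).map lab : List α) : Multiset α) := rfl
  rw [h2, h1, List.map_cons, List.map_map, ← Multiset.cons_coe]
  rfl

namespace Dat

variable (D : Dat F σ Pf f Φ)

lemma nn_congr {n : ℕ} {c : Fin (n + 1) → ι} {lab lab' : Fin (n + 1) → W.K ⊕ ℕ × W.K}
    (h1 : ∀ i, LS F (Pf (c i)) (lab i) = LS F (Pf (c i)) (lab' i))
    (h2 : ∀ i, LS F (Pf (c i)) (cb (p ^ a) (lab i)) = LS F (Pf (c i)) (cb (p ^ a) (lab' i)))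
    (h : D.NN c lab') : D.NN c lab := by
  have e1 : VV F (fun i => Pf (c i)) lab = VV F (fun i => Pf (c i)) lab' := by
    unfold VV
    simp only [h1]
  have e2 : VV F (fun i => Pf (c i)) (fun i => cb (p ^ a) (lab i)) =
      VV F (fun i => Pf (c i)) (fun i => cb (p ^ a) (lab' i)) := by
    unfold VV
    simp only [h2]
  rintro x x' ⟨hx1, hx2, hx3⟩ hne
  exact h x x' ⟨hx1, by rwa [← e1], by rwa [← e2]⟩ hne

section Abel

variable (hAV : ∀ S : Multiset W.K, (∀ z ∈ S, IsWeilNumber (p ^ a) 1 z) →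
    TM (p ^ a) (LA S) → D.Pos isA (LA S))

include hAV

/-- words of degree one on abelian varieties -/
lemma nn_one {n : ℕ} {c : Fin (n + 1) → ι} (hc : ∀ i, isA (c i))
    {lab : Fin (n + 1) → W.K ⊕ ℕ × W.K} (hok : OkW Pf (p ^ a) c lab)
    (h1 : ∀ i, dgL (lab i) = 1) (hT : TL (p ^ a) lab) : D.NN c lab := by
  have hW : ∀ i, IsWeilNumber (p ^ a) 1 (egL (lab i)) := by
    intro i
    have h2 := (hok i).2
    rw [WL, h1 i] at h2
    exact h2
  have hlw : lw (fun i => (Sum.inl (egL (lab i)) : W.K ⊕ ℕ × W.K)) =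
      LA (lw fun i => egL (lab i)) := by
    rw [LA, lw, lw, Multiset.map_map]
    rfl
  refine D.nn_congr (lab' := fun i => Sum.inl (egL (lab i))) ?_ ?_
    (hAV (lw fun i => egL (lab i)) ?_ ?_ n c _ ?_ hlw)
  · intro i
    have h2 := h1 i
    rcases hl : lab i with z | z
    · rfl
    · rw [hl] at h2
      obtain ⟨m, z⟩ := z
      obtain rfl : m = 1 := h2
      rfl
  · intro i
    have h2 := h1 i
    rcases hl : lab i with z | z
    · rfl
    · rw [hl] at h2
      obtain ⟨m, z⟩ := z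
      obtain rfl : m = 1 := h2
      change LS F (Pf (c i)) (Sum.inr (1, ((p ^ a : ℕ) : W.K) ^ 1 / z)) =
        LS F (Pf (c i)) (Sum.inl (((p ^ a : ℕ) : W.K) / z))
      rw [pow_one]
      rfl
  · intro z hz
    obtain ⟨i, -, rfl⟩ := Multiset.mem_map.1 hz
    exact hW i
  · rw [← hlw, ← tl_iff]
    obtain ⟨j, h2, h3⟩ := hT
    refine ⟨j, ?_, h3⟩
    rw [← h2]
    exact Finset.sum_congr rfl fun i _ => (h1 i).symm
  · intro i
    have h2 := (hok i).1
    rw [h1 i] at h2
    exact ⟨h2, hW i, fun _ _ => hc i⟩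

variable (hgen : ∀ i, isA i → Generates (W.gr (Pf i).X 1))
  (hμ : ∀ i, isA i → ∀ a b : ℤ, ∃ μ, IsComb W (Pf i).X a b μ)
  (hκ : ∀ i, ∃ r : ℚ, 0 < r ∧ bf W (Pf i).X (Pf i).D (f i) 1 1 = r)

include hgen hμ hκ

/-- **Positivity on `H^i(A) ⊗ H^1(B_1) ⊗ ⋯ ⊗ H^1(B_n)`.** -/
theorem rat_abel (i : ℕ) : ∀ (n : ℕ) (c : Fin (n + 1) → ι), (∀ j, isA (c j)) →
    ∀ x, AS W _ x → x ∈ DG W (fun j => Pf (c j)) (Fin.cons (i + 1) fun _ => 1) → x ≠ 0 →
      ∃ r : ℚ, 0 < r ∧ D.B c x x = r := by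
  induction i with
  | zero =>
    intro n c hc x hx hxD hx0
    have h1 : (Fin.cons (0 + 1) (fun _ => 1) : Fin (n + 1) → ℕ) = fun _ => 1 := by
      funext j
      refine Fin.cases ?_ (fun j => ?_) j <;> rfl
    rw [h1] at hxD
    exact D.posOne (fun lab hok h1 _ hT => D.nn_one hAV hc hok h1 hT) hx hxD hx0
  | succ i ih =>
    intro n c hc x hx hxD hx0
    refine D.step (hgen _ (hc 0)) (hμ _ (hc 0)) (hκ _) (δ := Fin.cons (i + 1 + 1) fun _ => 1)
      (by change 1 ≤ i + 1 + 1; omega) (fun z hz hzD hz0 => ?_) hx hxD hx0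
    refine ih (n + 1) (dbl c) (fun j => ?_) z hz ?_ hz0
    · refine Fin.cases ?_ (fun j => ?_) j
      · exact hc 0
      · exact hc j
    · have h1 : dd (Fin.cons (i + 1 + 1) (fun _ => 1) : Fin (n + 1) → ℕ) 1 =
          (Fin.cons (i + 1) fun _ => 1 : Fin (n + 2) → ℕ) := by
        funext j
        refine Fin.cases ?_ (fun j => ?_) j
        · rfl
        · refine Fin.cases ?_ (fun j => ?_) j <;> rfl
      rwa [h1] at hzD

/-- The degrees are one after the first. -/
lemma rat_mixed (hmix : ∀ j, ¬ isA j → ∀ (n : ℕ) (c : Fin (n + 1) → ι), (∀ i, isA (c i)) →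
      n + 1 ≤ (Pf j).X.dim → HodgeTypeOn W ((Pf j).prod ops (nest ops n fun i => Pf (c i))).X
        ((Pf j).prod ops (nest ops n fun i => Pf (c i))).D
        (mixed W (Pf j).X (nest ops n fun i => Pf (c i)).X (n + 1)))
    {n : ℕ} {c : Fin (n + 1 + 1) → ι} (hc : ∀ j : Fin (n + 1), isA (c j.succ))
    {lab : Fin (n + 1 + 1) → W.K ⊕ ℕ × W.K} (harr : OkW Pf (p ^ a) c lab)
    (h0 : dgL (lab 0) = n + 1) (h1 : ∀ j : Fin (n + 1), dgL (lab j.succ) = 1) :
    D.NN c lab := by
  have hδ : (fun i => dgL (lab i)) = (Fin.cons (n + 1) fun _ => 1 : Fin (n + 1 + 1) → ℕ) := by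
    funext j
    refine Fin.cases ?_ (fun j => ?_) j
    · exact h0
    · exact h1 j
  refine D.nn_of_rat harr fun x hx hxV hx0 => ?_
  by_cases hA : isA (c 0)
  · refine D.rat_abel hAV hgen hμ hκ n (n + 1) c (fun j => ?_) x hx ?_ hx0
    · refine Fin.cases ?_ (fun j => ?_) j
      · exact hA
      · exact hc j
    · rw [← hδ]
      exact VD_le_DG hxV
  · have hd := (harr 0).1
    rw [h0] at hd
    have h2 := hmix (c 0) hA n (fun j => c j.succ) hc hd
    refine D.rat_of_hodge (c := c) (fun i => (harr i).1) h2 ?_ hx hxV hx0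
    refine Submodule.span_le.2 ?_
    rintro z ⟨x, hx, rfl⟩
    have h3 : x 0 ∈ W.gr (Pf (c 0)).X (dgL (lab 0)) := (hx 0).1
    rw [h0] at h3
    have h4 := wd_mem (W := W) (prj ops n fun i : Fin (n + 1) => Pf (c i.succ))
      (δ := fun i => dgL (lab i.succ)) (fun i => (hx i.succ).1) (List.finRange (n + 1))
    rw [← Fin.sum_univ_def, Finset.sum_congr rfl fun j _ => h1 j, Finset.sum_const,
      Finset.card_univ, Fintype.card_fin, smul_eq_mul, mul_one] at h4
    have h5 : H281R3.HT.ext W (x 0) (nw W (fun i : Fin (n + 1) => Pf (c i.succ))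
        fun i => x i.succ) ∈ mixed W (Pf (c 0)).X (nest ops n fun i => Pf (c i.succ)).X (n + 1) :=
      Submodule.subset_span ⟨x 0, h3, _, h4, rfl⟩
    rw [nw_succ]
    exact h5

variable (hmix : ∀ j, ¬ isA j → ∀ (n : ℕ) (c : Fin (n + 1) → ι), (∀ i, isA (c i)) →
      n + 1 ≤ (Pf j).X.dim → HodgeTypeOn W ((Pf j).prod ops (nest ops n fun i => Pf (c i))).X
        ((Pf j).prod ops (nest ops n fun i => Pf (c i))).D
        (mixed W (Pf j).X (nest ops n fun i => Pf (c i)).X (n + 1)))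

include hmix

/-- **The mixed words.** -/
theorem pos_mixed {i : ℕ} {z y : W.K} :
    D.Pos isA ({Sum.inr (i + 1, z)} + Multiset.replicate (i + 1) (Sum.inl y)) := by
  intro n c lab harr hlab
  -- move the letter to the front
  obtain ⟨b, hb⟩ : ∃ b, lab b = Sum.inr (i + 1, z) := by
    have h1 : (Sum.inr (i + 1, z) : W.K ⊕ ℕ × W.K) ∈ lw lab := by
      rw [hlab]
      exact Multiset.mem_add.2 (Or.inl (Multiset.mem_singleton_self _))
    obtain ⟨b, -, hb⟩ := Multiset.mem_map.1 h1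
    exact ⟨b, hb⟩
  have key : ∀ (c : Fin (n + 1) → ι) (lab : Fin (n + 1) → W.K ⊕ ℕ × W.K),
      Arr Pf isA (p ^ a) c lab → lw lab = {Sum.inr (i + 1, z)} +
        Multiset.replicate (i + 1) (Sum.inl y) → lab 0 = Sum.inr (i + 1, z) → D.NN c lab := by
    intro c lab harr hlab h0
    have h1 := lw_zero lab
    rw [hlab, h0, Multiset.singleton_add] at h1
    have h2 := (Multiset.cons_inj_right _).1 h1
    have hn : n = i + 1 := by
      have h3 := congrArg Multiset.card h2
      rw [Multiset.card_map, Finset.card_val, Finset.card_univ, Fintype.card_fin,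
        Multiset.card_replicate] at h3
      exact h3
    subst hn
    have h3 : ∀ j : Fin (i + 1), lab j.succ = Sum.inl y := by
      intro j
      have h4 : lab j.succ ∈ (Finset.univ : Finset (Fin (i + 1))).val.map
        fun j => lab j.succ := Multiset.mem_map_of_mem _ (Finset.mem_univ j)
      rw [h2] at h4
      exact Multiset.eq_of_mem_replicate h4
    refine D.rat_mixed hAV hgen hμ hκ hmix (n := i) (fun j => (harr j.succ).2.2 y (h3 j))
      (fun j => ⟨(harr j).1, (harr j).2.1⟩) ?_ fun j => ?_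
    · rw [h0]; rfl
    · rw [h3]; rfl
  let s : Equiv.Perm (Fin (n + 1)) := Equiv.swap 0 b
  have h1 : D.NN (fun j => c (s j)) fun j => lab (s j) := by
    refine key _ _ (fun j => harr (s j)) ?_ ?_
    · rw [← hlab]
      have h2 : lw (fun j => lab (s j)) = (((Finset.univ : Finset (Fin (n + 1))).map
          s.toEmbedding).val.map lab) := by
        rw [Finset.map_val, Multiset.map_map]
        rfl
      rw [h2, Finset.map_univ_equiv]
      rfl
    · change lab (Equiv.swap 0 b 0) = _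
      rw [Equiv.swap_apply_left, hb]
  have h2 := D.nn_perm s h1
  have h3 : ∀ j, s (s j) = j := fun j =>
    congrArg (fun e : Equiv.Perm (Fin (n + 1)) => e j) (Equiv.swap_mul_self 0 b)
  have h4 : (fun j => c (s (s j))) = c := funext fun j => by rw [h3]
  have h5 : (fun j => lab (s (s j))) = lab := funext fun j => by rw [h3]
  rw [h4, h5] at h2
  exact h2

end Abel

end Dat

end Pool.Agent.Q56.HP
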