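import Pool.Agent.Q56.HP.Dec
import Pool.Agent.Q56.FH.Final

/-!
# Words on products of several varieties
-/

set_option autoImplicit false
set_option linter.unusedSectionVars false

open CategoryTheory AlgebraicGeometry

universe u v w

namespace Pool.Agent.Q56.HP

open Pool.Agent.H914 Pool.Agent.H914.VarClass Pool.Agent.H914.VarClass.Obj
  Pool.Agent.H914.WeilCohomology Pool.Agent.H281R3.HT Pool.Agent.W552
  Pool.Agent.W458.MF Pool.Agent.Q56.CT Pool.Agent.Q56.CTS Pool.Agent.Q56.FE Pool.Agent.Q56.FH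
open Pool.Agent.Q56.FR (fr)

variable {k : Type u} [Field k] {𝒱 : VarClass k} {ops : CycleOps 𝒱}
  {W : WeilCohomology.{u, v} ops} [IsAlgClosed W.K] {σ : An W.K →ₐ[ℚ] ℂ}
  {p : ℕ} [Fact p.Prime] {a : ℕ} {F : FrobeniusOver W (p ^ a)}

section OpN

/-- The external product of operators on the factors. -/
noncomputable def opN (W : WeilCohomology.{u, v} ops) : {n : ℕ} → (P : Fin (n + 1) → Polarized 𝒱) →
    (∀ i, Module.End W.K (W.H (P i).X)) → Module.End W.K (W.H (nest ops n P).X)
  | 0, _, T => T 0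
  | _ + 1, P, T => extOp W (T 0) (opN W (fun i => P i.succ) fun i => T i.succ)

lemma opN_nw {n : ℕ} (P : Fin (n + 1) → Polarized 𝒱) (T : ∀ i, Module.End W.K (W.H (P i).X))
    (x : ∀ i, W.H (P i).X) : opN W P T (nw W P x) = nw W P fun i => T i (x i) := by
  induction n with
  | zero =>
    rw [nw_zero, nw_zero]
    rfl
  | succ n ih =>
    rw [nw_succ, nw_succ]
    change extOp W (T 0) (opN W (fun i => P i.succ) fun i => T i.succ) _ = _
    rw [H281R3.HT.ext, extOp_tmul, ih (fun i => P i.succ) (fun i => T i.succ) fun i => x i.succ]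
    rfl

lemma opN_opP {n : ℕ} (P : Fin (n + 1) → Polarized 𝒱) {T T' : ∀ i, Module.End W.K (W.H (P i).X)}
    (h : ∀ i, OpP σ (P i).X (T i) (T' i)) :
    OpP σ (nest ops n P).X (opN W P T) (opN W P T') := by
  induction n with
  | zero => exact h 0
  | succ n ih => exact (h 0).ext (ih (fun i => P i.succ) fun i => h i.succ)

end OpN

section VV

variable {n : ℕ} {P : Fin (n + 1) → Polarized 𝒱} {lab : Fin (n + 1) → W.K ⊕ ℕ × W.K}

/-- The span of the words with the given labels. -/
noncomputable def VV (F : FrobeniusOver W (p ^ a)) {n : ℕ} (P : Fin (n + 1) → Polarized 𝒱)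
    (lab : Fin (n + 1) → W.K ⊕ ℕ × W.K) : Submodule W.K (W.H (nest ops n P).X) :=
  Submodule.span W.K {z | ∃ x : ∀ i, W.H (P i).X, (∀ i, x i ∈ LS F (P i) (lab i)) ∧ z = nw W P x}

lemma VV_nw {x : ∀ i, W.H (P i).X} (hx : ∀ i, x i ∈ LS F (P i) (lab i)) :
    nw W P x ∈ VV F P lab := Submodule.subset_span ⟨x, hx, rfl⟩

lemma opN_mem {T : ∀ i, Module.End W.K (W.H (P i).X)} (hT : ∀ i x, T i x ∈ LS F (P i) (lab i))
    (z : W.H (nest ops n P).X) : opN W P T z ∈ VV F P lab := by
  have h := nest_span (W := W) (ops := ops) (P := P) (S := fun _ => Set.univ)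
    (fun i y => Submodule.subset_span (Set.mem_univ y)) z
  induction h using Submodule.span_induction with
  | mem z hz =>
    obtain ⟨x, -, rfl⟩ := hz
    rw [opN_nw]
    exact VV_nw fun i => hT i (x i)
  | zero => rw [map_zero]; exact Submodule.zero_mem _
  | add x y _ _ hx hy => rw [map_add]; exact Submodule.add_mem _ hx hy
  | smul c x _ hx => rw [map_smul]; exact Submodule.smul_mem _ _ hx

lemma opN_self {T : ∀ i, Module.End W.K (W.H (P i).X)}
    (hT : ∀ i, ∀ x ∈ LS F (P i) (lab i), T i x = x) {z : W.H (nest ops n P).X}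
    (hz : z ∈ VV F P lab) : opN W P T z = z := by
  unfold VV at hz
  induction hz using Submodule.span_induction with
  | mem z hz =>
    obtain ⟨x, hx, rfl⟩ := hz
    rw [opN_nw]
    congr 1
    funext i
    exact hT i _ (hx i)
  | zero => rw [map_zero]
  | add x y _ _ hx hy => rw [map_add, hx, hy]
  | smul c x _ hx => rw [map_smul, hx]

lemma VV_gr {z : W.H (nest ops n P).X} (hz : z ∈ VV F P lab) :
    z ∈ W.gr (nest ops n P).X (∑ i, dgL (lab i)) := by
  refine (Submodule.span_le (p := W.gr (nest ops n P).X (∑ i, dgL (lab i)))).2 ?_ hz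
  rintro z ⟨x, hx, rfl⟩
  have h1 := wd_mem (W := W) (prj ops n P) (δ := fun i => dgL (lab i)) (fun i => (hx i).1)
    (List.finRange (n + 1))
  rwa [← Fin.sum_univ_def] at h1

lemma VV_frob {z : W.H (nest ops n P).X} (hz : z ∈ VV F P lab) :
    W.map (F.Fr (nest ops n P).X) z = (∏ i, egL (lab i)) • z := by
  unfold VV at hz
  induction hz using Submodule.span_induction with
  | mem z hz =>
    obtain ⟨x, hx, rfl⟩ := hz
    have h1 : wd W (prj ops n P) (List.finRange (n + 1))
        (fun i => W.map (F.Fr (P i).X) (x i)) = wd W (prj ops n P) (List.finRange (n + 1))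
          (fun i => egL (lab i) • x i) := by
      congr 1
      funext i
      exact (hx i).2.1
    rw [nw, frob_wd, h1, wd_scale, ← Fin.prod_univ_def]
  | zero => rw [map_zero, smul_zero]
  | add x y _ _ hx hy => rw [map_add, hx, hy, smul_add]
  | smul c x _ hx => rw [map_smul, hx, smul_comm]

/-- The word is a Tate class. -/
def TL (q : ℕ) {n : ℕ} {K : Type*} [Field K] (lab : Fin (n + 1) → K ⊕ ℕ × K) : Prop :=
  ∃ j, ∑ i, dgL (lab i) = 2 * j ∧ ∏ i, egL (lab i) = (q : K) ^ j

lemma VV_alg (ha : 0 < a) (hT : TC1 F ha (nest ops n P).X ≤ algSpan W (nest ops n P).X)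
    (h : TL (p ^ a) lab) {z : W.H (nest ops n P).X} (hz : z ∈ VV F P lab) :
    z ∈ algSpan W (nest ops n P).X := by
  obtain ⟨j, h1, h2⟩ := h
  apply hT
  refine TC1.of (j := j) ?_
  rw [genTate_eq]
  refine ⟨eig_mem_gen ?_, ?_⟩
  · rw [← h2]
    exact VV_frob hz
  · rw [← h1]
    exact VV_gr hz

/-- Homogeneous eigenvectors in the span of the algebraic classes. -/
lemma alg_frob {Y : 𝒱.Obj} {z : W.H Y} (hz : z ∈ algSpan W Y) {d : ℕ} (hd : z ∈ W.gr Y d)
    {μ : W.K} (hμ : W.map (F.Fr Y) z = μ • z) (h0 : z ≠ 0) :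
    ∃ j, d = 2 * j ∧ μ = ((p ^ a : ℕ) : W.K) ^ j := by
  have key : ∀ z ∈ algSpan W Y, (∀ i, proj (W.isInternal Y) (2 * i + 1) z = 0) ∧
      ∀ j, W.map (F.Fr Y) (proj (W.isInternal Y) (2 * j) z) =
        ((p ^ a : ℕ) : W.K) ^ j • proj (W.isInternal Y) (2 * j) z := by
    intro z hz
    unfold algSpan at hz
    induction hz using Submodule.span_induction with
    | mem z hz =>
      obtain ⟨j, hj⟩ := Set.mem_iUnion.1 hz
      refine ⟨fun i => proj_ne _ (alg_gr hj) (by omega), fun j' => ?_⟩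
      by_cases h : j = j'
      · subst h
        rw [proj_same _ (alg_gr hj)]
        obtain ⟨c, hc, rfl⟩ := hj
        exact F.cyc hc
      · rw [proj_ne _ (alg_gr hj) (by omega), map_zero, smul_zero]
    | zero => exact ⟨fun i => map_zero _, fun j => by rw [map_zero, map_zero, smul_zero]⟩
    | add x y _ _ hx hy =>
      exact ⟨fun i => by rw [map_add, hx.1, hy.1, add_zero],
        fun j => by rw [map_add, map_add, hx.2, hy.2, smul_add]⟩
    | smul c x _ hx =>
      exact ⟨fun i => by rw [map_smul, hx.1, smul_zero],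
        fun j => by rw [map_smul, map_smul, hx.2, smul_comm]⟩
  obtain ⟨h1, h2⟩ := key z hz
  rcases Nat.even_or_odd' d with ⟨j, rfl | rfl⟩
  · refine ⟨j, rfl, ?_⟩
    have h3 := h2 j
    rw [proj_same _ hd, hμ] at h3
    have h4 : (μ - ((p ^ a : ℕ) : W.K) ^ j) • z = 0 := by rw [sub_smul, h3, sub_self]
    exact sub_eq_zero.1 ((smul_eq_zero.1 h4).resolve_right h0)
  · have h3 := h1 j
    rw [proj_same _ hd] at h3
    exact absurd h3 h0

/-- Words which carry classes in the span of the algebraic classes are Tate classes. -/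
lemma TL_of (hz : ∃ z ∈ VV F P lab, z ∈ algSpan W (nest ops n P).X ∧ z ≠ 0) : TL (p ^ a) lab := by
  obtain ⟨z, h1, h2, h3⟩ := hz
  obtain ⟨j, h4, h5⟩ := alg_frob h2 (VV_gr h1) (VV_frob h1) h3
  exact ⟨j, h4, h5⟩

end VV

omit [IsAlgClosed W.K] in
/-- The form on products of pulled back classes. -/
theorem exists_form' {n : ℕ} (P : Fin (n + 1) → Polarized 𝒱)
    (f : ∀ a, Module.End W.K (W.H (P a).X)) (hF : ∀ a, Fr W (P a).X (P a).D (f a))
    (hS : ∀ a, Sy W (P a).X (P a).D (f a)) :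
    ∃ g : Module.End W.K (W.H (nest ops n P).X), Fr W (nest ops n P).X (nest ops n P).D g ∧
      Sy W (nest ops n P).X (nest ops n P).D g ∧ (∀ x y : ∀ a, W.H (P a).X,
        bf W (nest ops n P).X (nest ops n P).D g (nw W P x) (nw W P y) =
          ∏ a, bf W (P a).X (P a).D (f a) (x a) (y a)) ∧
      ∀ x : ∀ a, W.H (P a).X, (∀ a, f a (x a) = 0) → g (nw W P x) = 0 := by
  induction n with
  | zero =>
    refine ⟨f 0, hF 0, hS 0, fun x y => ?_, fun x hx => ?_⟩
    · rw [nw_zero, nw_zero, Fin.prod_univ_one]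
      rfl
    · rw [nw_zero]
      exact hx 0
  | succ n ih =>
    obtain ⟨g, hG, hGS, hB, hk⟩ := ih (fun i => P i.succ) (fun i => f i.succ)
      (fun i => hF i.succ) (fun i => hS i.succ)
    refine ⟨extSum W (f 0) g, (hF 0).prod hG, (hS 0).prod (hF 0) hG hGS, fun x y => ?_,
      fun x hx => ?_⟩
    · rw [nw_succ, nw_succ, Fin.prod_univ_succ, ← hB]
      exact (hF 0).bf_ext hG (x 0) (y 0) _ _
    · rw [nw_succ]
      refine (extSum_tmul (W := W) (f 0) g (x 0) _).trans ?_
      rw [hx 0, map_zero, zero_mul, zero_add, hk (fun i => x i.succ) fun i => hx i.succ,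
        map_zero, mul_zero]
      rfl

section Sys

variable {ι : Type w} {Pf : ι → Polarized 𝒱} {f Φ : ∀ i, Module.End W.K (W.H (Pf i).X)}

/-- A family of varieties with the properties which are needed. -/
structure Dat (F : FrobeniusOver W (p ^ a)) (σ : An W.K →ₐ[ℚ] ℂ) {ι : Type w}
    (Pf : ι → Polarized 𝒱) (f Φ : ∀ i, Module.End W.K (W.H (Pf i).X)) : Prop where
  ha : 0 < a
  loc : ∀ i, Loc W (Pf i) (f i) (Φ i)
  semi : ∀ i, SemiX F (Pf i).X
  eig : ∀ i, ∃ Ψ, EigSet σ F (Pf i).X Ψ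
  tate : ∀ (n : ℕ) (c : Fin (n + 1) → ι), TC1 F ha (nest ops n fun i => Pf (c i)).X ≤
    algSpan W (nest ops n fun i => Pf (c i)).X

namespace Dat

variable (D : Dat F σ Pf f Φ) {n : ℕ} (c : Fin (n + 1) → ι)

include D in
lemma exF : ∃ g : Module.End W.K (W.H (nest ops n fun i => Pf (c i)).X),
    Fr W (nest ops n fun i => Pf (c i)).X (nest ops n fun i => Pf (c i)).D g ∧
      Sy W (nest ops n fun i => Pf (c i)).X (nest ops n fun i => Pf (c i)).D g ∧
      (∀ x y : ∀ i, W.H (Pf (c i)).X,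
        bf W (nest ops n fun i => Pf (c i)).X (nest ops n fun i => Pf (c i)).D g
          (nw W (fun i => Pf (c i)) x) (nw W (fun i => Pf (c i)) y) =
          ∏ i, bf W (Pf (c i)).X (Pf (c i)).D (f (c i)) (x i) (y i)) ∧
      ∀ x : ∀ i, W.H (Pf (c i)).X, (∀ i, f (c i) (x i) = 0) →
        g (nw W (fun i => Pf (c i)) x) = 0 :=
  exists_form' (fun i => Pf (c i)) (fun i => f (c i)) (fun i => (D.loc (c i)).F)
    fun i => bf_sy (D.loc (c i)).F (D.loc (c i)).t

/-- the lowering operator -/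
noncomputable def g : Module.End W.K (W.H (nest ops n fun i => Pf (c i)).X) := (D.exF c).choose

/-- the form -/
noncomputable def B : W.H (nest ops n fun i => Pf (c i)).X →ₗ[W.K]
    W.H (nest ops n fun i => Pf (c i)).X →ₗ[W.K] W.K :=
  bf W (nest ops n fun i => Pf (c i)).X (nest ops n fun i => Pf (c i)).D (D.g c)

lemma Fr : Fr W (nest ops n fun i => Pf (c i)).X (nest ops n fun i => Pf (c i)).D (D.g c) :=
  (D.exF c).choose_spec.1

lemma Sy : Sy W (nest ops n fun i => Pf (c i)).X (nest ops n fun i => Pf (c i)).D (D.g c) :=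
  (D.exF c).choose_spec.2.1

lemma B_nw (x y : ∀ i, W.H (Pf (c i)).X) : D.B c (nw W (fun i => Pf (c i)) x)
    (nw W (fun i => Pf (c i)) y) =
      ∏ i, bf W (Pf (c i)).X (Pf (c i)).D (f (c i)) (x i) (y i) :=
  (D.exF c).choose_spec.2.2.1 x y

lemma g_nw {x : ∀ i, W.H (Pf (c i)).X} (hx : ∀ i, f (c i) (x i) = 0) :
    D.g c (nw W (fun i => Pf (c i)) x) = 0 := (D.exF c).choose_spec.2.2.2 x hx

/-- the pairs of conjugate classes in the span of the words -/
def MR (c : Fin (n + 1) → ι) (lab : Fin (n + 1) → W.K ⊕ ℕ × W.K)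
    (x x' : W.H (nest ops n fun i => Pf (c i)).X) : Prop :=
  Cj σ _ x x' ∧ x ∈ VV F (fun i => Pf (c i)) lab ∧
    x' ∈ VV F (fun i => Pf (c i)) fun i => cb (p ^ a) (lab i)

variable {c} {lab : Fin (n + 1) → W.K ⊕ ℕ × W.K} {x x' y y' : W.H (nest ops n fun i => Pf (c i)).X}

lemma B_symm (hx : x ∈ algSpan W _) (hy : y ∈ algSpan W _) : D.B c x y = D.B c y x := by
  have hx' := algSpan_le_AS hx
  have hy' := algSpan_le_AS hy
  clear hx hy
  induction hx' using Submodule.span_induction with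
  | zero => rw [map_zero, map_zero, LinearMap.zero_apply]
  | add x z _ _ hx hz => rw [map_add, map_add, LinearMap.add_apply, hx, hz]
  | smul c x _ hx => rw [map_smul, map_smul, LinearMap.smul_apply, hx]
  | mem x hx =>
    induction hy' using Submodule.span_induction with
    | zero => rw [map_zero, map_zero, LinearMap.zero_apply]
    | add x z _ _ hx hz => rw [map_add, map_add, LinearMap.add_apply, hx, hz]
    | smul c x _ hx => rw [map_smul, map_smul, LinearMap.smul_apply, hx]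
    | mem y hy => exact bf_symm_AS (D.Sy c) hy

/-- The form is hermitian. -/
lemma herm (lab : Fin (n + 1) → W.K ⊕ ℕ × W.K) :
    HermRel σ (MR (F := F) (σ := σ) (Pf := Pf) c lab) (D.B c) where
  zero := ⟨Cj.zero, Submodule.zero_mem _, Submodule.zero_mem _⟩
  add h h' := ⟨h.1.add h'.1, Submodule.add_mem _ h.2.1 h'.2.1, Submodule.add_mem _ h.2.2 h'.2.2⟩
  smul a _ _ h := ⟨h.1.smul a, Submodule.smul_mem _ _ h.2.1, Submodule.smul_mem _ _ h.2.2⟩
  val h h' := h.1.val (fun _ _ hz hw => (D.Fr c).bf_rat hz hw) h'.1.symm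
  symm h h' := D.B_symm h.1.mem_span h'.1.symm.mem_span

/-- the positivity for a word -/
def NN (c : Fin (n + 1) → ι) (lab : Fin (n + 1) → W.K ⊕ ℕ × W.K) : Prop :=
  PosRel σ (MR (F := F) (σ := σ) (Pf := Pf) c lab) (D.B c)

end Dat

end Sys

end Pool.Agent.Q56.HP
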