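import Pool.Agent.Q56.HP.Cj
import Pool.Agent.Q56.CT.Main

/-!
# The operators of one factor
-/

set_option autoImplicit false
set_option linter.unusedSectionVars false

open CategoryTheory AlgebraicGeometry

universe u v w

namespace Pool.Agent.Q56.HP

open Pool.Agent.H914 Pool.Agent.H914.VarClass Pool.Agent.H914.VarClass.Obj
  Pool.Agent.H914.WeilCohomology Pool.Agent.H281R3.HT Pool.Agent.W552
  Pool.Agent.Q56.CT Pool.Agent.Q56.CTS Pool.Agent.Q56.FE
open Pool.Agent.Q56.FR (fr)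

section Lag

variable {K : Type*} [Field K] [CharZero K]

open Classical in
/-- the polynomial which separates `μ` from the other elements of `Ψ` -/
noncomputable def lag (Ψ : Finset (An K)) (μ : An K) : Polynomial (An K) :=
  ∏ ν ∈ Ψ.erase μ, (Polynomial.C (μ - ν)⁻¹ * (Polynomial.X - Polynomial.C ν))

lemma lag_self (Ψ : Finset (An K)) (μ : An K) : (lag Ψ μ).eval μ = 1 := by
  classical
  rw [lag, Polynomial.eval_prod]
  refine Finset.prod_eq_one fun ν hν => ?_
  rw [Polynomial.eval_mul, Polynomial.eval_C, Polynomial.eval_sub, Polynomial.eval_X,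
    Polynomial.eval_C]
  exact inv_mul_cancel₀ (sub_ne_zero.2 (Finset.ne_of_mem_erase hν).symm)

lemma lag_ne {Ψ : Finset (An K)} {μ ν : An K} (h : ν ∈ Ψ) (hne : ν ≠ μ) :
    (lag Ψ μ).eval ν = 0 := by
  classical
  rw [lag, Polynomial.eval_prod]
  refine Finset.prod_eq_zero (Finset.mem_erase.2 ⟨hne, h⟩) ?_
  rw [Polynomial.eval_mul, Polynomial.eval_sub, Polynomial.eval_X, Polynomial.eval_C,
    Polynomial.eval_C, sub_self, mul_zero]

lemma lag_map [IsAlgClosed K] (σ : An K →ₐ[ℚ] ℂ) {Ψ : Finset (An K)}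
    (h : ∀ ν ∈ Ψ, cj σ ν ∈ Ψ) (μ : An K) : (lag Ψ μ).map (cj σ) = lag Ψ (cj σ μ) := by
  classical
  rw [lag, lag, Polynomial.map_prod]
  refine Finset.prod_bij (fun ν _ => cj σ ν) ?_ ?_ ?_ ?_
  · intro ν hν
    exact Finset.mem_erase.2 ⟨fun h0 => Finset.ne_of_mem_erase hν (cj_inj σ h0),
      h ν (Finset.mem_of_mem_erase hν)⟩
  · intro ν _ ν' _ h0
    exact cj_inj σ h0
  · intro ν hν
    refine ⟨cj σ ν, Finset.mem_erase.2 ⟨fun h0 => ?_, h ν (Finset.mem_of_mem_erase hν)⟩,
      cj_cj σ ν⟩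
    exact Finset.ne_of_mem_erase hν (by rw [← h0, cj_cj])
  · intro ν _
    rw [Polynomial.map_mul, Polynomial.map_C, Polynomial.map_sub, Polynomial.map_X,
      Polynomial.map_C, map_inv₀, map_sub]

end Lag

variable {k : Type u} [Field k] {𝒱 : VarClass k} {ops : CycleOps 𝒱}
  {W : WeilCohomology.{u, v} ops} [IsAlgClosed W.K] {σ : An W.K →ₐ[ℚ] ℂ} {X Y Z : 𝒱.Obj}

/-- the value of a polynomial at an operator -/
noncomputable def pop (T : Module.End W.K (W.H X)) (P : Polynomial (An W.K)) :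
    Module.End W.K (W.H X) := Polynomial.aeval T (P.map (algebraMap (An W.K) W.K))

lemma pop_eig {T : Module.End W.K (W.H X)} {x : W.H X} {ν : An W.K}
    (h : T x = (ν : W.K) • x) (P : Polynomial (An W.K)) :
    pop T P x = ((P.eval ν : An W.K) : W.K) • x := by
  rw [pop, W552.aeval_eig h]
  congr 1
  rw [Polynomial.eval_map_algebraMap]
  exact Polynomial.aeval_algebraMap_apply_eq_algebraMap_eval ν P

lemma pop_opP {T : Module.End W.K (W.H X)} (hT : AOp W X X T) (P : Polynomial (An W.K)) :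
    OpP σ X (pop T P) (pop T (P.map (cj σ))) := by
  induction P using Polynomial.induction_on' with
  | add p q hp hq =>
    rw [pop, pop, Polynomial.map_add, Polynomial.map_add, Polynomial.map_add, map_add, map_add]
    exact hp.add hq
  | monomial m c =>
    rw [pop, pop, Polynomial.map_monomial, Polynomial.map_monomial, Polynomial.map_monomial,
      Polynomial.aeval_monomial, Polynomial.aeval_monomial]
    have h1 := OpP.mk (σ := σ) c (hT.pow m)
    have h2 : ∀ c : W.K, (algebraMap W.K (Module.End W.K (W.H X))) c * T ^ m = c • T ^ m :=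
      fun c => (Algebra.smul_def c _).symm
    rw [h2, h2]
    exact h1

/-- stable subspaces -/
lemma pop_mem {T : Module.End W.K (W.H X)} {U : Submodule W.K (W.H X)} (hT : ∀ x ∈ U, T x ∈ U)
    (P : Polynomial (An W.K)) {x : W.H X} (hx : x ∈ U) : pop T P x ∈ U := by
  have hp : ∀ m : ℕ, (T ^ m) x ∈ U := by
    intro m
    induction m with
    | zero => exact hx
    | succ m ih => rw [pow_succ', Module.End.mul_apply]; exact hT _ ih
  rw [pop, Polynomial.aeval_eq_sum_range, LinearMap.sum_apply]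
  refine Submodule.sum_mem _ fun i _ => ?_
  rw [LinearMap.smul_apply]
  exact Submodule.smul_mem _ _ (hp i)

variable {p : ℕ} [Fact p.Prime] {a : ℕ} {F : FrobeniusOver W (p ^ a)}

/-- the Frobenius operator is semisimple -/
def SemiX (F : FrobeniusOver W (p ^ a)) (X : 𝒱.Obj) : Prop :=
  ∀ (i : ℕ) (μ : W.K) (x : W.H X), x ∈ W.gr X i → x ∈ (fr F X).maxGenEigenspace μ →
    fr F X x = μ • x

lemma semi_span (h : SemiX F X) {i : ℕ} {x : W.H X} (hx : x ∈ W.gr X i) :
    x ∈ Submodule.span W.K {v | v ∈ W.gr X i ∧ ∃ μ : W.K, fr F X v = μ • v} := by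
  refine Submodule.span_mono ?_ (gr_gen (F := F) hx)
  rintro v ⟨hv, μ, hμ⟩
  exact ⟨hv, μ, h i μ v hv hμ⟩

/-- the set contains the eigenvalues of the degrees up to the dimension -/
structure EigSet (σ : An W.K →ₐ[ℚ] ℂ) (F : FrobeniusOver W (p ^ a)) (X : 𝒱.Obj)
    (Ψ : Finset (An W.K)) : Prop where
  conj : ∀ ν ∈ Ψ, cj σ ν ∈ Ψ
  eig : ∀ i ≤ X.dim, ∀ (μ : W.K) (x : W.H X), x ∈ W.gr X i → fr F X x = μ • x → x ≠ 0 →
    ∃ ν ∈ Ψ, (ν : W.K) = μ ∧ IsWeilNumber (p ^ a) i μ

lemma exists_eigSet (h : ∀ i ≤ X.dim, RiemannIn F X i) : ∃ Ψ, EigSet σ F X Ψ := by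
  classical
  have hfin := (fr F X).finite_hasEigenvalue
  let A : Set (An W.K) := {ν | (fr F X).HasEigenvalue (ν : W.K)}
  have hA : A.Finite := hfin.preimage (f := fun ν : An W.K => (ν : W.K))
    (Subtype.val_injective.injOn)
  refine ⟨hA.toFinset ∪ hA.toFinset.image (cj σ), ?_, ?_⟩
  · intro ν hν
    rcases Finset.mem_union.1 hν with h1 | h1
    · exact Finset.mem_union_right _ (Finset.mem_image_of_mem _ h1)
    · obtain ⟨μ, hμ, rfl⟩ := Finset.mem_image.1 h1
      rw [cj_cj]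
      exact Finset.mem_union_left _ hμ
  · intro i hi μ x hx hμ hx0
    have hW := h i hi μ ⟨x, hx, hx0, hμ⟩
    refine ⟨toAn hW.1, Finset.mem_union_left _ ?_, rfl, hW⟩
    rw [Set.Finite.mem_toFinset]
    exact Module.End.hasEigenvalue_of_hasEigenvector
      ⟨Module.End.mem_eigenspace_iff.2 hμ, hx0⟩

section Factor

variable {Ψ : Finset (An W.K)} (hΨ : EigSet σ F X Ψ)

/-- the projector to the eigenspace -/
noncomputable def eo (F : FrobeniusOver W (p ^ a)) (X : 𝒱.Obj) (Ψ : Finset (An W.K))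
    (μ : An W.K) : Module.End W.K (W.H X) := pop (fr F X) (lag Ψ μ)

include hΨ

lemma eo_opP (μ : An W.K) : OpP σ X (eo F X Ψ μ) (eo F X Ψ (cj σ μ)) := by
  have h1 := pop_opP (σ := σ) (AOp.of_rop (rop_map (W := W) (F.Fr X))) (lag Ψ μ)
  rw [lag_map σ hΨ.conj] at h1
  exact h1

omit hΨ in
lemma eo_self {μ : An W.K} {x : W.H X} (h : fr F X x = (μ : W.K) • x) : eo F X Ψ μ x = x := by
  rw [eo, pop_eig h, lag_self]
  exact one_smul _ _

omit hΨ in
lemma eo_mem {i : ℕ} {x : W.H X} (hx : x ∈ W.gr X i) (μ : An W.K) : eo F X Ψ μ x ∈ W.gr X i :=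
  pop_mem (fun _ hx => W.map_mem _ hx) _ hx

lemma eo_eig (hs : SemiX F X) {i : ℕ} (hi : i ≤ X.dim) {x : W.H X} (hx : x ∈ W.gr X i)
    (μ : An W.K) : fr F X (eo F X Ψ μ x) = (μ : W.K) • eo F X Ψ μ x := by
  have h1 := semi_span hs hx
  clear hx
  induction h1 using Submodule.span_induction with
  | zero => simp
  | add x y _ _ hx hy => rw [map_add, map_add, hx, hy, smul_add]
  | smul c x _ hx => rw [map_smul, map_smul, hx, smul_comm]
  | mem v hv =>
    obtain ⟨hv, ν, hν⟩ := hv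
    by_cases hv0 : v = 0
    · rw [hv0]; simp
    obtain ⟨ν', hν', rfl, -⟩ := hΨ.eig i hi ν v hv hν hv0
    by_cases h2 : ν' = μ
    · subst h2
      rw [eo_self hν, hν]
    · rw [eo, pop_eig hν, lag_ne hν' h2]
      have h3 : ((0 : An W.K) : W.K) = 0 := rfl
      rw [h3, zero_smul, map_zero, smul_zero]

lemma eo_sum (hs : SemiX F X) {i : ℕ} (hi : i ≤ X.dim) {x : W.H X} (hx : x ∈ W.gr X i) :
    x = ∑ μ ∈ Ψ, eo F X Ψ μ x := by
  have h1 := semi_span hs hx
  clear hx
  induction h1 using Submodule.span_induction with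
  | zero => simp
  | add x y _ _ hx hy =>
    conv_lhs => rw [hx, hy]
    rw [← Finset.sum_add_distrib]
    exact Finset.sum_congr rfl fun μ _ => (map_add _ _ _).symm
  | smul c x _ hx =>
    conv_lhs => rw [hx]
    rw [Finset.smul_sum]
    exact Finset.sum_congr rfl fun μ _ => (map_smul _ _ _).symm
  | mem v hv =>
    obtain ⟨hv, ν, hν⟩ := hv
    by_cases hv0 : v = 0
    · rw [hv0]; simp
    obtain ⟨ν', hν', rfl, -⟩ := hΨ.eig i hi ν v hv hν hv0
    rw [Finset.sum_eq_single ν']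
    · exact (eo_self hν).symm
    · intro μ _ hμ
      rw [eo, pop_eig hν, lag_ne hν' hμ.symm]
      exact zero_smul _ _
    · intro h; exact absurd hν' h

end Factor

/-- The letters with the label `c` on the polarized variety `P`: the primitive eigenvectors. -/
def LS (F : FrobeniusOver W (p ^ a)) (P : Polarized 𝒱) (c : W.K ⊕ ℕ × W.K) :
    Submodule W.K (W.H P.X) where
  carrier := {x | x ∈ W.gr P.X (dgL c) ∧ fr F P.X x = egL c • x ∧
    ((LinearMap.mulLeft W.K (W.cl P.X P.D)) ^ (P.X.dim - dgL c + 1)) x = 0}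
  zero_mem' := ⟨Submodule.zero_mem _, by simp, map_zero _⟩
  add_mem' := by
    rintro x y ⟨h1, h2, h3⟩ ⟨h1', h2', h3'⟩
    exact ⟨Submodule.add_mem _ h1 h1', by rw [map_add, h2, h2', smul_add],
      by rw [map_add, h3, h3', add_zero]⟩
  smul_mem' := by
    rintro c x ⟨h1, h2, h3⟩
    exact ⟨Submodule.smul_mem _ _ h1, by rw [map_smul, h2, smul_comm],
      by rw [map_smul, h3, smul_zero]⟩

/-- the conjugate label -/
def cb (q : ℕ) {K : Type*} [Field K] : K ⊕ ℕ × K → K ⊕ ℕ × K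
  | Sum.inl x => Sum.inl ((q : K) / x)
  | Sum.inr x => Sum.inr (x.1, (q : K) ^ x.1 / x.2)

lemma dg_cb {q : ℕ} {K : Type*} [Field K] (c : K ⊕ ℕ × K) : dgL (cb q c) = dgL c := by
  rcases c with c | c <;> rfl

/-- the label is a Weil number -/
def WL (q : ℕ) {K : Type*} [Field K] [CharZero K] (c : K ⊕ ℕ × K) : Prop :=
  IsWeilNumber q (dgL c) (egL c)

lemma eg_cb {q : ℕ} {K : Type*} [Field K] (c : K ⊕ ℕ × K) :
    egL (cb q c) = (q : K) ^ (dgL c) / egL c := by
  rcases c with c | c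
  · change (q : K) / c = (q : K) ^ 1 / c
    rw [pow_one]
  · rfl

lemma cj_lab {q : ℕ} (hq : 0 < q) {K : Type*} [Field K] [CharZero K] [IsAlgClosed K]
    (σ : An K →ₐ[ℚ] ℂ) {c : K ⊕ ℕ × K} (h : WL q c) :
    ((cj σ (toAn h.1) : An K) : K) = egL (cb q c) := by
  have h1 := cj_weil σ h
  have h0 : egL c ≠ 0 := weil_ne hq h
  rw [eg_cb, eq_div_iff h0]
  have h2 := congrArg (fun t : An K => (t : K)) h1
  push_cast at h2
  rw [mul_comm]
  exact h2

lemma wl_cb {q : ℕ} (hq : 0 < q) {K : Type*} [Field K] [CharZero K] [IsAlgClosed K]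
    {c : K ⊕ ℕ × K} (h : WL q c) : WL q (cb q c) := by
  obtain ⟨σ⟩ := exists_emb K
  have h1 := cj_lab hq σ h
  obtain ⟨P, hP, hP0⟩ := h.1
  have hint : IsIntegral ℤ (egL (cb q c)) := by
    refine ⟨P, hP, ?_⟩
    rw [← h1]
    have h2 : Polynomial.aeval (toAn h.1) P = 0 := by
      apply (algebraMap (An K) K).injective
      rw [← Polynomial.aeval_algebraMap_apply, map_zero]
      exact hP0
    have h3 : Polynomial.aeval (cj σ (toAn h.1)) P = 0 := by
      have h4 : Polynomial.aeval (cj σ (toAn h.1)) P =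
          cj σ (Polynomial.aeval (toAn h.1) P) := (aeval_hom (cj σ) (toAn h.1) P).symm
      rw [h4, h2, map_zero]
    have h5 := congrArg (algebraMap (An K) K) h3
    rw [← Polynomial.aeval_algebraMap_apply, map_zero] at h5
    exact h5
  rw [WL, dg_cb]
  refine (isWeil_iff hint).2 fun τ => ?_
  -- any embedding
  have h6 : toAn hint = ((q : An K)) ^ (dgL c) / toAn h.1 := by
    apply Subtype.ext
    push_cast
    exact eg_cb c
  have h7 := (isWeil_iff h.1).1 h τ
  have hq' : (0 : ℝ) < q := by exact_mod_cast hq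
  rw [h6, map_div₀, map_pow, map_natCast, norm_div, norm_pow, Complex.norm_natCast, div_pow, h7,
    ← pow_mul, mul_comm, pow_mul]
  field_simp
  rw [← pow_mul, ← pow_mul, mul_comm]

lemma cb_cb {q : ℕ} (hq : 0 < q) {K : Type*} [Field K] [CharZero K] {c : K ⊕ ℕ × K}
    (h : WL q c) : cb q (cb q c) = c := by
  have h0 : egL c ≠ 0 := weil_ne hq h
  have hq0 : (q : K) ≠ 0 := by exact_mod_cast hq.ne'
  rcases c with c | c
  · change Sum.inl ((q : K) / ((q : K) / c)) = Sum.inl c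
    have : c ≠ 0 := h0
    congr 1
    field_simp
  · change Sum.inr (c.1, (q : K) ^ c.1 / ((q : K) ^ c.1 / c.2)) = Sum.inr c
    have : c.2 ≠ 0 := h0
    congr 1
    refine Prod.ext rfl ?_
    change (q : K) ^ c.1 / ((q : K) ^ c.1 / c.2) = c.2
    field_simp

section Letter

variable {P : Polarized 𝒱} {f Φ : Module.End W.K (W.H P.X)}

/-- the powers of `L` and Frobenius -/
lemma prim_stable {i : ℕ} (hD : P.X.IsCyc 1 P.D) {x : W.H P.X}
    (hx : ((LinearMap.mulLeft W.K (W.cl P.X P.D)) ^ i) x = 0) :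
    ((LinearMap.mulLeft W.K (W.cl P.X P.D)) ^ i) (fr F P.X x) = 0 := by
  have h1 := FH.frob_L F hD i x
  rw [hx, map_zero] at h1
  have hq0 : (((p ^ a : ℕ) : W.K)) ^ i ≠ 0 := by
    apply pow_ne_zero
    exact_mod_cast (pow_pos (Fact.out : p.Prime).pos a).ne'
  exact (smul_eq_zero.1 h1.symm).resolve_left hq0

end Letter

end Pool.Agent.Q56.HP
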