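import Pool.Agent.Q56.CT.Weil

/-!
# Complex conjugation on the algebraic numbers of a field, and positive numbers
-/

set_option autoImplicit false

open Polynomial

namespace Pool.Agent.Q56.HP

open Pool.Agent.Q56.CT Pool.Agent.Q56.CTS

variable {K : Type*} [Field K] [CharZero K]

section Conj

variable (σ : An K →ₐ[ℚ] ℂ)

lemma σ_inj {x y : An K} (h : σ x = σ y) : x = y := σ.toRingHom.injective h

lemma exists_cj [IsAlgClosed K] (x : An K) : ∃ y : An K, σ y = starRingEnd ℂ (σ x) := by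
  have hcl : IsAlgClosed (An K) := (algebraicClosure.isAlgClosure ℚ K).isAlgClosed
  have hint : IsIntegral ℚ x := Algebra.IsIntegral.isIntegral x
  have hne : minpoly ℚ x ≠ 0 := minpoly.ne_zero hint
  have hs : ((minpoly ℚ x).map (algebraMap ℚ (An K))).Splits := IsAlgClosed.splits _
  have h1 : starRingEnd ℂ (σ x) ∈ (minpoly ℚ x).rootSet ℂ := by
    rw [Polynomial.mem_rootSet]
    refine ⟨hne, ?_⟩
    have h2 : aeval (starRingEnd ℂ (σ x)) (minpoly ℚ x) =
        starRingEnd ℂ (aeval (σ x) (minpoly ℚ x)) := by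
      have h3 := aeval_algHom_apply ((starRingEnd ℂ).toRatAlgHom) (σ x) (minpoly ℚ x)
      exact h3
    rw [h2, aeval_algHom_apply, minpoly.aeval, map_zero, map_zero]
  rw [← hs.image_rootSet σ] at h1
  obtain ⟨y, -, hy⟩ := h1
  exact ⟨y, hy⟩

/-- complex conjugation -/
noncomputable def cj [IsAlgClosed K] : An K →+* An K where
  toFun x := (exists_cj σ x).choose
  map_one' := σ_inj σ (by rw [(exists_cj σ 1).choose_spec]; simp)
  map_zero' := σ_inj σ (by rw [(exists_cj σ 0).choose_spec]; simp)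
  map_add' x y := σ_inj σ (by
    rw [(exists_cj σ (x + y)).choose_spec, map_add, map_add, map_add,
      (exists_cj σ x).choose_spec, (exists_cj σ y).choose_spec])
  map_mul' x y := σ_inj σ (by
    rw [(exists_cj σ (x * y)).choose_spec, map_mul, map_mul, map_mul,
      (exists_cj σ x).choose_spec, (exists_cj σ y).choose_spec])

variable [IsAlgClosed K]

lemma σ_cj (x : An K) : σ (cj σ x) = starRingEnd ℂ (σ x) := (exists_cj σ x).choose_spec

lemma cj_cj (x : An K) : cj σ (cj σ x) = x := by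
  apply σ_inj σ
  rw [σ_cj, σ_cj, Complex.conj_conj]

lemma cj_inj : Function.Injective (cj σ) := (cj σ).injective

lemma cj_rat (r : ℚ) : cj σ (r : An K) = r := map_ratCast _ r

/-- The conjugate of a Weil number. -/
lemma cj_weil {q i : ℕ} {x : K} (h : IsWeilNumber q i x) :
    toAn h.1 * cj σ (toAn h.1) = ((q : An K)) ^ i := by
  apply σ_inj σ
  rw [map_mul, σ_cj, Complex.mul_conj, Complex.normSq_eq_norm_sq, (isWeil_iff h.1).1 h σ,
    map_pow, map_natCast]
  push_cast
  rfl

end Conj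

section Pos

variable (σ : An K →ₐ[ℚ] ℂ)

/-- The element of `K` is a positive algebraic number, for the embedding `σ`. -/
def PosK (x : K) : Prop := ∃ t : An K, x = t ∧ ∃ r : ℝ, 0 < r ∧ σ t = r

variable {σ}

lemma PosK.rat {r : ℚ} (hr : 0 < r) : PosK σ (r : K) :=
  ⟨(r : An K), by push_cast; rfl, (r : ℝ), by exact_mod_cast hr, by rw [map_ratCast]; push_cast; rfl⟩

lemma PosK.add {x y : K} (hx : PosK σ x) (hy : PosK σ y) : PosK σ (x + y) := by
  obtain ⟨t, rfl, r, hr, h⟩ := hx
  obtain ⟨t', rfl, r', hr', h'⟩ := hy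
  exact ⟨t + t', by push_cast; rfl, r + r', add_pos hr hr', by rw [map_add, h, h']; push_cast; rfl⟩

lemma PosK.mul {x y : K} (hx : PosK σ x) (hy : PosK σ y) : PosK σ (x * y) := by
  obtain ⟨t, rfl, r, hr, h⟩ := hx
  obtain ⟨t', rfl, r', hr', h'⟩ := hy
  exact ⟨t * t', by push_cast; rfl, r * r', mul_pos hr hr', by rw [map_mul, h, h']; push_cast; rfl⟩

lemma PosK.ne_zero {x : K} (hx : PosK σ x) : x ≠ 0 := by
  obtain ⟨t, rfl, r, hr, h⟩ := hx
  intro h0
  have h1 : t = 0 := by exact_mod_cast h0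
  rw [h1, map_zero] at h
  exact hr.ne (by exact_mod_cast h)

lemma PosK.one : PosK σ (1 : K) := by
  have := PosK.rat (σ := σ) (r := 1) one_pos
  simpa using this

lemma PosK.inv {x : K} (hx : PosK σ x) : PosK σ x⁻¹ := by
  obtain ⟨t, rfl, r, hr, h⟩ := hx
  exact ⟨t⁻¹, by push_cast; rfl, r⁻¹, inv_pos.2 hr, by rw [map_inv₀, h]; push_cast; rfl⟩

lemma PosK.of_mul_left {x y : K} (h : PosK σ (x * y)) (hx : PosK σ x) : PosK σ y := by
  have h1 := hx.inv.mul h
  rwa [← mul_assoc, inv_mul_cancel₀ hx.ne_zero, one_mul] at h1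

lemma PosK.of_mul_right {x y : K} (h : PosK σ (x * y)) (hy : PosK σ y) : PosK σ x := by
  rw [mul_comm] at h
  exact h.of_mul_left hy

lemma PosK.prod {ι : Type*} (s : Finset ι) {f : ι → K} (h : ∀ i ∈ s, PosK σ (f i)) :
    PosK σ (∏ i ∈ s, f i) := by
  classical
  induction s using Finset.induction_on with
  | empty => rw [Finset.prod_empty]; exact PosK.one
  | insert a s ha ih =>
    rw [Finset.prod_insert ha]
    exact (h a (Finset.mem_insert_self _ _)).mul (ih fun i hi => h i (Finset.mem_insert_of_mem hi))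

/-- zero or positive -/
def NonnegK (σ : An K →ₐ[ℚ] ℂ) (x : K) : Prop := x = 0 ∨ PosK σ x

lemma NonnegK.add {x y : K} (hx : NonnegK σ x) (hy : NonnegK σ y) : NonnegK σ (x + y) := by
  rcases hx with rfl | hx
  · rw [zero_add]; exact hy
  · rcases hy with rfl | hy
    · rw [add_zero]; exact Or.inr hx
    · exact Or.inr (hx.add hy)

lemma NonnegK.mul {x y : K} (hx : NonnegK σ x) (hy : NonnegK σ y) : NonnegK σ (x * y) := by
  rcases hx with rfl | hx
  · rw [zero_mul]; exact Or.inl rfl
  · rcases hy with rfl | hy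
    · rw [mul_zero]; exact Or.inl rfl
    · exact Or.inr (hx.mul hy)

lemma NonnegK.sum {ι : Type*} (s : Finset ι) {f : ι → K} (h : ∀ i ∈ s, NonnegK σ (f i)) :
    NonnegK σ (∑ i ∈ s, f i) := by
  classical
  induction s using Finset.induction_on with
  | empty => rw [Finset.sum_empty]; exact Or.inl rfl
  | insert a s ha ih =>
    rw [Finset.sum_insert ha]
    exact (h a (Finset.mem_insert_self _ _)).add (ih fun i hi => h i (Finset.mem_insert_of_mem hi))

lemma PosK.add_nonneg {x y : K} (hx : PosK σ x) (hy : NonnegK σ y) : PosK σ (x + y) := by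
  rcases hy with rfl | hy
  · rw [add_zero]; exact hx
  · exact hx.add hy

lemma PosK.sum {ι : Type*} (s : Finset ι) {f : ι → K} (h : ∀ i ∈ s, NonnegK σ (f i))
    (h' : ∃ i ∈ s, PosK σ (f i)) : PosK σ (∑ i ∈ s, f i) := by
  classical
  obtain ⟨i, hi, hp⟩ := h'
  rw [← Finset.add_sum_erase _ _ hi]
  exact hp.add_nonneg (NonnegK.sum _ fun j hj => h j (Finset.mem_of_mem_erase hj))

variable [IsAlgClosed K]

/-- squares of absolute values -/
lemma PosK.norm {a : An K} (ha : a ≠ 0) : PosK σ ((a : K) * (cj σ a : An K)) := by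
  refine ⟨a * cj σ a, by push_cast; rfl, Complex.normSq (σ a), ?_, ?_⟩
  · rw [Complex.normSq_pos]
    intro h0
    exact ha (σ_inj σ (by rw [h0, map_zero]))
  · rw [map_mul, σ_cj, Complex.mul_conj]

lemma NonnegK.norm (a : An K) : NonnegK σ ((a : K) * (cj σ a : An K)) := by
  by_cases ha : a = 0
  · left; rw [ha]; simp
  · exact Or.inr (PosK.norm ha)

/-- positive numbers are real -/
lemma PosK.cj_eq {t : An K} (h : PosK σ (t : K)) : cj σ t = t := by
  obtain ⟨t', ht, r, -, h'⟩ := h
  have h1 : t = t' := by exact_mod_cast ht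
  apply σ_inj σ
  rw [σ_cj, h1, h', Complex.conj_ofReal]

end Pos

end Pool.Agent.Q56.HP
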