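import Pool.Agent.Q56.HP.Crit

/-!
# Rules for the positivity on words
-/

set_option autoImplicit false
set_option linter.unusedSectionVars false

open CategoryTheory AlgebraicGeometry

universe u v w

namespace Pool.Agent.Q56.HP

open Pool.Agent.H914 Pool.Agent.H914.VarClass Pool.Agent.H914.VarClass.Obj
  Pool.Agent.H914.WeilCohomology Pool.Agent.H281R3.HT Pool.Agent.W552
  Pool.Agent.W458.MF Pool.Agent.Q56.CT Pool.Agent.Q56.CTS Pool.Agent.Q56.FE Pool.Agent.Q56.FH
open Pool.Agent.Q56.FR (fr)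

variable {k : Type u} [Field k] {𝒱 : VarClass k} {ops : CycleOps 𝒱}
  {W : WeilCohomology.{u, v} ops} [IsAlgClosed W.K] {σ : An W.K →ₐ[ℚ] ℂ}
  {p : ℕ} [Fact p.Prime] {a : ℕ} {F : FrobeniusOver W (p ^ a)}

lemma span_bilin {K V₁ V₂ V₃ : Type*} [Field K] [AddCommGroup V₁] [Module K V₁]
    [AddCommGroup V₂] [Module K V₂] [AddCommGroup V₃] [Module K V₃] (μ : V₁ →ₗ[K] V₂ →ₗ[K] V₃)
    {S : Set V₁} {S' : Set V₂} {R : Set V₃}
    (h : ∀ x ∈ S, ∀ y ∈ S', μ x y ∈ Submodule.span K R) {x : V₁} (hx : x ∈ Submodule.span K S)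
    {y : V₂} (hy : y ∈ Submodule.span K S') : μ x y ∈ Submodule.span K R := by
  induction hx using Submodule.span_induction with
  | zero => rw [map_zero, LinearMap.zero_apply]; exact Submodule.zero_mem _
  | add x y _ _ hx hy => rw [map_add, LinearMap.add_apply]; exact Submodule.add_mem _ hx hy
  | smul c x _ hx => rw [map_smul, LinearMap.smul_apply]; exact Submodule.smul_mem _ _ hx
  | mem v hv =>
    induction hy using Submodule.span_induction with
    | mem u hu => exact h v hv u hu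
    | zero => rw [map_zero]; exact Submodule.zero_mem _
    | add x y _ _ hx hy => rw [map_add]; exact Submodule.add_mem _ hx hy
    | smul c x _ hx => rw [map_smul]; exact Submodule.smul_mem _ _ hx

section Mx

variable {n m m' : ℕ} {P : Fin (n + 1) → Polarized 𝒱} {e' : Fin (m' + 1) → Fin (n + 1)}
  {e : Fin (m + 1) → Fin (n + 1)} {lab : Fin (n + 1) → W.K ⊕ ℕ × W.K}

/-- the product on the two parts, as a bilinear map -/
noncomputable def mxL (W : WeilCohomology.{u, v} ops) (P : Fin (n + 1) → Polarized 𝒱)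
    (e' : Fin (m' + 1) → Fin (n + 1)) (e : Fin (m + 1) → Fin (n + 1)) :
    W.H (part ops P e').X →ₗ[W.K] W.H (part ops P e).X →ₗ[W.K] W.H (nest ops n P).X :=
  LinearMap.mk₂ W.K (mx W P e' e) mx_add_left mx_smul_left mx_add_right mx_smul_right

lemma mx_VV (h : Spl e' e) {u : W.H (part ops P e').X} {v : W.H (part ops P e).X}
    (hu : u ∈ VV F (fun i => P (e' i)) fun i => lab (e' i))
    (hv : v ∈ VV F (fun i => P (e i)) fun i => lab (e i)) : mx W P e' e u v ∈ VV F P lab := by
  unfold VV at hu hv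
  induction hu using Submodule.span_induction with
  | zero => rw [mx_zero_left]; exact Submodule.zero_mem _
  | add x y _ _ hx hy => rw [mx_add_left]; exact Submodule.add_mem _ hx hy
  | smul c x _ hx => rw [mx_smul_left]; exact Submodule.smul_mem _ _ hx
  | mem u hu =>
  induction hv using Submodule.span_induction with
  | zero => rw [mx_zero_right]; exact Submodule.zero_mem _
  | add x y _ _ hx hy => rw [mx_add_right]; exact Submodule.add_mem _ hx hy
  | smul c x _ hx => rw [mx_smul_right]; exact Submodule.smul_mem _ _ hx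
  | mem v hv =>
  obtain ⟨x₁, h₁, rfl⟩ := hu
  obtain ⟨x₂, h₂, rfl⟩ := hv
  obtain ⟨x, hx1, hx2⟩ := h.glue (β := fun a => W.H (P a).X) x₁ x₂
  obtain rfl : (fun i => x (e' i)) = x₁ := funext hx1
  obtain rfl : (fun i => x (e i)) = x₂ := funext hx2
  have hx : ∀ i, x i ∈ LS F (P i) (lab i) := by
    intro i
    rcases h.cover i with ⟨j, rfl⟩ | ⟨j, rfl⟩
    · exact h₁ j
    · exact h₂ j
  obtain ⟨ε, -, hε⟩ := nw_eq_mx (W := W) (P := P) h fun i => dgL (lab i)
  rw [hε x fun i => (hx i).1]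
  exact Submodule.smul_mem _ _ (VV_nw hx)

lemma VV_mx (h : Spl e' e) {z : W.H (nest ops n P).X} (hz : z ∈ VV F P lab) :
    z ∈ Submodule.span W.K {t | ∃ u ∈ VV F (fun i => P (e' i)) fun i => lab (e' i),
      ∃ v ∈ VV F (fun i => P (e i)) fun i => lab (e i), t = mx W P e' e u v} := by
  refine (Submodule.span_le).2 ?_ hz
  rintro z ⟨x, hx, rfl⟩
  obtain ⟨ε, hε1, hε⟩ := nw_eq_mx (W := W) (P := P) h fun i => dgL (lab i)
  have h3 := hε x fun i => (hx i).1
  have h4 : nw W P x = (ε : W.K) • mx W P e' e (nw W (fun i => P (e' i)) fun i => x (e' i))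
        (nw W (fun i => P (e i)) fun i => x (e i)) := by
    rw [h3, smul_smul]
    have h5 : (ε : W.K) * (ε : W.K) = 1 := by
      exact_mod_cast congrArg (Int.cast (R := W.K)) hε1
    rw [h5, one_smul]
  rw [h4]
  exact Submodule.smul_mem _ _ (Submodule.subset_span ⟨_, VV_nw fun i => hx (e' i), _,
    VV_nw fun i => hx (e i), rfl⟩)

end Mx

variable {ι : Type w} {Pf : ι → Polarized 𝒱} {f Φ : ∀ i, Module.End W.K (W.H (Pf i).X)}

namespace Dat

variable (D : Dat F σ Pf f Φ) {n m m' : ℕ} {c : Fin (n + 1) → ι}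
  {lab : Fin (n + 1) → W.K ⊕ ℕ × W.K} {e' : Fin (m' + 1) → Fin (n + 1)}
  {e : Fin (m + 1) → Fin (n + 1)}

lemma B_mx (h : Spl e' e) (u u' : W.H (nest ops m' fun i => Pf (c (e' i))).X)
    (v v' : W.H (nest ops m fun i => Pf (c (e i))).X) :
    D.B c (mx W (fun i => Pf (c i)) e' e u v) (mx W (fun i => Pf (c i)) e' e u' v') =
      D.B (fun i => c (e' i)) u u' * D.B (fun i => c (e i)) v v' :=
  bf_mx (P := fun i => Pf (c i)) (fun i => (D.loc (c i)).F) h (D.B_nw c)
    (D.B_nw fun i => c (e' i)) (D.B_nw fun i => c (e i)) u u' v v'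

omit D in
lemma mx_MR (h : Spl e' e) {u u' : W.H (nest ops m' fun i => Pf (c (e' i))).X}
    {v v' : W.H (nest ops m fun i => Pf (c (e i))).X}
    (hu : MR (F := F) (σ := σ) (fun i => c (e' i)) (fun i => lab (e' i)) u u')
    (hv : MR (F := F) (σ := σ) (fun i => c (e i)) (fun i => lab (e i)) v v') :
    MR (F := F) (σ := σ) c lab (mx W (fun i => Pf (c i)) e' e u v)
      (mx W (fun i => Pf (c i)) e' e u' v') := by
  refine ⟨?_, mx_VV h hu.2.1 hv.2.1, mx_VV (lab := fun i => cb (p ^ a) (lab i)) h hu.2.2 hv.2.2⟩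
  exact Cj.bilin (μ := mxL W (fun i => Pf (c i)) e' e)
    (fun z w hz hw => (hz.map _).mul (hw.map _)) hu.1 hv.1

include D in
lemma mx_ne (h : Spl e' e) {u : W.H (nest ops m' fun i => Pf (c (e' i))).X}
    {v : W.H (nest ops m fun i => Pf (c (e i))).X} (hu : u ≠ 0) (hv : v ≠ 0) :
    mx W (fun i => Pf (c i)) e' e u v ≠ 0 := by
  intro h0
  obtain ⟨u', hu'⟩ : ∃ u', D.B (fun i => c (e' i)) u u' ≠ 0 := by
    by_contra hcon
    push Not at hcon
    exact hu (D.nondeg hcon)
  obtain ⟨v', hv'⟩ : ∃ v', D.B (fun i => c (e i)) v v' ≠ 0 := by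
    by_contra hcon
    push Not at hcon
    exact hv (D.nondeg hcon)
  have h1 := D.B_mx h u u' v v'
  rw [h0, map_zero, LinearMap.zero_apply] at h1
  exact mul_ne_zero hu' hv' h1.symm

/-- **Positivity on a product of words.** -/
theorem nn_add (h : Spl e' e) (hok : OkW Pf (p ^ a) c lab) (h1 : TL (p ^ a) fun i => lab (e' i))
    (h2 : TL (p ^ a) fun i => lab (e i)) (h1' : D.NN (fun i => c (e' i)) fun i => lab (e' i))
    (h2' : D.NN (fun i => c (e i)) fun i => lab (e i)) : D.NN c lab := by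
  intro x x' hx hne
  refine pos_tensor (D.herm fun i => lab (e' i)) h1' (D.herm fun i => lab (e i)) h2'
    (D.herm lab) (mxL W (fun i => Pf (c i)) e' e) (fun x x' y y' hx hy => mx_MR h hx hy)
    (fun x u y v => D.B_mx h x u y v) hx ?_ ?_ hne
  · refine (Submodule.span_le).2 ?_ (VV_mx h hx.2.1)
    rintro t ⟨u, hu, v, hv, rfl⟩
    refine span_bilin (mxL W (fun i => Pf (c i)) e' e) ?_
      (D.sp (fun i => hok (e' i)) h1 hu) (D.sp (fun i => hok (e i)) h2 hv)
    rintro x ⟨x', hx⟩ y ⟨y', hy⟩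
    exact Submodule.subset_span ⟨x, x', y, y', hx, hy, rfl⟩
  · refine (Submodule.span_le).2 ?_ (VV_mx h hx.2.2)
    rintro t ⟨u, hu, v, hv, rfl⟩
    refine span_bilin (mxL W (fun i => Pf (c i)) e' e) ?_
      (D.sp' (fun i => hok (e' i)) h1 hu) (D.sp' (fun i => hok (e i)) h2 hv)
    rintro x ⟨x', hx⟩ y ⟨y', hy⟩
    exact Submodule.subset_span ⟨x', x, y', y, hx, hy, rfl⟩

/-- **Cancellation.** -/
theorem nn_cancel (h : Spl e' e) (h1 : D.NN c lab)
    (h2 : ∃ y y', MR (F := F) (σ := σ) (fun i => c (e i)) (fun i => lab (e i)) y y' ∧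
      PosK σ (D.B (fun i => c (e i)) y y')) : D.NN (fun i => c (e' i)) fun i => lab (e' i) := by
  obtain ⟨y, y', hy, hpos⟩ := h2
  have hy0 : y ≠ 0 := by
    rintro rfl
    rw [map_zero, LinearMap.zero_apply] at hpos
    exact hpos.ne_zero rfl
  have hy0' : y' ≠ 0 := by
    rintro rfl
    rw [map_zero] at hpos
    exact hpos.ne_zero rfl
  intro x x' hx hne
  have h3 := h1 _ _ (mx_MR h hx hy) (by
    rcases hne with h4 | h4
    · exact Or.inl (D.mx_ne h h4 hy0)
    · exact Or.inr (D.mx_ne h h4 hy0'))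
  rw [D.B_mx h] at h3
  exact h3.of_mul_right hpos

/-- **Permutation of the factors.** -/
theorem nn_perm (σ' : Equiv.Perm (Fin (n + 1))) (h : D.NN c lab) :
    D.NN (fun i => c (σ' i)) fun i => lab (σ' i) := by
  have hperm : (List.finRange (n + 1)).Perm ((List.finRange (n + 1)).map σ') := by
    refine (List.perm_ext_iff_of_nodup (List.nodup_finRange _)
      ((List.nodup_finRange _).map σ'.injective)).2 fun b => ?_
    refine ⟨fun _ => List.mem_map.2 ⟨σ'.symm b, List.mem_finRange _, σ'.apply_symm_apply b⟩,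
      fun _ => List.mem_finRange b⟩
  have hpp : ∀ δ : Fin (n + 1) → ℕ, ∃ ε : ℤ, ε * ε = 1 ∧ ∀ x : ∀ i, W.H (Pf (c i)).X,
      (∀ i, x i ∈ W.gr (Pf (c i)).X (δ i)) →
      W.map (pp ops (fun i => Pf (c i)) σ') (nw W (fun i => Pf (c (σ' i))) fun i => x (σ' i)) =
        (ε : W.K) • nw W (fun i => Pf (c i)) x := by
    intro δ
    obtain ⟨ε, h1, h2⟩ := wd_perm (W := W) (prj ops n fun i => Pf (c i)) (δ := δ) hperm
    refine ⟨ε, h1, fun x hx => ?_⟩
    have h3 := map_pp (ops := ops) (P := fun i => Pf (c i)) σ' x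
    rw [h3, h2 x hx]
    rfl
  have hglue : ∀ x₁ : ∀ i, W.H (Pf (c (σ' i))).X, ∃ x : ∀ i, W.H (Pf (c i)).X,
      ∀ i, x (σ' i) = x₁ i := by
    intro x₁
    have key : ∀ b, ∃ z : W.H (Pf (c b)).X, ∀ i (hi : σ' i = b), z = hi ▸ x₁ i := by
      intro b
      obtain ⟨i, rfl⟩ := σ'.surjective b
      refine ⟨x₁ i, fun j hj => ?_⟩
      obtain rfl := σ'.injective hj
      rfl
    choose x hx using key
    exact ⟨x, fun i => hx (σ' i) i rfl⟩
  set φ : W.H (nest ops n fun i => Pf (c (σ' i))).X →ₗ[W.K] W.H (nest ops n fun i => Pf (c i)).X :=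
    (W.map (pp ops (fun i => Pf (c i)) σ')).toLinearMap with hφ
  -- the form
  have hB : ∀ u v, D.B c (φ u) (φ v) = D.B (fun i => c (σ' i)) u v := by
    intro u v
    have h1 := nest_span (W := W) (ops := ops) (P := fun i => Pf (c (σ' i)))
      (S := fun i => Hom W (Pf (c (σ' i))).X) (fun i y => hom_span _ y) u
    have h2 := nest_span (W := W) (ops := ops) (P := fun i => Pf (c (σ' i)))
      (S := fun i => Hom W (Pf (c (σ' i))).X) (fun i y => hom_span _ y) v
    induction h1 using Submodule.span_induction with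
    | zero => simp
    | add x y _ _ hx hy =>
      rw [map_add, map_add, LinearMap.add_apply, hx, hy, map_add, LinearMap.add_apply]
    | smul b x _ hx =>
      rw [map_smul, map_smul, LinearMap.smul_apply, hx, map_smul, LinearMap.smul_apply]
    | mem u hu =>
    induction h2 using Submodule.span_induction with
    | zero => simp
    | add x y _ _ hx hy => rw [map_add, map_add, hx, hy, map_add]
    | smul b x _ hx => rw [map_smul, map_smul, hx, map_smul]
    | mem v hv =>
    obtain ⟨x₁, h₁, rfl⟩ := hu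
    obtain ⟨x₂, h₂, rfl⟩ := hv
    obtain ⟨x, hx⟩ := hglue x₁
    obtain ⟨y, hy⟩ := hglue x₂
    obtain rfl : (fun i => x (σ' i)) = x₁ := funext hx
    obtain rfl : (fun i => y (σ' i)) = x₂ := funext hy
    have hx' : ∀ b, ∃ i, x b ∈ W.gr (Pf (c b)).X i := by
      intro b
      obtain ⟨i, rfl⟩ := σ'.surjective b
      exact h₁ i
    have hy' : ∀ b, ∃ i, y b ∈ W.gr (Pf (c b)).X i := by
      intro b
      obtain ⟨i, rfl⟩ := σ'.surjective b
      exact h₂ i
    choose δ hδ using hx'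
    choose δ' hδ' using hy'
    choose ε hε1 hε2 using hpp
    have e1 : φ (nw W (fun i => Pf (c (σ' i))) fun i => x (σ' i)) = _ := hε2 δ x hδ
    have e2 : φ (nw W (fun i => Pf (c (σ' i))) fun i => y (σ' i)) = _ := hε2 δ' y hδ'
    have e3 : D.B (fun i => c (σ' i)) (nw W (fun i => Pf (c (σ' i))) fun i => x (σ' i))
        (nw W (fun i => Pf (c (σ' i))) fun i => y (σ' i)) = D.B c (nw W (fun i => Pf (c i)) x)
          (nw W (fun i => Pf (c i)) y) := by
      rw [D.B_nw, D.B_nw]
      exact Equiv.prod_comp σ' fun b => bf W (Pf (c b)).X (Pf (c b)).D (f (c b)) (x b) (y b)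
    rw [e1, e2, e3, map_smul, map_smul, LinearMap.smul_apply]
    by_cases h0 : δ = δ'
    · subst h0
      rw [smul_smul]
      have h5 : (ε δ : W.K) * (ε δ : W.K) = 1 := by
        exact_mod_cast congrArg (Int.cast (R := W.K)) (hε1 δ)
      rw [h5, one_smul]
    · obtain ⟨b, hb⟩ := Function.ne_iff.1 h0
      rw [D.B_nw, Finset.prod_eq_zero (Finset.mem_univ b)
        ((D.loc (c b)).F.bf_deg (hδ b) (hδ' b) hb), smul_zero, smul_zero]
  have hne : ∀ u, u ≠ 0 → φ u ≠ 0 := by
    intro u hu h0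
    apply hu
    apply D.nondeg
    intro y
    rw [← hB, h0, map_zero, LinearMap.zero_apply]
  have hVV : ∀ (lab : Fin (n + 1) → W.K ⊕ ℕ × W.K)
      (u : W.H (nest ops n fun i => Pf (c (σ' i))).X),
      u ∈ VV F (fun i => Pf (c (σ' i))) (fun i => lab (σ' i)) →
        φ u ∈ VV F (fun i => Pf (c i)) lab := by
    intro lab u hu
    unfold VV at hu
    induction hu using Submodule.span_induction with
    | zero => rw [map_zero]; exact Submodule.zero_mem _
    | add x y _ _ hx hy => rw [map_add]; exact Submodule.add_mem _ hx hy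
    | smul b x _ hx => rw [map_smul]; exact Submodule.smul_mem _ _ hx
    | mem u hu =>
      obtain ⟨x₁, h₁, rfl⟩ := hu
      obtain ⟨x, hx⟩ := hglue x₁
      obtain rfl : (fun i => x (σ' i)) = x₁ := funext hx
      have hx' : ∀ b, x b ∈ LS F (Pf (c b)) (lab b) := by
        intro b
        obtain ⟨i, rfl⟩ := σ'.surjective b
        exact h₁ i
      obtain ⟨ε, -, hε⟩ := hpp fun i => dgL (lab i)
      have e1 : φ (nw W (fun i => Pf (c (σ' i))) fun i => x (σ' i)) = _ :=
        hε x fun i => (hx' i).1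
      rw [e1]
      exact Submodule.smul_mem _ _ (VV_nw hx')
  intro x x' hx h0
  rw [← hB]
  refine h _ _ ⟨hx.1.map _, hVV lab x hx.2.1, hVV (fun i => cb (p ^ a) (lab i)) x' hx.2.2⟩ ?_
  rcases h0 with h0 | h0
  · exact Or.inl (hne _ h0)
  · exact Or.inr (hne _ h0)

end Dat

end Pool.Agent.Q56.HP
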