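import Pool.Agent.Q56.HP.Nest

/-!
# Pairs of conjugate classes span
-/

set_option autoImplicit false
set_option linter.unusedSectionVars false

open CategoryTheory AlgebraicGeometry

universe u v w

namespace Pool.Agent.Q56.HP

open Pool.Agent.H914 Pool.Agent.H914.VarClass Pool.Agent.H914.VarClass.Obj
  Pool.Agent.H914.WeilCohomology Pool.Agent.H281R3.HT Pool.Agent.W552
  Pool.Agent.W458.MF Pool.Agent.Q56.CT Pool.Agent.Q56.CTS Pool.Agent.Q56.FE Pool.Agent.Q56.FH
open Pool.Agent.Q56.FR (fr)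

variable {k : Type u} [Field k] {𝒱 : VarClass k} {ops : CycleOps 𝒱}
  {W : WeilCohomology.{u, v} ops} [IsAlgClosed W.K] {σ : An W.K →ₐ[ℚ] ℂ}
  {p : ℕ} [Fact p.Prime] {a : ℕ} {F : FrobeniusOver W (p ^ a)}

section HL

variable {X : 𝒱.Obj} {D : X.Cycles} {f : Module.End W.K (W.H X)}

omit [IsAlgClosed W.K] in
lemma fr_hardLefschetz (F : Fr W X D f) : HardLefschetz W X D := by
  have hinj : ∀ i ≤ X.dim, ∀ a ∈ W.gr X i,
      (LinearMap.mulLeft W.K (W.cl X D) ^ (X.dim - i)) a = 0 → a = 0 := by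
    intro i hi a ha h0
    by_contra ha0
    refine Sl2.e_pow_inj F.sl2 (x := a) (M := X.dim - i) ?_ ha0 le_rfl h0
    rw [Fr.wt_gr ha]
    congr 1
    rw [Nat.cast_sub hi]
    ring
  have hle : ∀ i, Module.finrank W.K (W.gr X i) ≤ Module.finrank W.K (W.gr X (2 * X.dim - i)) := by
    intro i
    rw [← Subspace.dual_finrank_eq (K := W.K) (V := W.gr X (2 * X.dim - i))]
    refine LinearMap.finrank_le_finrank_of_injective
      (f := ((bil W X).domRestrict₁₂ (W.gr X i) (W.gr X (2 * X.dim - i)))) ?_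
    rw [← LinearMap.ker_eq_bot, LinearMap.ker_eq_bot']
    rintro ⟨a, ha⟩ h0
    apply Subtype.ext
    apply W.nondeg
    intro b
    refine gr_induction (W.isInternal X) (p := fun b => W.tr X (a * b) = 0) ?_ ?_ b
    · intro l b hb
      by_cases hl : i + l = 2 * X.dim
      · have h2 : b ∈ W.gr X (2 * X.dim - i) := by rwa [show 2 * X.dim - i = l by omega]
        have := congrArg (fun g => g ⟨b, h2⟩) h0
        exact this
      · exact W.tr_eq_zero (W.mul_mem ha hb) hl
    · intro b b' hb hb'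
      rw [mul_add, map_add, hb, hb', add_zero]
  intro i hi
  refine ⟨hinj i hi, ?_⟩
  have hmem : ∀ v ∈ W.gr X i, ((LinearMap.mulLeft W.K (W.cl X D)) ^ (X.dim - i)) v ∈
      W.gr X (2 * X.dim - i) := by
    intro v hv
    have := pow_L_mem (mulLeft_isHom (W := W) F.hD) hv (X.dim - i)
    rwa [show i + 2 * (X.dim - i) = 2 * X.dim - i by omega] at this
  have hginj : Function.Injective
      (((LinearMap.mulLeft W.K (W.cl X D)) ^ (X.dim - i)).restrict hmem) := by
    rw [← LinearMap.ker_eq_bot, LinearMap.ker_eq_bot']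
    rintro ⟨v, hv⟩ h0
    apply Subtype.ext
    exact hinj i hi v hv (congrArg Subtype.val h0)
  have heq : Module.finrank W.K (W.gr X i) = Module.finrank W.K (W.gr X (2 * X.dim - i)) := by
    refine le_antisymm (hle i) ?_
    have := hle (2 * X.dim - i)
    rwa [show 2 * X.dim - (2 * X.dim - i) = i by omega] at this
  intro b hb
  obtain ⟨⟨a, ha⟩, hab⟩ :=
    ((LinearMap.injective_iff_surjective_of_finrank_eq_finrank heq).1 hginj) ⟨b, hb⟩
  exact ⟨a, ha, congrArg Subtype.val hab⟩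

omit [IsAlgClosed W.K] in
lemma fr_ls (F : Fr W X D f) : LefStr (W.isInternal X) X.dim (LinearMap.mulLeft W.K (W.cl X D)) f :=
  ⟨mulLeft_isHom F.hD, W_hbd, fr_hardLefschetz F, F.sl2⟩

end HL

lemma bf_nondegL {X : 𝒱.Obj} {D : X.Cycles} {f : Module.End W.K (W.H X)} (G : Fr W X D f)
    (S : Sy W X D f) {x : W.H X} (h : ∀ y, bf W X D f x y = 0) : x = 0 := by
  apply bf_nondeg' G (fr_ls G)
  intro y
  have h1 : H914.par (W.isInternal X) (H914.par (W.isInternal X) y) = y :=
    congrArg (fun G => G y) (par_mul_par (W.isInternal X))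
  have h2 := S x (H914.par (W.isInternal X) y)
  rw [h1, h] at h2
  exact h2.symm

lemma tl_cb {q : ℕ} (hq : 0 < q) {n : ℕ} {K : Type*} [Field K] [CharZero K]
    {lab : Fin (n + 1) → K ⊕ ℕ × K} (h : TL q lab) : TL q fun i => cb q (lab i) := by
  obtain ⟨j, h1, h2⟩ := h
  have hq0 : (q : K) ≠ 0 := by exact_mod_cast hq.ne'
  refine ⟨j, ?_, ?_⟩
  · rw [← h1]
    exact Finset.sum_congr rfl fun i _ => dg_cb _
  · have h3 : ∏ i, egL (cb q (lab i)) = ∏ i, ((q : K) ^ (dgL (lab i)) / egL (lab i)) :=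
      Finset.prod_congr rfl fun i _ => eg_cb _
    rw [h3, Finset.prod_div_distrib, h2, Finset.prod_pow_eq_pow_sum, h1, two_mul, pow_add,
      mul_div_assoc, div_self (pow_ne_zero _ hq0), mul_one]

variable {ι : Type w} {Pf : ι → Polarized 𝒱} {f Φ : ∀ i, Module.End W.K (W.H (Pf i).X)}

namespace Dat

variable (D : Dat F σ Pf f Φ) {n : ℕ} {c : Fin (n + 1) → ι} {lab : Fin (n + 1) → W.K ⊕ ℕ × W.K}

include D in
lemma q_pos : 0 < p ^ a := pow_pos (Fact.out : p.Prime).pos a

lemma nondeg {x : W.H (nest ops n fun i => Pf (c i)).X} (h : ∀ y, D.B c x y = 0) : x = 0 :=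
  bf_nondegL (D.Fr c) (D.Sy c) h

/-- the labels are possible -/
def OkW (Pf : ι → Polarized 𝒱) (q : ℕ) {n : ℕ} (c : Fin (n + 1) → ι)
    (lab : Fin (n + 1) → W.K ⊕ ℕ × W.K) : Prop :=
  ∀ i, dgL (lab i) ≤ (Pf (c i)).X.dim ∧ WL q (lab i)

lemma okW_cb (h : OkW Pf (p ^ a) c lab) : OkW Pf (p ^ a) c fun i => cb (p ^ a) (lab i) :=
  fun i => ⟨by rw [dg_cb]; exact (h i).1, wl_cb (pow_pos (Fact.out : p.Prime).pos a) (h i).2⟩

lemma mr_symm (h : OkW Pf (p ^ a) c lab) {x x' : W.H (nest ops n fun i => Pf (c i)).X}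
    (hx : MR (F := F) (σ := σ) c lab x x') :
    MR (F := F) (σ := σ) c (fun i => cb (p ^ a) (lab i)) x' x := by
  refine ⟨hx.1.symm, hx.2.2, ?_⟩
  have h1 : (fun i => cb (p ^ a) (cb (p ^ a) (lab i))) = lab :=
    funext fun i => cb_cb (pow_pos (Fact.out : p.Prime).pos a) (h i).2
  rw [h1]
  exact hx.2.1

lemma mr_symm' (h : OkW Pf (p ^ a) c lab) {x x' : W.H (nest ops n fun i => Pf (c i)).X}
    (hx : MR (F := F) (σ := σ) c (fun i => cb (p ^ a) (lab i)) x' x) :
    MR (F := F) (σ := σ) c lab x x' := by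
  have h1 : (fun i => cb (p ^ a) (cb (p ^ a) (lab i))) = lab :=
    funext fun i => cb_cb (pow_pos (Fact.out : p.Prime).pos a) (h i).2
  have h2 := hx.2.2
  rw [h1] at h2
  exact ⟨hx.1.symm, h2, hx.2.1⟩

include D

/-- **The pairs of conjugate classes span.** -/
lemma sp (h : OkW Pf (p ^ a) c lab) (hT : TL (p ^ a) lab)
    {z : W.H (nest ops n fun i => Pf (c i)).X} (hz : z ∈ VV F (fun i => Pf (c i)) lab) :
    z ∈ Submodule.span W.K {x | ∃ x', MR (F := F) (σ := σ) c lab x x'} := by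
  choose Ψ hΨ using D.eig
  choose E E' hE1 hE2 hE3 hE4 _ using fun i => exists_letterOp (D.loc (c i)) (D.semi (c i))
    (hΨ (c i)) (h i).2 (h i).1
  have h1 := algSpan_le_AS (VV_alg D.ha (D.tate n c) hT hz)
  have h2 := opN_self (F := F) (P := fun i => Pf (c i)) hE3 hz
  rw [← h2]
  clear h2 hz
  induction h1 using Submodule.span_induction with
  | mem z hz =>
    refine Submodule.subset_span ⟨opN W (fun i => Pf (c i)) E' z,
      (opN_opP _ hE1).apply (Cj.of hz), opN_mem hE2 z, opN_mem hE4 z⟩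
  | zero => rw [map_zero]; exact Submodule.zero_mem _
  | add x y _ _ hx hy => rw [map_add]; exact Submodule.add_mem _ hx hy
  | smul c x _ hx => rw [map_smul]; exact Submodule.smul_mem _ _ hx

lemma sp' (h : OkW Pf (p ^ a) c lab) (hT : TL (p ^ a) lab)
    {z : W.H (nest ops n fun i => Pf (c i)).X}
    (hz : z ∈ VV F (fun i => Pf (c i)) fun i => cb (p ^ a) (lab i)) :
    z ∈ Submodule.span W.K {x' | ∃ x, MR (F := F) (σ := σ) c lab x x'} := by
  have h1 := D.sp (okW_cb h) (tl_cb (pow_pos (Fact.out : p.Prime).pos a) hT) hz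
  refine Submodule.span_mono ?_ h1
  rintro x ⟨x', hx⟩
  exact ⟨x', mr_symm' h hx⟩

/-- The form is nondegenerate on the words. -/
lemma exists_ne (h : OkW Pf (p ^ a) c lab) (hT : TL (p ^ a) lab)
    {x : W.H (nest ops n fun i => Pf (c i)).X} (hx : x ∈ VV F (fun i => Pf (c i)) lab)
    (h0 : x ≠ 0) : ∃ y y', MR (F := F) (σ := σ) c lab y y' ∧ D.B c x y' ≠ 0 := by
  choose Ψ hΨ using D.eig
  choose E E' hE1 hE2 hE3 hE4 hE5 using fun i => exists_letterOp (D.loc (c i)) (D.semi (c i))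
    (hΨ (c i)) (h i).2 (h i).1
  obtain ⟨y, hy⟩ : ∃ y, D.B c x y ≠ 0 := by
    by_contra hcon
    push Not at hcon
    exact h0 (D.nondeg hcon)
  have h1 : ∀ y, D.B c x y = D.B c x (opN W (fun i => Pf (c i)) E' y) := by
    intro y
    have h2 := nest_span (W := W) (ops := ops) (P := fun i => Pf (c i)) (S := fun _ => Set.univ)
      (fun i y => Submodule.subset_span (Set.mem_univ y)) y
    clear h0 hy
    unfold VV at hx
    induction hx using Submodule.span_induction with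
    | zero => rw [map_zero, LinearMap.zero_apply, LinearMap.zero_apply]
    | add x z _ _ hx hz => rw [map_add, LinearMap.add_apply, LinearMap.add_apply, hx, hz]
    | smul c x _ hx => rw [map_smul, LinearMap.smul_apply, LinearMap.smul_apply, hx]
    | mem x hx =>
      obtain ⟨x, hx, rfl⟩ := hx
      induction h2 using Submodule.span_induction with
      | zero => simp
      | add x z _ _ hx hz => rw [map_add, map_add, map_add, hx, hz]
      | smul c x _ hx => rw [map_smul, map_smul, map_smul, hx]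
      | mem y hy =>
        obtain ⟨y, -, rfl⟩ := hy
        rw [opN_nw, D.B_nw, D.B_nw]
        exact Finset.prod_congr rfl fun i _ => hE5 i (x i) (hx i) (y i)
  rw [h1] at hy
  have h2 := D.sp' h hT (opN_mem hE4 y)
  by_contra hcon
  push Not at hcon
  apply hy
  generalize opN W (fun i => Pf (c i)) E' y = v at h2
  induction h2 using Submodule.span_induction with
  | mem z hz =>
    obtain ⟨z', hz⟩ := hz
    exact hcon z' z hz
  | zero => rw [map_zero]
  | add x y _ _ hx hy => rw [map_add, hx, hy, add_zero]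
  | smul c x _ hx => rw [map_smul, hx, smul_zero]

/-- A class is nonzero if the conjugate is. -/
lemma ne_conj (h : OkW Pf (p ^ a) c lab) (hT : TL (p ^ a) lab)
    {x x' : W.H (nest ops n fun i => Pf (c i)).X} (hx : MR (F := F) (σ := σ) c lab x x')
    (h0 : x ≠ 0) : x' ≠ 0 := by
  obtain ⟨y, y', hy, hne⟩ := D.exists_ne h hT hx.2.1 h0
  rintro rfl
  obtain ⟨t, ht, ht'⟩ := (D.herm lab).val hx hy
  rw [map_zero, LinearMap.zero_apply] at ht'
  have h1 : cj σ t = 0 := by exact_mod_cast ht'.symm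
  have h2 : t = 0 := cj_inj σ (by rw [h1, map_zero])
  apply hne
  rw [ht, h2]
  rfl

lemma ne_conj' (h : OkW Pf (p ^ a) c lab) (hT : TL (p ^ a) lab)
    {x x' : W.H (nest ops n fun i => Pf (c i)).X} (hx : MR (F := F) (σ := σ) c lab x x')
    (h0 : x' ≠ 0) : x ≠ 0 :=
  D.ne_conj (okW_cb h) (tl_cb (pow_pos (Fact.out : p.Prime).pos a) hT) (mr_symm h hx) h0

lemma ne_both (h : OkW Pf (p ^ a) c lab) (hT : TL (p ^ a) lab)
    {x x' : W.H (nest ops n fun i => Pf (c i)).X} (hx : MR (F := F) (σ := σ) c lab x x')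
    (h0 : x ≠ 0 ∨ x' ≠ 0) : x ≠ 0 ∧ x' ≠ 0 := by
  rcases h0 with h0 | h0
  · exact ⟨h0, D.ne_conj h hT hx h0⟩
  · exact ⟨D.ne_conj' h hT hx h0, h0⟩

/-- Existence of pairs. -/
lemma exists_mr (h : OkW Pf (p ^ a) c lab) (hT : TL (p ^ a) lab)
    (h0 : ∃ z ∈ VV F (fun i => Pf (c i)) lab, z ≠ 0) :
    ∃ x x', MR (F := F) (σ := σ) (Pf := Pf) c lab x x' ∧ x ≠ 0 ∧ x' ≠ 0 := by
  obtain ⟨z, hz, hz0⟩ := h0
  by_contra hcon
  push Not at hcon
  apply hz0
  have h1 := D.sp h hT hz
  have h2 : {x | ∃ x', MR (F := F) (σ := σ) (Pf := Pf) c lab x x'} ⊆ {0} := by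
    rintro x ⟨x', hx⟩
    by_contra h3
    exact (D.ne_both h hT hx (Or.inl h3)).2 (hcon x x' hx h3)
  have h3 := Submodule.span_mono (R := W.K) h2 h1
  rw [Submodule.span_zero_singleton] at h3
  exact (Submodule.mem_bot _).1 h3

/-- the value on a pair is real -/
lemma real {x x' : W.H (nest ops n fun i => Pf (c i)).X}
    (hx : MR (F := F) (σ := σ) c lab x x') : ∃ (t : An W.K) (r : ℝ), D.B c x x' = t ∧
      D.B c x' x = t ∧ σ t = r := by
  obtain ⟨t, ht, ht'⟩ := (D.herm lab).val hx hx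
  have h1 : D.B c x x' = D.B c x' x := (D.herm lab).symm hx hx
  have h2 : cj σ t = t := by
    have h3 := ht'.symm.trans (h1.symm.trans ht)
    exact_mod_cast h3
  have h3 := σ_cj σ t
  rw [h2] at h3
  exact ⟨t, (σ t).re, ht, h1.symm.trans ht, (Complex.conj_eq_iff_re.1 h3.symm).symm⟩

end Dat

end Pool.Agent.Q56.HP
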