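import Pool.Agent.Q56.HP.Jay

/-!
# Splitting a class of an abelian variety
-/

set_option autoImplicit false
set_option linter.unusedSectionVars false

open CategoryTheory AlgebraicGeometry

universe u v w

namespace Pool.Agent.Q56.HP

open Pool.Agent.H914 Pool.Agent.H914.VarClass Pool.Agent.H914.VarClass.Obj
  Pool.Agent.H914.WeilCohomology Pool.Agent.H281R3.HT Pool.Agent.W552
  Pool.Agent.W458.MF Pool.Agent.Q56.CT Pool.Agent.Q56.CTS Pool.Agent.Q56.FE Pool.Agent.Q56.FH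
open Pool.Agent.Q56.FR (fr)
open Pool.Agent.Q56.HPS (IsComb)

variable {k : Type u} [Field k] {𝒱 : VarClass k} {ops : CycleOps 𝒱}
  {W : WeilCohomology.{u, v} ops} {ι : Type w} {Pf : ι → Polarized 𝒱} {n : ℕ}

/-- the family with the first factor repeated -/
def dbl (c : Fin (n + 1) → ι) : Fin (n + 2) → ι := Fin.cons (c 0) c

section Maps

variable (ops Pf) (c : Fin (n + 1) → ι)

/-- the first projection -/
noncomputable def pr0 : (nest ops (n + 1) fun i => Pf (dbl c i)).X ⟶ (Pf (c 0)).X :=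
  prj ops (n + 1) (fun i => Pf (dbl c i)) 0

/-- the second projection -/
noncomputable def pr1 : (nest ops (n + 1) fun i => Pf (dbl c i)).X ⟶ (Pf (c 0)).X :=
  prj ops (n + 1) (fun i => Pf (dbl c i)) (Fin.succ 0)

/-- the other projections -/
noncomputable def prs (j : Fin n) :
    (nest ops (n + 1) fun i => Pf (dbl c i)).X ⟶ (Pf (c j.succ)).X :=
  prj ops (n + 1) (fun i => Pf (dbl c i)) j.succ.succ

/-- the group law on the first two factors -/
noncomputable def mapG (μ : (Pf (c 0)).X.prod (Pf (c 0)).X ⟶ (Pf (c 0)).X) :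
    (nest ops (n + 1) fun i => Pf (dbl c i)).X ⟶ (nest ops n fun i => Pf (c i)).X :=
  tup (ops := ops) (fun i => Pf (c i)) fun i => Fin.cases
    (motive := fun i => (nest ops (n + 1) fun i => Pf (dbl c i)).X ⟶ (Pf (c i)).X)
    (Obj.lift (pr0 ops Pf c) (pr1 ops Pf c) ≫ μ) (fun j => prs ops Pf c j) i

end Maps

/-- the product of the pull-backs to the other factors -/
noncomputable def rest (W : WeilCohomology.{u, v} ops) (c : Fin (n + 1) → ι)
    (x : ∀ i, W.H (Pf (c i)).X) : W.H (nest ops (n + 1) fun i => Pf (dbl c i)).X :=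
  wd W (X := fun j : Fin n => (Pf (c j.succ)).X) (prs ops Pf c) (List.finRange n)
    fun j => x j.succ

/-- the class from a class on the square of the first factor -/
noncomputable def Om (W : WeilCohomology.{u, v} ops) (c : Fin (n + 1) → ι)
    (x : ∀ i, W.H (Pf (c i)).X) (u : W.H ((Pf (c 0)).X.prod (Pf (c 0)).X)) :
    W.H (nest ops (n + 1) fun i => Pf (dbl c i)).X :=
  W.map (Obj.lift (pr0 ops Pf c) (pr1 ops Pf c)) u * rest W c x

/-- the classes on the factors -/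
def gl (W : WeilCohomology.{u, v} ops) (c : Fin (n + 1) → ι) (y z : W.H (Pf (c 0)).X)
    (x : ∀ i, W.H (Pf (c i)).X) (i : Fin (n + 2)) : W.H (Pf (dbl c i)).X :=
  Fin.cases (motive := fun i => W.H (Pf (dbl c i)).X) y
    (fun i => Fin.cases (motive := fun i => W.H (Pf (dbl c (Fin.succ i))).X) z
      (fun j => x j.succ) i) i

variable {c : Fin (n + 1) → ι}

lemma map_G (μ : (Pf (c 0)).X.prod (Pf (c 0)).X ⟶ (Pf (c 0)).X) (x : ∀ i, W.H (Pf (c i)).X) :
    W.map (mapG ops Pf c μ) (nw W (fun i => Pf (c i)) x) = Om W c x (W.map μ (x 0)) := by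
  have h1 : List.finRange (n + 1) = 0 :: (List.finRange n).map Fin.succ := List.finRange_succ
  rw [mapG, map_tup, h1, wd_cons, wd_map, Om, rest, ← W.map_comp]
  rfl

lemma Om_ext (x : ∀ i, W.H (Pf (c i)).X) (y z : W.H (Pf (c 0)).X) :
    Om W c x (W.map (fst (Pf (c 0)).X (Pf (c 0)).X) y *
      W.map (snd (Pf (c 0)).X (Pf (c 0)).X) z) =
      nw W (fun i => Pf (dbl c i)) (gl W c y z x) := by
  have h1 : ∀ m : ℕ, List.finRange (m + 1) = 0 :: (List.finRange m).map Fin.succ :=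
    fun m => List.finRange_succ
  rw [nw, h1, wd_cons, wd_map, h1, wd_cons, wd_map, Om, map_mul, ← W.map_comp, ← W.map_comp,
    Obj.lift_fst, Obj.lift_snd, mul_assoc]
  rfl

lemma Om_add (x : ∀ i, W.H (Pf (c i)).X) (u v : W.H ((Pf (c 0)).X.prod (Pf (c 0)).X)) :
    Om W c x (u + v) = Om W c x u + Om W c x v := by
  rw [Om, map_add, add_mul, Om, Om]

lemma Om_smul (x : ∀ i, W.H (Pf (c i)).X) (r : W.K)
    (u : W.H ((Pf (c 0)).X.prod (Pf (c 0)).X)) : Om W c x (r • u) = r • Om W c x u := by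
  rw [Om, map_smul, smul_mul_assoc, Om]

lemma Om_zero (x : ∀ i, W.H (Pf (c i)).X) :
    Om W c x (0 : W.H ((Pf (c 0)).X.prod (Pf (c 0)).X)) = 0 := by
  rw [Om, map_zero, zero_mul]

lemma Om_sum (x : ∀ i, W.H (Pf (c i)).X) {κ : Type*} (s : Finset κ)
    (u : κ → W.H ((Pf (c 0)).X.prod (Pf (c 0)).X)) :
    Om W c x (∑ t ∈ s, u t) = ∑ t ∈ s, Om W c x (u t) := by
  rw [Om, map_sum, Finset.sum_mul]
  rfl

/-- the degrees -/
def dd (δ : Fin (n + 1) → ℕ) (t : ℕ) : Fin (n + 2) → ℕ :=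
  Fin.cons (δ 0 - t) (Fin.cons t fun j : Fin n => δ j.succ)

lemma Om_DG {δ : Fin (n + 1) → ℕ} {x : ∀ i, W.H (Pf (c i)).X}
    (hx : ∀ i, x i ∈ W.gr (Pf (c i)).X (δ i)) {t : ℕ}
    {u : W.H ((Pf (c 0)).X.prod (Pf (c 0)).X)}
    (hu : u ∈ tensorSpan (W.map (fst (Pf (c 0)).X (Pf (c 0)).X))
      (W.map (snd (Pf (c 0)).X (Pf (c 0)).X)) (W.gr (Pf (c 0)).X (δ 0 - t))
        (W.gr (Pf (c 0)).X t)) :
    Om W c x u ∈ DG W (fun i => Pf (dbl c i)) (dd δ t) := by
  unfold tensorSpan at hu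
  induction hu using Submodule.span_induction with
  | zero => rw [Om_zero]; exact Submodule.zero_mem _
  | add u v _ _ hu hv => rw [Om_add]; exact Submodule.add_mem _ hu hv
  | smul r u _ hu => rw [Om_smul]; exact Submodule.smul_mem _ _ hu
  | mem u hu =>
    obtain ⟨y, hy, z, hz, rfl⟩ := hu
    rw [Om_ext]
    refine Submodule.subset_span ⟨_, fun i => ?_, rfl⟩
    refine Fin.cases ?_ (fun i => ?_) i
    · exact hy
    · refine Fin.cases ?_ (fun j => ?_) i
      · exact hz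
      · exact hx j.succ

/-- **The expansion on the product.** -/
theorem exists_theta (hg : Generates (W.gr (Pf (c 0)).X 1)) {δ : Fin (n + 1) → ℕ}
    {x : W.H (nest ops n fun i => Pf (c i)).X} (hx : x ∈ DG W (fun i => Pf (c i)) δ) :
    ∃ θ : ℕ → W.H (nest ops (n + 1) fun i => Pf (dbl c i)).X,
      (∀ t ≤ δ 0, θ t ∈ DG W (fun i => Pf (dbl c i)) (dd δ t)) ∧
      ∀ (b : ℤ) (μ : (Pf (c 0)).X.prod (Pf (c 0)).X ⟶ (Pf (c 0)).X),
        IsComb W (Pf (c 0)).X 1 b μ → W.map (mapG ops Pf c μ) x =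
          ∑ t ∈ Finset.range (δ 0 + 1), ((b : W.K) ^ t) • θ t := by
  unfold DG at hx
  induction hx using Submodule.span_induction with
  | zero => exact ⟨fun _ => 0, fun _ _ => Submodule.zero_mem _, fun _ _ _ => by simp⟩
  | add x y _ _ hx hy =>
    obtain ⟨u, h1, h2⟩ := hx
    obtain ⟨u', h1', h2'⟩ := hy
    refine ⟨fun t => u t + u' t, fun t ht => Submodule.add_mem _ (h1 t ht) (h1' t ht),
      fun b μ hμ => ?_⟩
    rw [map_add, h2 b μ hμ, h2' b μ hμ, ← Finset.sum_add_distrib]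
    exact Finset.sum_congr rfl fun t _ => (smul_add _ _ _).symm
  | smul r x _ hx =>
    obtain ⟨u, h1, h2⟩ := hx
    refine ⟨fun t => r • u t, fun t ht => Submodule.smul_mem _ _ (h1 t ht), fun b μ hμ => ?_⟩
    rw [map_smul, h2 b μ hμ, Finset.smul_sum]
    exact Finset.sum_congr rfl fun t _ => smul_comm _ _ _
  | mem y hy =>
    obtain ⟨x, hx, rfl⟩ := hy
    obtain ⟨u, h1, h2⟩ := exists_binom hg (hx 0)
    refine ⟨fun t => Om W c x (u t), fun t ht => Om_DG hx (h1 t ht), fun b μ hμ => ?_⟩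
    rw [map_G, h2 1 b μ hμ, Om_sum]
    refine Finset.sum_congr rfl fun t _ => ?_
    rw [Om_smul, Int.cast_one, one_pow, one_mul]

variable [IsAlgClosed W.K] {σ : An W.K →ₐ[ℚ] ℂ}
  {p : ℕ} [Fact p.Prime] {a : ℕ} {F : FrobeniusOver W (p ^ a)}
  {f Φ : ∀ i, Module.End W.K (W.H (Pf i).X)} {isA : ι → Prop}

namespace Dat

variable (D : Dat F σ Pf f Φ)

/-- the form on the square of a factor -/
noncomputable def B2 (_ : Dat F σ Pf f Φ) (i : ι) :
    W.H ((Pf i).X.prod (Pf i).X) →ₗ[W.K] W.H ((Pf i).X.prod (Pf i).X) →ₗ[W.K] W.K :=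
  bf W ((Pf i).X.prod (Pf i).X) (ops.pull (fst (Pf i).X (Pf i).X) (Pf i).D +
    ops.pull (snd (Pf i).X (Pf i).X) (Pf i).D) (extSum W (f i) (f i))

lemma B_Om (x x' : ∀ i, W.H (Pf (c i)).X) (u u' : W.H ((Pf (c 0)).X.prod (Pf (c 0)).X)) :
    D.B (dbl c) (Om W c x u) (Om W c x' u') = D.B2 (c 0) u u' *
      ∏ j : Fin n, bf W (Pf (c j.succ)).X (Pf (c j.succ)).D (f (c j.succ)) (x j.succ)
        (x' j.succ) := by
  refine W.kunneth_induction (p := fun u => D.B (dbl c) (Om W c x u) (Om W c x' u') =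
    D.B2 (c 0) u u' * ∏ j : Fin n, bf W (Pf (c j.succ)).X (Pf (c j.succ)).D (f (c j.succ))
      (x j.succ) (x' j.succ)) ?_ ?_ u
  · intro a b ha hb
    rw [Om_add, map_add, LinearMap.add_apply, ha, hb, map_add, LinearMap.add_apply, add_mul]
  intro i j y hy z hz
  refine W.kunneth_induction (p := fun u' => D.B (dbl c) (Om W c x _) (Om W c x' u') =
    D.B2 (c 0) _ u' * ∏ j : Fin n, bf W (Pf (c j.succ)).X (Pf (c j.succ)).D (f (c j.succ))
      (x j.succ) (x' j.succ)) ?_ ?_ u'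
  · intro a b ha hb
    rw [Om_add, map_add, ha, hb, map_add, add_mul]
  intro i' j' y' hy' z' hz'
  rw [Om_ext, Om_ext, D.B_nw, Fin.prod_univ_succ, Fin.prod_univ_succ, ← mul_assoc]
  have h1 := (D.loc (c 0)).F.bf_ext (D.loc (c 0)).F y y' z z'
  have h2 : D.B2 (c 0) (W.map (fst (Pf (c 0)).X (Pf (c 0)).X) y *
      W.map (snd (Pf (c 0)).X (Pf (c 0)).X) z) (W.map (fst (Pf (c 0)).X (Pf (c 0)).X) y' *
      W.map (snd (Pf (c 0)).X (Pf (c 0)).X) z') = _ := h1
  rw [h2]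
  rfl

/-- orthogonality -/
lemma DG_orth {m : ℕ} {c : Fin (m + 1) → ι} {δ δ' : Fin (m + 1) → ℕ} (hne : δ ≠ δ')
    {x y : W.H (nest ops m fun i => Pf (c i)).X} (hx : x ∈ DG W (fun i => Pf (c i)) δ)
    (hy : y ∈ DG W (fun i => Pf (c i)) δ') : D.B c x y = 0 := by
  obtain ⟨b, hb⟩ := Function.ne_iff.1 hne
  unfold DG at hx hy
  induction hx using Submodule.span_induction with
  | zero => simp
  | add u v _ _ hu hv => rw [map_add, LinearMap.add_apply, hu, hv, add_zero]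
  | smul r u _ hu => rw [map_smul, LinearMap.smul_apply, hu, smul_zero]
  | mem x hx =>
  induction hy using Submodule.span_induction with
  | zero => simp
  | add u v _ _ hu hv => rw [map_add, hu, hv, add_zero]
  | smul r u _ hu => rw [map_smul, hu, smul_zero]
  | mem y hy =>
  obtain ⟨x, hx, rfl⟩ := hx
  obtain ⟨y, hy, rfl⟩ := hy
  rw [D.B_nw]
  exact Finset.prod_eq_zero (Finset.mem_univ b) ((D.loc (c b)).F.bf_deg (hx b) (hy b) hb)

lemma DG_nondeg {m : ℕ} {c : Fin (m + 1) → ι} {δ : Fin (m + 1) → ℕ}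
    {x : W.H (nest ops m fun i => Pf (c i)).X} (hx : x ∈ DG W (fun i => Pf (c i)) δ)
    (h : ∀ y ∈ DG W (fun i => Pf (c i)) δ, D.B c x y = 0) : x = 0 := by
  apply D.nondeg
  intro y
  have h1 := nest_span (W := W) (ops := ops) (P := fun i => Pf (c i))
    (S := fun i => Hom W (Pf (c i)).X) (fun i y => hom_span _ y) y
  induction h1 using Submodule.span_induction with
  | zero => rw [map_zero]
  | add u v _ _ hu hv => rw [map_add, hu, hv, add_zero]
  | smul r u _ hu => rw [map_smul, hu, smul_zero]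
  | mem y hy =>
    obtain ⟨y, hy, rfl⟩ := hy
    choose δ' hδ' using hy
    by_cases h0 : δ = δ'
    · subst h0
      exact h _ (Submodule.subset_span ⟨y, hδ', rfl⟩)
    · exact D.DG_orth h0 hx (Submodule.subset_span ⟨y, hδ', rfl⟩)

/-- **The form and the group law on the product.** -/
theorem B_G (hg : Generates (W.gr (Pf (c 0)).X 1))
    (hμ : ∀ a b : ℤ, ∃ μ, IsComb W (Pf (c 0)).X a b μ) {δ : Fin (n + 1) → ℕ}
    {x y : W.H (nest ops n fun i => Pf (c i)).X} (hx : x ∈ DG W (fun i => Pf (c i)) δ)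
    (hy : y ∈ DG W (fun i => Pf (c i)) δ) {b : ℤ}
    {μ : (Pf (c 0)).X.prod (Pf (c 0)).X ⟶ (Pf (c 0)).X} (hb : IsComb W (Pf (c 0)).X 1 b μ) :
    D.B (dbl c) (W.map (mapG ops Pf c μ) x) (W.map (mapG ops Pf c μ) y) =
      (1 + (b : W.K) ^ 2) ^ δ 0 * (bf W (Pf (c 0)).X (Pf (c 0)).D (f (c 0)) 1 1 *
        D.B c x y) := by
  unfold DG at hx hy
  induction hx using Submodule.span_induction with
  | zero => simp
  | add u v _ _ hu hv =>
    rw [map_add, map_add, LinearMap.add_apply, hu, hv, map_add, LinearMap.add_apply]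
    ring
  | smul r u _ hu =>
    rw [map_smul, map_smul, LinearMap.smul_apply, hu, map_smul, LinearMap.smul_apply,
      smul_eq_mul, smul_eq_mul]
    ring
  | mem x hx =>
  induction hy using Submodule.span_induction with
  | zero => simp
  | add u v _ _ hu hv =>
    rw [map_add, map_add, hu, hv, map_add]
    ring
  | smul r u _ hu =>
    rw [map_smul, map_smul, hu, map_smul, smul_eq_mul, smul_eq_mul]
    ring
  | mem y hy =>
  obtain ⟨x, hx, rfl⟩ := hx
  obtain ⟨y, hy, rfl⟩ := hy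
  have h1 := bf_comb (D.loc (c 0)).F (D.loc (c 0)).top hg hμ hb (x := x 0) (hy 0)
  have h2 : D.B2 (c 0) (W.map μ (x 0)) (W.map μ (y 0)) = _ := h1
  rw [map_G, map_G, D.B_Om, h2, D.B_nw, Fin.prod_univ_succ]
  ring

/-- **The step.** -/
theorem step (hg : Generates (W.gr (Pf (c 0)).X 1))
    (hμ : ∀ a b : ℤ, ∃ μ, IsComb W (Pf (c 0)).X a b μ)
    (hκ : ∃ r : ℚ, 0 < r ∧ bf W (Pf (c 0)).X (Pf (c 0)).D (f (c 0)) 1 1 = r)
    {δ : Fin (n + 1) → ℕ} (hδ : 1 ≤ δ 0)
    (H : ∀ z, AS W _ z → z ∈ DG W (fun i => Pf (dbl c i)) (dd δ 1) → z ≠ 0 →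
      ∃ r : ℚ, 0 < r ∧ D.B (dbl c) z z = r)
    {x : W.H (nest ops n fun i => Pf (c i)).X} (hx : AS W _ x)
    (hxD : x ∈ DG W (fun i => Pf (c i)) δ) (hx0 : x ≠ 0) :
    ∃ r : ℚ, 0 < r ∧ D.B c x x = r := by
  choose μ hμc using fun b : ℤ => hμ 1 b
  obtain ⟨κ, hκ0, hκ⟩ := hκ
  obtain ⟨θ, hθ1, hθ2⟩ := exists_theta hg hxD
  -- the coefficient is algebraic
  have hAS : AS W _ (θ 1) := by
    obtain ⟨r, hr⟩ := exists_vand (m := δ 0) (v := fun b => ((b : ℕ) : ℚ)) (by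
      intro b b' h
      have h' : ((b : ℕ) : ℚ) = ((b' : ℕ) : ℚ) := h
      exact Fin.ext (by exact_mod_cast h'))
    have h1 : θ 1 = ∑ b : Fin (δ 0 + 1), (r b : W.K) •
        W.map (mapG ops Pf c (μ ((b : ℕ) : ℤ))) x := by
      have h2 : ∀ b : Fin (δ 0 + 1), (r b : W.K) • W.map (mapG ops Pf c (μ ((b : ℕ) : ℤ))) x =
          ∑ t ∈ Finset.range (δ 0 + 1), ((r b * ((b : ℕ) : ℚ) ^ t : ℚ) : W.K) • θ t := by
        intro b
        rw [hθ2 _ _ (hμc _), Finset.smul_sum]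
        refine Finset.sum_congr rfl fun t _ => ?_
        rw [smul_smul]
        push_cast
        rfl
      rw [Finset.sum_congr rfl fun b _ => h2 b, Finset.sum_comm,
        Finset.sum_eq_single_of_mem 1 (Finset.mem_range.2 (by omega))]
      · rw [← Finset.sum_smul, ← Rat.cast_sum, hr 1 hδ, if_pos rfl, Rat.cast_one, one_smul]
      · intro t ht ht1
        have := Finset.mem_range.1 ht
        rw [← Finset.sum_smul, ← Rat.cast_sum, hr t (by omega), if_neg ht1, Rat.cast_zero,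
          zero_smul]
    rw [h1]
    exact AS.ratSub.sum _ fun b _ => AS.smul _ (hx.map _)
  -- the form
  have key : ∀ y ∈ DG W (fun i => Pf (c i)) δ, ∀ θ' : ℕ →
      W.H (nest ops (n + 1) fun i => Pf (dbl c i)).X,
      (∀ t ≤ δ 0, θ' t ∈ DG W (fun i => Pf (dbl c i)) (dd δ t)) →
      (∀ (b : ℤ) (μ : (Pf (c 0)).X.prod (Pf (c 0)).X ⟶ (Pf (c 0)).X),
        IsComb W (Pf (c 0)).X 1 b μ → W.map (mapG ops Pf c μ) y =
          ∑ t ∈ Finset.range (δ 0 + 1), ((b : W.K) ^ t) • θ' t) →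
      D.B (dbl c) (θ 1) (θ' 1) = (δ 0 : W.K) * ((κ : W.K) * D.B c x y) := by
    intro y hy θ' h1 h2
    have horth : ∀ t ≤ δ 0, ∀ s ≤ δ 0, t ≠ s → D.B (dbl c) (θ t) (θ' s) = 0 := by
      intro t ht s hs hts
      refine D.DG_orth (fun h => hts ?_) (hθ1 t ht) (h1 s hs)
      have h3 := congrFun h (Fin.succ 0)
      exact h3
    have h3 : ∀ b : ℕ, ∑ t ∈ Finset.range (δ 0 + 1), ((b : W.K) ^ 2) ^ t *
        D.B (dbl c) (θ t) (θ' t) = (1 + (b : W.K) ^ 2) ^ δ 0 * ((κ : W.K) * D.B c x y) := by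
      intro b
      have h4 := D.B_G hg hμ hxD hy (hμc (b : ℤ))
      rw [hκ, hθ2 _ _ (hμc _), h2 _ _ (hμc _), map_sum (D.B (dbl c)), LinearMap.sum_apply,
        Int.cast_natCast] at h4
      rw [← h4]
      refine Finset.sum_congr rfl fun t ht => ?_
      have ht' := Finset.mem_range.1 ht
      rw [map_sum, Finset.sum_eq_single_of_mem t ht]
      · rw [map_smul, map_smul, LinearMap.smul_apply, smul_eq_mul, smul_eq_mul]
        ring
      · intro s hs hst
        have hs' := Finset.mem_range.1 hs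
        rw [map_smul, map_smul, LinearMap.smul_apply, horth t (by omega) s (by omega)
          (Ne.symm hst), smul_zero, smul_zero]
    obtain ⟨r, hr⟩ := exists_vand (m := δ 0) (v := fun b => ((b : ℕ) : ℚ) ^ 2) (by
      intro b b' h
      have h' : ((b : ℕ) : ℚ) ^ 2 = ((b' : ℕ) : ℚ) ^ 2 := h
      have h5 : ((b : ℕ)) ^ 2 = ((b' : ℕ)) ^ 2 := by exact_mod_cast h'
      exact Fin.ext (Nat.pow_left_injective (n := 2) two_ne_zero h5))
    have h4 : ∑ b : Fin (δ 0 + 1), (r b : W.K) * ∑ t ∈ Finset.range (δ 0 + 1),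
        (((b : ℕ) : W.K) ^ 2) ^ t * D.B (dbl c) (θ t) (θ' t) =
        ∑ b : Fin (δ 0 + 1), (r b : W.K) * ((1 + ((b : ℕ) : W.K) ^ 2) ^ δ 0 *
          ((κ : W.K) * D.B c x y)) :=
      Finset.sum_congr rfl fun b _ => by rw [h3]
    have h5 : ∑ b : Fin (δ 0 + 1), (r b : W.K) * ∑ t ∈ Finset.range (δ 0 + 1),
        (((b : ℕ) : W.K) ^ 2) ^ t * D.B (dbl c) (θ t) (θ' t) = D.B (dbl c) (θ 1) (θ' 1) := by
      have e1 : ∀ b : Fin (δ 0 + 1), (r b : W.K) * ∑ t ∈ Finset.range (δ 0 + 1),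
          (((b : ℕ) : W.K) ^ 2) ^ t * D.B (dbl c) (θ t) (θ' t) =
          ∑ t ∈ Finset.range (δ 0 + 1), ((r b * (((b : ℕ) : ℚ) ^ 2) ^ t : ℚ) : W.K) *
            D.B (dbl c) (θ t) (θ' t) := by
        intro b
        rw [Finset.mul_sum]
        refine Finset.sum_congr rfl fun t _ => ?_
        push_cast
        ring
      rw [Finset.sum_congr rfl fun b _ => e1 b, Finset.sum_comm,
        Finset.sum_eq_single_of_mem 1 (Finset.mem_range.2 (by omega))]
      · rw [← Finset.sum_mul, ← Rat.cast_sum, hr 1 hδ, if_pos rfl, Rat.cast_one, one_mul]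
      · intro t ht ht1
        have := Finset.mem_range.1 ht
        rw [← Finset.sum_mul, ← Rat.cast_sum, hr t (by omega), if_neg ht1, Rat.cast_zero,
          zero_mul]
    have h6 : ∑ b : Fin (δ 0 + 1), (r b : W.K) * ((1 + ((b : ℕ) : W.K) ^ 2) ^ δ 0 *
          ((κ : W.K) * D.B c x y)) = (δ 0 : W.K) * ((κ : W.K) * D.B c x y) := by
      have e1 : ∀ b : Fin (δ 0 + 1), (r b : W.K) * ((1 + ((b : ℕ) : W.K) ^ 2) ^ δ 0 *
          ((κ : W.K) * D.B c x y)) = ∑ t ∈ Finset.range (δ 0 + 1),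
            ((r b * (((b : ℕ) : ℚ) ^ 2) ^ t : ℚ) : W.K) * (((δ 0).choose t : W.K) *
              ((κ : W.K) * D.B c x y)) := by
        intro b
        rw [add_comm (1 : W.K), add_pow, Finset.sum_mul, Finset.mul_sum]
        refine Finset.sum_congr rfl fun t _ => ?_
        push_cast
        rw [one_pow]
        ring
      rw [Finset.sum_congr rfl fun b _ => e1 b, Finset.sum_comm,
        Finset.sum_eq_single_of_mem 1 (Finset.mem_range.2 (by omega))]
      · rw [← Finset.sum_mul, ← Rat.cast_sum, hr 1 hδ, if_pos rfl, Rat.cast_one, one_mul,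
          Nat.choose_one_right]
      · intro t ht ht1
        have := Finset.mem_range.1 ht
        rw [← Finset.sum_mul, ← Rat.cast_sum, hr t (by omega), if_neg ht1, Rat.cast_zero,
          zero_mul]
    rw [← h5, h4, h6]
  have hmK : (δ 0 : W.K) ≠ 0 := by
    have : δ 0 ≠ 0 := by omega
    exact_mod_cast this
  have hκK : (κ : W.K) ≠ 0 := by exact_mod_cast hκ0.ne'
  have hne : θ 1 ≠ 0 := by
    intro h0
    apply hx0
    refine D.DG_nondeg hxD fun y hy => ?_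
    obtain ⟨θ', h1, h2⟩ := exists_theta hg hy
    have h3 := key y hy θ' h1 h2
    rw [h0, map_zero, LinearMap.zero_apply] at h3
    rcases mul_eq_zero.1 h3.symm with h4 | h4
    · exact absurd h4 hmK
    · exact (mul_eq_zero.1 h4).resolve_left hκK
  obtain ⟨r, hr0, hr⟩ := H (θ 1) hAS (hθ1 1 hδ) hne
  have h1 := key x hxD θ hθ1 hθ2
  rw [hr] at h1
  have hm0 : (0 : ℚ) < (δ 0 : ℚ) := by
    have : 0 < δ 0 := by omega
    exact_mod_cast this
  refine ⟨r / ((δ 0 : ℚ) * κ), div_pos hr0 (mul_pos hm0 hκ0), ?_⟩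
  push_cast
  rw [eq_div_iff (mul_ne_zero hmK hκK), h1]
  ring

end Dat

end Pool.Agent.Q56.HP
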