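import Pool.Agent.Q56.HP.Rules

/-!
# Positivity and the multiset of the labels
-/

set_option autoImplicit false
set_option linter.unusedSectionVars false

open CategoryTheory AlgebraicGeometry

universe u v w

namespace Pool.Agent.Q56.HP

open Pool.Agent.H914 Pool.Agent.H914.VarClass Pool.Agent.H914.VarClass.Obj
  Pool.Agent.H914.WeilCohomology Pool.Agent.H281R3.HT Pool.Agent.W552
  Pool.Agent.W458.MF Pool.Agent.Q56.CT Pool.Agent.Q56.CTS Pool.Agent.Q56.FE Pool.Agent.Q56.FH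
open Pool.Agent.Q56.FR (fr)

section Comb

variable {n m m' : ℕ}

/-- the multiset of the labels -/
def lw {α : Type*} (lab : Fin (n + 1) → α) : Multiset α :=
  (Finset.univ : Finset (Fin (n + 1))).val.map lab

lemma lw_ne {α : Type*} (lab : Fin (n + 1) → α) : lw lab ≠ 0 := by
  intro h
  have h1 := congrArg Multiset.card h
  rw [lw, Multiset.card_map, Finset.card_val, Finset.card_univ, Fintype.card_fin,
    Multiset.card_zero] at h1
  omega

lemma lw_spl {α : Type*} {lab : Fin (n + 1) → α} {e' : Fin (m' + 1) → Fin (n + 1)}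
    {e : Fin (m + 1) → Fin (n + 1)} (h : Spl e' e) :
    lw lab = lw (fun i => lab (e' i)) + lw fun i => lab (e i) := by
  have h1 := Multiset.coe_eq_coe.2 (h.map lab)
  rw [List.map_append, List.map_map, List.map_map, ← Multiset.coe_add] at h1
  exact h1

lemma exists_part {α : Type*} {lab : Fin (n + 1) → α} {S T : Multiset α} (h : lw lab = S + T)
    (hS : S ≠ 0) (hT : T ≠ 0) : ∃ (m m' : ℕ) (e' : Fin (m' + 1) → Fin (n + 1))
      (e : Fin (m + 1) → Fin (n + 1)), Spl e' e ∧ lw (fun i => lab (e' i)) = S ∧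
        lw (fun i => lab (e i)) = T := by
  classical
  obtain ⟨M₁, M₂, h1, h2, h3⟩ := split_map lab S T _ h
  have hnd : (M₁ + M₂).Nodup := by rw [← h1]; exact Finset.nodup _
  have hnd2 : M₂.Nodup := Multiset.nodup_of_le (Multiset.le_add_left _ _) hnd
  have hM1 : M₁ ≠ 0 := by rintro rfl; exact hS (by rw [← h2]; rfl)
  have hM2 : M₂ ≠ 0 := by rintro rfl; exact hT (by rw [← h3]; rfl)
  obtain ⟨m, m', e', e, hs, he, -, -⟩ := exists_spl (⟨M₂, hnd2⟩ : Finset (Fin (n + 1)))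
    (by
      obtain ⟨b, hb⟩ := Multiset.exists_mem_of_ne_zero hM2
      exact ⟨b, hb⟩)
    (by
      obtain ⟨b, hb⟩ := Multiset.exists_mem_of_ne_zero hM1
      refine ⟨b, Finset.mem_compl.2 fun hb' => ?_⟩
      exact Multiset.disjoint_left.1 (Multiset.nodup_add.1 hnd).2.2 hb hb')
  have h4 : lw (fun i => lab (e i)) = T := by
    have h5 : (Finset.univ.image e).val = (Finset.univ : Finset (Fin (m + 1))).val.map e :=
      Finset.image_val_of_injOn fun i _ j _ hij => hs.inj hij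
    rw [he] at h5
    have h6 : M₂ = (Finset.univ : Finset (Fin (m + 1))).val.map e := h5
    rw [← h3, h6, Multiset.map_map]
    rfl
  refine ⟨m, m', e', e, hs, ?_, h4⟩
  have h5 := lw_spl (lab := lab) hs
  rw [h, h4] at h5
  exact (add_right_cancel h5).symm

lemma spl_append (n m : ℕ) :
    Spl (n := n + 1 + m) (Fin.castAdd (m + 1) : Fin (n + 1) → _) (Fin.natAdd (n + 1)) := by
  refine (List.perm_ext_iff_of_nodup (List.nodup_finRange _) ?_).2 fun b => ?_
  · rw [List.nodup_append]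
    refine ⟨(List.nodup_finRange _).map (Fin.castAdd_injective _ _),
      (List.nodup_finRange _).map (Fin.natAdd_injective _ _), ?_⟩
    intro x hx y hy hxy
    obtain ⟨i, -, rfl⟩ := List.mem_map.1 hx
    obtain ⟨j, -, rfl⟩ := List.mem_map.1 hy
    have h1 := congrArg Fin.val hxy
    simp at h1
    omega
  · refine ⟨fun _ => ?_, fun _ => List.mem_finRange b⟩
    rw [List.mem_append, List.mem_map, List.mem_map]
    have hb := b.2
    by_cases h : (b : ℕ) < n + 1
    · exact Or.inl ⟨⟨b, h⟩, List.mem_finRange _, Fin.ext rfl⟩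
    · refine Or.inr ⟨⟨b - (n + 1), by omega⟩, List.mem_finRange _, Fin.ext ?_⟩
      simp
      omega

lemma exists_append {α : Type*} (c : Fin (n + 1) → α) (c' : Fin (m + 1) → α) :
    ∃ C : Fin (n + 1 + m + 1) → α, (fun i => C (Fin.castAdd (m + 1) i)) = c ∧
      (fun i => C (Fin.natAdd (n + 1) i)) = c' :=
  ⟨Fin.append (m := n + 1) (n := m + 1) c c',
    funext fun i => Fin.append_left (m := n + 1) (n := m + 1) c c' i,
    funext fun i => Fin.append_right (m := n + 1) (n := m + 1) c c' i⟩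

lemma exists_lw {α : Type*} {S : Multiset α} (h : S ≠ 0) :
    ∃ (n : ℕ) (lab : Fin (n + 1) → α), lw lab = S := by
  obtain ⟨l, rfl⟩ := Quot.exists_rep S
  rcases l with _ | ⟨b, l⟩
  · exact absurd rfl h
  · refine ⟨l.length, (b :: l).get, ?_⟩
    have h1 : (List.finRange (l.length + 1)).map (b :: l).get = b :: l := by
      apply List.ext_getElem
      · simp
      · intro i h1 h2
        simp
    have h2 := congrArg (fun t : List α => (t : Multiset α)) h1
    exact h2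

end Comb

section TM

variable {K : Type*} [Field K] {q : ℕ} {S T : Multiset (K ⊕ ℕ × K)}

/-- the labels of a Tate class -/
def TM (q : ℕ) (S : Multiset (K ⊕ ℕ × K)) : Prop :=
  ∃ j, CT.dg S = 2 * j ∧ CT.eg S = (q : K) ^ j

lemma dg_add : CT.dg (S + T) = CT.dg S + CT.dg T := by
  rw [CT.dg, Multiset.map_add, Multiset.sum_add]
  rfl

lemma eg_add : CT.eg (S + T) = CT.eg S * CT.eg T := by
  rw [CT.eg, Multiset.map_add, Multiset.prod_add]
  rfl

lemma tm_zero : TM q (0 : Multiset (K ⊕ ℕ × K)) := ⟨0, rfl, by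
  rw [pow_zero, CT.eg, Multiset.map_zero, Multiset.prod_zero]⟩

lemma TM.add (hS : TM q S) (hT : TM q T) : TM q (S + T) := by
  obtain ⟨j, h1, h2⟩ := hS
  obtain ⟨i, h3, h4⟩ := hT
  exact ⟨j + i, by rw [dg_add, h1, h3]; ring, by rw [eg_add, h2, h4, pow_add]⟩

lemma tl_iff {n : ℕ} (lab : Fin (n + 1) → K ⊕ ℕ × K) : TL q lab ↔ TM q (lw lab) := by
  have h1 : CT.dg (lw lab) = ∑ i, dgL (lab i) := by
    rw [CT.dg, lw, Multiset.map_map]
    rfl
  have h2 : CT.eg (lw lab) = ∏ i, egL (lab i) := by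
    rw [CT.eg, lw, Multiset.map_map]
    rfl
  rw [TL, TM, h1, h2]

end TM

variable {k : Type u} [Field k] {𝒱 : VarClass k} {ops : CycleOps 𝒱}
  {W : WeilCohomology.{u, v} ops} [IsAlgClosed W.K] {σ : An W.K →ₐ[ℚ] ℂ}
  {p : ℕ} [Fact p.Prime] {a : ℕ} {F : FrobeniusOver W (p ^ a)}
  {ι : Type w} {Pf : ι → Polarized 𝒱} {f Φ : ∀ i, Module.End W.K (W.H (Pf i).X)}
  {isA : ι → Prop}

/-- the labels are possible, and the letters of the first kind belong to abelian varieties -/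
def Arr (Pf : ι → Polarized 𝒱) (isA : ι → Prop) (q : ℕ) {n : ℕ} (c : Fin (n + 1) → ι)
    (lab : Fin (n + 1) → W.K ⊕ ℕ × W.K) : Prop :=
  ∀ i, dgL (lab i) ≤ (Pf (c i)).X.dim ∧ WL q (lab i) ∧ ∀ z, lab i = Sum.inl z → isA (c i)

namespace Dat

variable (D : Dat F σ Pf f Φ)

/-- positivity for all products of letters with the given labels -/
def Pos (D : Dat F σ Pf f Φ) (isA : ι → Prop) (S : Multiset (W.K ⊕ ℕ × W.K)) : Prop :=
  ∀ (n : ℕ) (c : Fin (n + 1) → ι) (lab : Fin (n + 1) → W.K ⊕ ℕ × W.K),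
    Arr Pf isA (p ^ a) c lab → lw lab = S → D.NN c lab

/-- existence of a positive pair -/
def Ex (D : Dat F σ Pf f Φ) (isA : ι → Prop) (S : Multiset (W.K ⊕ ℕ × W.K)) : Prop :=
  ∃ (n : ℕ) (c : Fin (n + 1) → ι) (lab : Fin (n + 1) → W.K ⊕ ℕ × W.K),
    Arr Pf isA (p ^ a) c lab ∧ lw lab = S ∧
      ∃ y y', MR (F := F) (σ := σ) c lab y y' ∧ PosK σ (D.B c y y')

variable {S T : Multiset (W.K ⊕ ℕ × W.K)}

lemma pos_zero : D.Pos isA 0 := fun _ _ lab _ h => absurd h (lw_ne lab)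

/-- sums -/
theorem pos_add (hS : TM (p ^ a) S) (hT : TM (p ^ a) T) (h1 : D.Pos isA S) (h2 : D.Pos isA T) :
    D.Pos isA (S + T) := by
  by_cases hS0 : S = 0
  · rw [hS0, zero_add]; exact h2
  by_cases hT0 : T = 0
  · rw [hT0, add_zero]; exact h1
  intro n c lab harr hlab
  obtain ⟨m, m', e', e, hs, he', he⟩ := exists_part hlab hS0 hT0
  refine D.nn_add hs (fun i => ⟨(harr i).1, (harr i).2.1⟩) ((tl_iff _).2 (by rw [he']; exact hS))
    ((tl_iff _).2 (by rw [he]; exact hT)) (h1 m' _ _ (fun i => harr (e' i)) he')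
    (h2 m _ _ (fun i => harr (e i)) he)

/-- differences -/
theorem pos_cancel (h : D.Pos isA (S + T)) (hT : D.Ex isA T) : D.Pos isA S := by
  intro n c lab harr hlab
  obtain ⟨m, c', lab', harr', hlab', y, y', hy, hpos⟩ := hT
  obtain ⟨C, rfl, rfl⟩ := exists_append c c'
  obtain ⟨L, rfl, rfl⟩ := exists_append lab lab'
  have hs := spl_append n m
  refine D.nn_cancel (c := C) (lab := L) hs (h _ C L (fun i => ?_) ?_) ⟨y, y', hy, hpos⟩
  · rcases hs.cover i with ⟨j, rfl⟩ | ⟨j, rfl⟩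
    · exact harr j
    · exact harr' j
  · rw [lw_spl hs, hlab, hlab']

lemma ex_add (hS : D.Ex isA S) (hT : D.Ex isA T) : D.Ex isA (S + T) := by
  obtain ⟨n, c, lab, harr, hlab, x, x', hx, hposx⟩ := hS
  obtain ⟨m, c', lab', harr', hlab', y, y', hy, hpos⟩ := hT
  obtain ⟨C, rfl, rfl⟩ := exists_append c c'
  obtain ⟨L, rfl, rfl⟩ := exists_append lab lab'
  have hs := spl_append n m
  refine ⟨n + 1 + m, C, L, fun i => ?_, ?_, _, _, mx_MR hs hx hy, ?_⟩
  · rcases hs.cover i with ⟨j, rfl⟩ | ⟨j, rfl⟩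
    · exact harr j
    · exact harr' j
  · rw [lw_spl hs, hlab, hlab']
  · rw [D.B_mx hs]
    exact hposx.mul hpos

/-- cancelling many words -/
lemma pos_cancel_sum {α : Type*} (g : α → Multiset (W.K ⊕ ℕ × W.K)) (Z : Multiset α)
    (h : D.Pos isA (S + (Z.map g).sum)) (hZ : ∀ z ∈ Z, D.Ex isA (g z)) : D.Pos isA S := by
  induction Z using Multiset.induction generalizing S with
  | empty => rwa [Multiset.map_zero, Multiset.sum_zero, add_zero] at h
  | cons z Z ih =>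
    rw [Multiset.map_cons, Multiset.sum_cons, add_comm (g z), ← add_assoc] at h
    exact ih (D.pos_cancel h (hZ z (Multiset.mem_cons_self z Z))) fun z' hz' =>
      hZ z' (Multiset.mem_cons_of_mem hz')

/-- adding many words -/
lemma pos_sum {α : Type*} (g : α → Multiset (W.K ⊕ ℕ × W.K)) (Z : Multiset α)
    (hT : ∀ z ∈ Z, TM (p ^ a) (g z)) (hZ : ∀ z ∈ Z, D.Pos isA (g z)) :
    TM (p ^ a) (Z.map g).sum ∧ D.Pos isA (Z.map g).sum := by
  induction Z using Multiset.induction with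
  | empty =>
    rw [Multiset.map_zero, Multiset.sum_zero]
    exact ⟨tm_zero, D.pos_zero⟩
  | cons z Z ih =>
    obtain ⟨h1, h2⟩ := ih (fun z' hz' => hT z' (Multiset.mem_cons_of_mem hz'))
      fun z' hz' => hZ z' (Multiset.mem_cons_of_mem hz')
    have h3 := hT z (Multiset.mem_cons_self z Z)
    rw [Multiset.map_cons, Multiset.sum_cons]
    exact ⟨h3.add h1, D.pos_add h3 h1 (hZ z (Multiset.mem_cons_self z Z)) h2⟩

include D in
/-- words are not zero -/
lemma nw_ne {n : ℕ} {c : Fin (n + 1) → ι} {x : ∀ i, W.H (Pf (c i)).X} (hx : ∀ i, x i ≠ 0) :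
    nw W (fun i => Pf (c i)) x ≠ 0 := by
  intro h0
  have h1 : ∀ i, ∃ y, bf W (Pf (c i)).X (Pf (c i)).D (f (c i)) (x i) y ≠ 0 := by
    intro i
    by_contra hcon
    push Not at hcon
    exact hx i (bf_nondegL (D.loc (c i)).F (bf_sy (D.loc (c i)).F (D.loc (c i)).t) hcon)
  choose y hy using h1
  have h2 := D.B_nw c x y
  rw [h0, map_zero, LinearMap.zero_apply] at h2
  exact Finset.prod_ne_zero_iff.2 (fun i _ => hy i) h2.symm

/-- the label occurs -/
def Occ (F : FrobeniusOver W (p ^ a)) (Pf : ι → Polarized 𝒱) (isA : ι → Prop)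
    (l : W.K ⊕ ℕ × W.K) : Prop :=
  ∃ i, dgL l ≤ (Pf i).X.dim ∧ WL (p ^ a) l ∧ (∀ z, l = Sum.inl z → isA i) ∧
    ∃ x ∈ LS F (Pf i) l, x ≠ 0

include D in
/-- Existence of words. -/
lemma exists_word (hS0 : S ≠ 0) (hS : TM (p ^ a) S) (hocc : ∀ l ∈ S, Occ F Pf isA l) :
    ∃ (n : ℕ) (c : Fin (n + 1) → ι) (lab : Fin (n + 1) → W.K ⊕ ℕ × W.K),
      Arr Pf isA (p ^ a) c lab ∧ lw lab = S ∧
        ∃ x x', MR (F := F) (σ := σ) (Pf := Pf) c lab x x' ∧ x ≠ 0 ∧ x' ≠ 0 := by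
  obtain ⟨n, lab, hlab⟩ := exists_lw hS0
  have h1 : ∀ i, Occ F Pf isA (lab i) := fun i => hocc _ (by
    rw [← hlab]
    exact Multiset.mem_map_of_mem _ (Finset.mem_univ i))
  choose c hc1 hc2 hc3 x hx hx0 using h1
  exact ⟨n, c, lab, fun i => ⟨hc1 i, hc2 i, hc3 i⟩, hlab,
    D.exists_mr (fun i => ⟨hc1 i, hc2 i⟩) ((tl_iff _).2 (by rw [hlab]; exact hS))
      ⟨_, VV_nw hx, D.nw_ne hx0⟩⟩

lemma ex_of_pos (hS0 : S ≠ 0) (hS : TM (p ^ a) S) (hocc : ∀ l ∈ S, Occ F Pf isA l)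
    (h : D.Pos isA S) : D.Ex isA S := by
  obtain ⟨n, c, lab, harr, hlab, x, x', hx, hx0, hx0'⟩ := D.exists_word hS0 hS hocc
  exact ⟨n, c, lab, harr, hlab, x, x', hx, h n c lab harr hlab x x' hx (Or.inl hx0)⟩

end Dat

end Pool.Agent.Q56.HP
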